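import Pool.Agent.Lib.MP_210e22_co.TA.Defs

/-!
# The number of transversals as a sum over three permutations
-/

namespace Pool.Agent.MP210e22

open Finset Nat

variable {G : Type} [Group G] [Fintype G] [DecidableEq G]

private theorem tau_sum (f : G → G) :
    ∑ τ : Equiv.Perm G, ∏ x, (if f x = τ x then (1 : ℤ) else 0) =
      if Function.Bijective f then 1 else 0 := by
  split_ifs with h
  · rw [Finset.sum_eq_single (Equiv.ofBijective f h)]
    · apply Finset.prod_eq_one
      intro x _
      simp
    · intro τ _ hτ
      have : ∃ x, f x ≠ τ x := by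
        by_contra hcon
        push Not at hcon
        apply hτ
        ext x
        simp [← hcon x]
      obtain ⟨x, hx⟩ := this
      exact Finset.prod_eq_zero (Finset.mem_univ x) (if_neg hx)
    · intro h
      exact absurd (Finset.mem_univ _) h
  · apply Finset.sum_eq_zero
    intro τ _
    have : ∃ x, f x ≠ τ x := by
      by_contra hcon
      push Not at hcon
      apply h
      have : f = τ := funext hcon
      rw [this]
      exact τ.bijective
    obtain ⟨x, hx⟩ := this
    exact Finset.prod_eq_zero (Finset.mem_univ x) (if_neg hx)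

theorem count_eq :
    (((Fintype.card G)! : ℕ) : ℤ) * (N G : ℤ) =
      ∑ ρ : Equiv.Perm G, ∑ σ : Equiv.Perm G, ∑ τ : Equiv.Perm G,
        ∏ x, (if ρ x * σ x = τ x then (1 : ℤ) else 0) := by
  classical
  have h1 : ∀ ρ : Equiv.Perm G, ∑ σ : Equiv.Perm G, ∑ τ : Equiv.Perm G,
        ∏ x, (if ρ x * σ x = τ x then (1 : ℤ) else 0) = (N G : ℤ) := by
    intro ρ
    have h2 : ∀ σ : Equiv.Perm G, ∑ τ : Equiv.Perm G,
        ∏ x, (if ρ x * σ x = τ x then (1 : ℤ) else 0) =
          if Function.Bijective (fun x => ρ x * σ x) then (1 : ℤ) else 0 :=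
      fun σ => tau_sum (fun x => ρ x * σ x)
    rw [Finset.sum_congr rfl fun σ _ => h2 σ]
    rw [← Equiv.sum_comp (Equiv.mulRight ρ)
      (fun σ : Equiv.Perm G => if Function.Bijective (fun x => ρ x * σ x) then (1 : ℤ) else 0)]
    have h3 : ∀ θ : Equiv.Perm G,
        (if Function.Bijective (fun x => ρ x * (Equiv.mulRight ρ θ) x) then (1 : ℤ) else 0) =
          if Good θ then 1 else 0 := by
      intro θ
      have h4 : Function.Bijective (fun x => ρ x * (Equiv.mulRight ρ θ) x) ↔ Good θ := by
        have : (fun x => ρ x * (Equiv.mulRight ρ θ) x) = (fun g => g * θ g) ∘ ρ := by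
          funext x
          simp
        rw [this, Function.Bijective.of_comp_iff _ ρ.bijective]
        rfl
      simp only [h4]
    rw [Finset.sum_congr rfl fun θ _ => h3 θ, Finset.sum_boole, N_eq_card_good,
      Nat.card_eq_fintype_card, Fintype.card_subtype]
  rw [Finset.sum_congr rfl fun ρ _ => h1 ρ, Finset.sum_const, Finset.card_univ,
    Fintype.card_perm, nsmul_eq_mul]

end Pool.Agent.MP210e22
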