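import Pool.Agent.Lib.MP_210e22_co.TA.Val
import Pool.Agent.Lib.MP_210e22_co.TA.Count

/-!
# A criterion for the divisibility of the number of transversals by powers of two
-/

namespace Pool.Agent.MP210e22

open Finset Nat

theorem psum_comp {X I : Type} [Fintype X] [DecidableEq X] (P : X → I → ℤ) (f : X → I)
    (π : Equiv.Perm X) : psum P (fun x => f (π x)) = psum P f := by
  unfold psum
  rw [← Equiv.sum_comp (Equiv.mulRight π)]
  refine Finset.sum_congr rfl fun ρ _ => ?_
  rw [← Equiv.prod_comp π (fun x => P (ρ x) (f x))]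
  refine Finset.prod_congr rfl fun x _ => ?_
  simp

theorem two_pow_dvd_prod {X : Type} [Fintype X] [DecidableEq X] (c : X → ℤ) (s : Finset X)
    (h : ∀ x ∈ s, (2 : ℤ) ∣ c x) : (2 : ℤ) ^ s.card ∣ ∏ x, c x := by
  rw [← Finset.prod_const]
  have h1 : ∏ x ∈ s, c x ∣ ∏ x, c x := Finset.prod_dvd_prod_of_subset _ _ _ (Finset.subset_univ s)
  exact (Finset.prod_dvd_prod_of_dvd _ _ h).trans h1

theorem dvd_of_factorial {n N m : ℕ} (h : 2 ^ (m + fv n) ∣ (n)! * N) : 2 ^ m ∣ N := by
  rcases Nat.eq_zero_or_pos N with h0 | h0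
  · rw [h0]
    exact dvd_zero _
  · have h1 : (n)! * N ≠ 0 := Nat.mul_ne_zero (Nat.factorial_ne_zero n) h0.ne'
    have h2 := (padicValNat_dvd_iff_le h1).1 h
    rw [padicValNat.mul (Nat.factorial_ne_zero n) h0.ne'] at h2
    have h3 : m ≤ padicValNat 2 N := by
      unfold fv at h2
      omega
    exact (padicValNat_dvd_iff_le h0.ne').2 h3

theorem abstract_dvd {G I J L : Type} [Group G] [Fintype G] [DecidableEq G] [Fintype I]
    [DecidableEq I] [Fintype J] [DecidableEq J] [Fintype L] [DecidableEq L]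
    (P : G → I → ℤ) (Q : G → J → ℤ) (R : G → L → ℤ) (C : I → J → L → ℤ)
    (hT : ∀ a b c : G, ∑ y : I × J × L, P a y.1 * Q b y.2.1 * R c y.2.2 * C y.1 y.2.1 y.2.2 =
      if a * b = c then 1 else 0)
    (A : Finset I) (B : Finset J) (D : Finset L)
    (hcov : ∀ i j l, i ∈ A ∨ j ∈ B ∨ l ∈ D ∨ (2 : ℤ) ∣ C i j l) (q m : ℕ)
    (hm : m + q * (A.card + B.card + D.card) + 3 * (Fintype.card G / 2 ^ q) ≤ Fintype.card G) :
    2 ^ m ∣ N G := by
  classical
  set n := Fintype.card G with hn
  apply dvd_of_factorial (n := n)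
  have hcount := count_eq (G := G)
  rw [expand P Q R C (fun a b c => if a * b = c then (1 : ℤ) else 0) hT] at hcount
  have key : (2 : ℤ) ^ (m + fv n) ∣ ((n)! : ℕ) * (N G : ℤ) := by
    rw [hcount]
    apply orbit_dvd
    · intro w π
      have h1 : ∏ x, C ((w ∘ π) x).1 ((w ∘ π) x).2.1 ((w ∘ π) x).2.2 =
          ∏ x, C (w x).1 (w x).2.1 (w x).2.2 :=
        Equiv.prod_comp π (fun x => C (w x).1 (w x).2.1 (w x).2.2)
      have h2 : psum P (fun x => ((w ∘ π) x).1) = psum P (fun x => (w x).1) :=
        psum_comp P (fun x => (w x).1) π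
      have h3 : psum Q (fun x => ((w ∘ π) x).2.1) = psum Q (fun x => (w x).2.1) :=
        psum_comp Q (fun x => (w x).2.1) π
      have h4 : psum R (fun x => ((w ∘ π) x).2.2) = psum R (fun x => (w x).2.2) :=
        psum_comp R (fun x => (w x).2.2) π
      rw [h1, h2, h3, h4]
    · intro w k hk
      set E : Finset (I × J × L) := Finset.univ.filter fun y => (2 : ℤ) ∣ C y.1 y.2.1 y.2.2
        with hE
      have hineq := val_ineq w A B D E (by
        intro y
        rcases hcov y.1 y.2.1 y.2.2 with h | h | h | h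
        · exact Or.inl h
        · exact Or.inr (Or.inl h)
        · exact Or.inr (Or.inr (Or.inl h))
        · exact Or.inr (Or.inr (Or.inr (Finset.mem_filter.2 ⟨Finset.mem_univ _, h⟩)))) q
      set e := (Finset.univ.filter fun x => w x ∈ E).card with he
      have hC : (2 : ℤ) ^ e ∣ ∏ x, C (w x).1 (w x).2.1 (w x).2.2 := by
        apply two_pow_dvd_prod
        intro x hx
        exact (Finset.mem_filter.1 (Finset.mem_filter.1 hx).2).2
      have hP := psum_dvd P (fun x => (w x).1)
      have hQ := psum_dvd Q (fun x => (w x).2.1)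
      have hR := psum_dvd R (fun x => (w x).2.2)
      set a := ∏ i, (cnt (fun x => (w x).1) i)! with ha
      set b := ∏ i, (cnt (fun x => (w x).2.1) i)! with hb
      set d := ∏ i, (cnt (fun x => (w x).2.2) i)! with hd
      have hprod : ((2 ^ e * (a * b * d) : ℕ) : ℤ) ∣
          (∏ x, C (w x).1 (w x).2.1 (w x).2.2) *
          (psum P (fun x => (w x).1) * psum Q (fun x => (w x).2.1) *
            psum R (fun x => (w x).2.2)) := by
        push_cast
        exact mul_dvd_mul hC (mul_dvd_mul (mul_dvd_mul hP hQ) hR)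
      refine dvd_trans ?_ (mul_dvd_mul_left (k : ℤ) hprod)
      have hnat : 2 ^ (m + fv n) ∣ k * (2 ^ e * (a * b * d)) := by
        have hk0 : k ≠ 0 := by
          intro h
          rw [h, zero_mul] at hk
          exact (Nat.factorial_ne_zero _) hk.symm
        have ha0 : a ≠ 0 := Finset.prod_ne_zero_iff.2 fun i _ => Nat.factorial_ne_zero _
        have hb0 : b ≠ 0 := Finset.prod_ne_zero_iff.2 fun i _ => Nat.factorial_ne_zero _
        have hd0 : d ≠ 0 := Finset.prod_ne_zero_iff.2 fun i _ => Nat.factorial_ne_zero _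
        have he0 : (2 : ℕ) ^ e ≠ 0 := by positivity
        have hω0 : (∏ y, (cnt w y)!) ≠ 0 :=
          Finset.prod_ne_zero_iff.2 fun i _ => Nat.factorial_ne_zero _
        rw [padicValNat_dvd_iff_le (Nat.mul_ne_zero hk0 (Nat.mul_ne_zero he0
          (Nat.mul_ne_zero (Nat.mul_ne_zero ha0 hb0) hd0)))]
        rw [padicValNat.mul hk0 (Nat.mul_ne_zero he0
          (Nat.mul_ne_zero (Nat.mul_ne_zero ha0 hb0) hd0)),
          padicValNat.mul he0 (Nat.mul_ne_zero (Nat.mul_ne_zero ha0 hb0) hd0),
          padicValNat.mul (Nat.mul_ne_zero ha0 hb0) hd0, padicValNat.mul ha0 hb0,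
          padicValNat.prime_pow]
        have hva : padicValNat 2 a = ∑ i, fv (cnt (fun x => (w x).1) i) :=
          val_prod _ _ fun i => Nat.factorial_ne_zero _
        have hvb : padicValNat 2 b = ∑ i, fv (cnt (fun x => (w x).2.1) i) :=
          val_prod _ _ fun i => Nat.factorial_ne_zero _
        have hvd : padicValNat 2 d = ∑ i, fv (cnt (fun x => (w x).2.2) i) :=
          val_prod _ _ fun i => Nat.factorial_ne_zero _
        have hvω : padicValNat 2 k + ∑ y, fv (cnt w y) = fv n := by
          have h1 : padicValNat 2 (∏ y, (cnt w y)!) = ∑ y, fv (cnt w y) :=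
            val_prod _ _ fun i => Nat.factorial_ne_zero _
          rw [← h1, ← padicValNat.mul hk0 hω0, hk]
          rfl
        rw [hva, hvb, hvd]
        rw [← hn] at hineq
        omega
      exact_mod_cast hnat
  exact_mod_cast key

end Pool.Agent.MP210e22
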