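import Mathlib

/-!
# Two dual bases for the functions on a union of elementary abelian groups
-/

namespace Pool.Agent.MP210e22

open Finset

section

variable {r : ℕ} {Q : Type} [DecidableEq Q]

/-- The basis functions `z ↦ [z.1 = y.1] * ∏_{i ∈ y.2} [z.2 i = 0]`. -/
def P0 (z : Q × (Fin r → ZMod 2)) (y : Q × Finset (Fin r)) : ℤ :=
  if z.1 = y.1 then ∏ i, (if i ∈ y.2 then (if z.2 i = 0 then 1 else 0) else 1) else 0

/-- The dual basis functions. -/
def P1 (z : Q × (Fin r → ZMod 2)) (y : Q × Finset (Fin r)) : ℤ :=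
  if z.1 = y.1 then
    ∏ i, (if i ∈ y.2 then (if z.2 i = 0 then 1 else -1) else (if z.2 i = 0 then 0 else 1)) else 0

theorem sum_prod_ite (f g : Fin r → ℤ) :
    ∑ S : Finset (Fin r), ∏ i, (if i ∈ S then f i else g i) = ∏ i, (f i + g i) := by
  rw [Finset.prod_add, Finset.powerset_univ]
  refine Finset.sum_congr rfl fun S _ => ?_
  rw [Finset.prod_ite]
  congr 1
  · refine Finset.prod_congr ?_ fun _ _ => rfl
    ext i
    simp
  · refine Finset.prod_congr ?_ fun _ _ => rfl
    ext i
    simp

theorem dual_aux (x x' : Fin r → ZMod 2) :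
    ∑ S : Finset (Fin r), (∏ i, (if i ∈ S then (if x i = 0 then (1 : ℤ) else 0) else 1)) *
      (∏ i, (if i ∈ S then (if x' i = 0 then (1 : ℤ) else -1) else (if x' i = 0 then 0 else 1))) =
      if x = x' then 1 else 0 := by
  have h1 : ∀ S : Finset (Fin r),
      (∏ i, (if i ∈ S then (if x i = 0 then (1 : ℤ) else 0) else 1)) *
      (∏ i, (if i ∈ S then (if x' i = 0 then (1 : ℤ) else -1) else (if x' i = 0 then 0 else 1))) =
      ∏ i, (if i ∈ S then (if x i = 0 then (1 : ℤ) else 0) * (if x' i = 0 then (1 : ℤ) else -1)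
        else (if x' i = 0 then 0 else 1)) := by
    intro S
    rw [← Finset.prod_mul_distrib]
    refine Finset.prod_congr rfl fun i _ => ?_
    by_cases h : i ∈ S <;> simp [h]
  rw [Finset.sum_congr rfl fun S _ => h1 S, sum_prod_ite]
  have h2 : ∀ a b : ZMod 2, (if a = 0 then (1 : ℤ) else 0) * (if b = 0 then (1 : ℤ) else -1) +
      (if b = 0 then 0 else 1) = if a = b then 1 else 0 := by decide
  rw [Finset.prod_congr rfl fun i _ => h2 (x i) (x' i)]
  split_ifs with h
  · subst h
    simp
  · obtain ⟨i, hi⟩ := Function.ne_iff.1 h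
    exact Finset.prod_eq_zero (Finset.mem_univ i) (if_neg hi)

theorem dual [Fintype Q] (z z' : Q × (Fin r → ZMod 2)) :
    ∑ y, P0 z y * P1 z' y = if z = z' then 1 else 0 := by
  rw [Fintype.sum_prod_type]
  unfold P0 P1
  simp only
  rw [Finset.sum_eq_single z.1]
  · by_cases h : z'.1 = z.1
    · simp only [if_true, h]
      rw [dual_aux]
      have : z = z' ↔ z.2 = z'.2 := by
        rw [Prod.ext_iff]
        exact ⟨fun h' => h'.2, fun h' => ⟨h.symm, h'⟩⟩
      simp only [this]
    · have h' : z ≠ z' := fun h' => h (by rw [h'])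
      simp [h, h']
  · intro q _ hq
    refine Finset.sum_eq_zero fun S _ => ?_
    rw [if_neg (Ne.symm hq), zero_mul]
  · intro h
    exact absurd (Finset.mem_univ _) h

theorem dual' [Fintype Q] (z z' : Q × (Fin r → ZMod 2)) :
    ∑ y, P1 z y * P0 z' y = if z = z' then 1 else 0 := by
  have h := dual z' z
  rw [Finset.sum_congr rfl fun y _ => mul_comm (P1 z y) (P0 z' y), h]
  simp only [eq_comm]

/-- The basis functions are invariant under translations outside `y.2`. -/
theorem P0_shift (z : Q × (Fin r → ZMod 2)) (x : Fin r → ZMod 2) (y : Q × Finset (Fin r))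
    (h : ∀ i ∈ y.2, x i = 0) : P0 (z.1, z.2 + x) y = P0 z y := by
  unfold P0
  simp only
  split_ifs
  · refine Finset.prod_congr rfl fun i _ => ?_
    by_cases hi : i ∈ y.2
    · simp [hi, h i hi]
    · simp [hi]
  · rfl

/-- Modulo two the dual basis functions are invariant under translations inside `y.2`. -/
theorem P1_shift (z : Q × (Fin r → ZMod 2)) (x : Fin r → ZMod 2) (y : Q × Finset (Fin r))
    (h : ∀ i ∉ y.2, x i = 0) : ((P1 (z.1, z.2 + x) y : ℤ) : ZMod 2) = ((P1 z y : ℤ) : ZMod 2) := by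
  unfold P1
  simp only
  split_ifs
  · push_cast
    refine Finset.prod_congr rfl fun i _ => ?_
    by_cases hi : i ∈ y.2
    · have h1 : ∀ a : ZMod 2, (((if a = 0 then (1 : ℤ) else -1) : ℤ) : ZMod 2) = 1 := by decide
      simp only [hi, if_true]
      have h2 := h1 ((z.2 + x) i)
      have h3 := h1 (z.2 i)
      push_cast at h2 h3
      rw [h2, h3]
    · simp [hi, h i hi]
  · rfl

end

end Pool.Agent.MP210e22
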