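import Mathlib

/-!
# Coordinates on an elementary abelian group of order `2 ^ r`
-/

namespace Pool.Agent.MP210e22

theorem comm_of_sq {K : Type} [Group K] (h : ∀ a : K, a ^ 2 = 1) (a b : K) : a * b = b * a := by
  have hinv : ∀ x : K, x⁻¹ = x := by
    intro x
    have := h x
    rw [pow_two] at this
    exact inv_eq_of_mul_eq_one_right this
  have h1 := hinv (a * b)
  rw [mul_inv_rev, hinv, hinv] at h1
  exact h1.symm

theorem exists_coord {K : Type} [Group K] [Finite K] (h : ∀ a : K, a ^ 2 = 1) (r : ℕ)
    (hr : Nat.card K = 2 ^ r) :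
    ∃ φ : K → (Fin r → ZMod 2), (∀ a b, φ (a * b) = φ a + φ b) ∧ Function.Bijective φ := by
  letI : CommGroup K := { (inferInstance : Group K) with mul_comm := comm_of_sq h }
  have h2 : ∀ x : Additive K, 2 • x = 0 := by
    intro x
    exact h x.toMul
  letI : Module (ZMod 2) (Additive K) := AddCommGroup.zmodModule h2
  haveI : Finite (Additive K) := ‹Finite K›
  haveI : Module.Finite (ZMod 2) (Additive K) := Module.Finite.of_finite
  have hc : Nat.card (Additive K) = 2 ^ Module.finrank (ZMod 2) (Additive K) := by
    have h3 := Module.natCard_eq_pow_finrank (K := ZMod 2) (V := Additive K)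
    simpa using h3
  have hK : Nat.card (Additive K) = 2 ^ r := hr
  have hfr : Module.finrank (ZMod 2) (Additive K) = r := by
    rw [hK] at hc
    exact (Nat.pow_right_injective (le_refl 2) hc).symm
  let b := Module.finBasisOfFinrankEq (ZMod 2) (Additive K) hfr
  refine ⟨fun a => b.equivFun (Additive.ofMul a), ?_, ?_⟩
  · intro a c
    show b.equivFun (Additive.ofMul a + Additive.ofMul c) = _
    rw [map_add]
  · exact b.equivFun.bijective.comp Additive.ofMul.bijective

end Pool.Agent.MP210e22
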