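import Mathlib

/-!
# Transversals of Cayley tables: definitions
-/

namespace Pool.Agent.MP210e22

open Finset

/-- `T` is a transversal of the Cayley table of `G`: a set of cells with exactly one cell in each
row, in each column and with each symbol. -/
def IsTransversal (G : Type) [Group G] (T : Set (G × G)) : Prop :=
  (∀ g : G, ∃! c : G × G, c ∈ T ∧ c.1 = g) ∧
  (∀ h : G, ∃! c : G × G, c ∈ T ∧ c.2 = h) ∧
  (∀ s : G, ∃! c : G × G, c ∈ T ∧ c.1 * c.2 = s)

/-- The number of transversals of the Cayley table of `G`. -/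
noncomputable def N (G : Type) [Group G] : ℕ := Nat.card {T : Set (G × G) // IsTransversal G T}

section

variable {G : Type} [Group G] [Fintype G]

/-- the permutations that describe transversals -/
def Good (θ : Equiv.Perm G) : Prop := Function.Bijective fun g => g * θ g

theorem N_eq_card_good : N G = Nat.card {θ : Equiv.Perm G // Good θ} := by
  unfold N
  symm
  have hmem : ∀ θ : {θ : Equiv.Perm G // Good θ},
      IsTransversal G {c : G × G | c.2 = θ.1 c.1} := by
    rintro ⟨θ, hθ⟩
    refine ⟨fun g => ⟨(g, θ g), ⟨rfl, rfl⟩, ?_⟩, fun h => ⟨(θ.symm h, h), ⟨?_, rfl⟩, ?_⟩,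
      fun s => ?_⟩
    · rintro ⟨a, b⟩ ⟨h1, h2⟩
      simp only [Set.mem_ofPred_eq] at h1 h2
      subst h2
      rw [h1]
    · simp
    · rintro ⟨a, b⟩ ⟨h1, h2⟩
      simp only [Set.mem_ofPred_eq] at h1 h2
      subst h2
      rw [h1]
      simp
    · obtain ⟨g, hg⟩ := hθ.2 s
      refine ⟨(g, θ g), ⟨rfl, hg⟩, ?_⟩
      rintro ⟨a, b⟩ ⟨h1, h2⟩
      simp only [Set.mem_ofPred_eq] at h1 h2
      subst h1
      have : a = g := hθ.1 (h2.trans hg.symm)
      rw [this]
  refine Nat.card_eq_of_bijective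
    (fun θ => (⟨{c : G × G | c.2 = θ.1 c.1}, hmem θ⟩ : {T : Set (G × G) // IsTransversal G T}))
    ⟨?_, ?_⟩
  · rintro ⟨θ, hθ⟩ ⟨θ', hθ'⟩ h
    have h1 : {c : G × G | c.2 = θ c.1} = {c : G × G | c.2 = θ' c.1} := congrArg Subtype.val h
    apply Subtype.ext
    ext g
    have h2 : (g, θ g) ∈ {c : G × G | c.2 = θ c.1} := rfl
    rw [h1] at h2
    exact h2
  · rintro ⟨T, hT⟩
    obtain ⟨hr, hc, hs⟩ := hT
    choose cr hcr hcr' using (show ∀ g : G, ∃! c : G × G, c ∈ T ∧ c.1 = g from hr)
    have hmemr : ∀ g, (g, (cr g).2) ∈ T := by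
      intro g
      have h1 := (hcr g).2
      have h2 : (g, (cr g).2) = cr g := Prod.ext h1.symm rfl
      rw [h2]
      exact (hcr g).1
    have huniq : ∀ g h, (g, h) ∈ T → h = (cr g).2 := by
      intro g h hgh
      have := hcr' g (g, h) ⟨hgh, rfl⟩
      rw [← this]
    have hinj : Function.Injective fun g => (cr g).2 := by
      intro g g' hgg
      obtain ⟨c, _, hc'⟩ := hc (cr g).2
      have h1 := hc' (g, (cr g).2) ⟨hmemr g, rfl⟩
      have h2 := hc' (g', (cr g').2) ⟨hmemr g', by simpa using hgg.symm⟩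
      have h3 := h1.trans h2.symm
      exact congrArg Prod.fst h3
    have hbij : Function.Bijective fun g => (cr g).2 := Finite.injective_iff_bijective.mp hinj
    have hgood : Good (Equiv.ofBijective _ hbij) := by
      apply Finite.injective_iff_bijective.mp
      intro g g' hgg
      obtain ⟨c, _, hc'⟩ := hs (g * (cr g).2)
      have h1 := hc' (g, (cr g).2) ⟨hmemr g, rfl⟩
      have h2 := hc' (g', (cr g').2) ⟨hmemr g', hgg.symm⟩
      have h3 := h1.trans h2.symm
      exact congrArg Prod.fst h3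
    refine ⟨⟨Equiv.ofBijective _ hbij, hgood⟩, ?_⟩
    apply Subtype.ext
    ext ⟨g, h⟩
    simp only [Set.mem_ofPred_eq, Equiv.ofBijective_apply]
    constructor
    · intro hh
      rw [hh]
      exact hmemr g
    · exact huniq g h

end

end Pool.Agent.MP210e22
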