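import Mathlib

/-!
# Expansion of a sum over three permutations
-/

namespace Pool.Agent.MP210e22

open Finset

/-- The permanent of the matrix `(P y (f x))`, `x, y ∈ X`. -/
def psum {X I : Type} [Fintype X] [DecidableEq X] (P : X → I → ℤ) (f : X → I) : ℤ :=
  ∑ ρ : Equiv.Perm X, ∏ x, P (ρ x) (f x)

theorem expand {X I J L : Type} [Fintype X] [DecidableEq X] [Fintype I] [Fintype J] [Fintype L]
    (P : X → I → ℤ) (Q : X → J → ℤ) (R : X → L → ℤ) (C : I → J → L → ℤ) (T : X → X → X → ℤ)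
    (hT : ∀ a b c, ∑ y : I × J × L, P a y.1 * Q b y.2.1 * R c y.2.2 * C y.1 y.2.1 y.2.2 = T a b c) :
    ∑ ρ : Equiv.Perm X, ∑ σ : Equiv.Perm X, ∑ τ : Equiv.Perm X, ∏ x, T (ρ x) (σ x) (τ x) =
      ∑ w : X → I × J × L, (∏ x, C (w x).1 (w x).2.1 (w x).2.2) *
        (psum P (fun x => (w x).1) * psum Q (fun x => (w x).2.1) * psum R (fun x => (w x).2.2)) := by
  have h1 : ∀ ρ σ τ : Equiv.Perm X, ∏ x, T (ρ x) (σ x) (τ x) =
      ∑ w : X → I × J × L, (∏ x, C (w x).1 (w x).2.1 (w x).2.2) *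
        ((∏ x, P (ρ x) (w x).1) * (∏ x, Q (σ x) (w x).2.1) * (∏ x, R (τ x) (w x).2.2)) := by
    intro ρ σ τ
    have h2 : ∀ x, T (ρ x) (σ x) (τ x) = ∑ y : I × J × L,
        P (ρ x) y.1 * Q (σ x) y.2.1 * R (τ x) y.2.2 * C y.1 y.2.1 y.2.2 := fun x => (hT _ _ _).symm
    rw [Finset.prod_congr rfl fun x _ => h2 x, Finset.prod_univ_sum, Fintype.piFinset_univ]
    refine Finset.sum_congr rfl fun w _ => ?_
    rw [← Finset.prod_mul_distrib, ← Finset.prod_mul_distrib, ← Finset.prod_mul_distrib]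
    refine Finset.prod_congr rfl fun x _ => ?_
    ring
  calc ∑ ρ : Equiv.Perm X, ∑ σ : Equiv.Perm X, ∑ τ : Equiv.Perm X, ∏ x, T (ρ x) (σ x) (τ x)
      = ∑ ρ : Equiv.Perm X, ∑ σ : Equiv.Perm X, ∑ τ : Equiv.Perm X,
        ∑ w : X → I × J × L, (∏ x, C (w x).1 (w x).2.1 (w x).2.2) *
        ((∏ x, P (ρ x) (w x).1) * (∏ x, Q (σ x) (w x).2.1) * (∏ x, R (τ x) (w x).2.2)) := by
        refine Finset.sum_congr rfl fun ρ _ => Finset.sum_congr rfl fun σ _ =>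
          Finset.sum_congr rfl fun τ _ => h1 ρ σ τ
    _ = ∑ w : X → I × J × L, ∑ ρ : Equiv.Perm X, ∑ σ : Equiv.Perm X, ∑ τ : Equiv.Perm X,
        (∏ x, C (w x).1 (w x).2.1 (w x).2.2) *
        ((∏ x, P (ρ x) (w x).1) * (∏ x, Q (σ x) (w x).2.1) * (∏ x, R (τ x) (w x).2.2)) := by
        simp_rw [Finset.sum_comm (s := (Finset.univ : Finset (Equiv.Perm X)))
          (t := (Finset.univ : Finset (X → I × J × L)))]
    _ = _ := by
        refine Finset.sum_congr rfl fun w _ => ?_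
        unfold psum
        simp only [← Finset.mul_sum, ← Finset.sum_mul]

end Pool.Agent.MP210e22
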