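import Pool.Agent.Lib.MP_210e22_co.TA.Grp

/-!
# A criterion with structure constants over the integers, up to an odd factor
-/

namespace Pool.Agent.MP210e22

open Finset Nat

theorem abstract_dvd_odd {G I J L : Type} [Group G] [Fintype G] [DecidableEq G] [Fintype I]
    [DecidableEq I] [Fintype J] [DecidableEq J] [Fintype L] [DecidableEq L]
    (P : G → I → ℤ) (Q : G → J → ℤ) (R : G → L → ℤ) (C : I → J → L → ℤ) (o : ℤ) (ho : Odd o)
    (hT : ∀ a b c : G, ∑ y : I × J × L, P a y.1 * Q b y.2.1 * R c y.2.2 * C y.1 y.2.1 y.2.2 =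
      o * if a * b = c then 1 else 0)
    (A : Finset I) (B : Finset J) (D : Finset L)
    (hcov : ∀ i j l, i ∈ A ∨ j ∈ B ∨ l ∈ D ∨ (2 : ℤ) ∣ C i j l) (q m : ℕ)
    (hm : m + q * (A.card + B.card + D.card) + 3 * (Fintype.card G / 2 ^ q) ≤ Fintype.card G) :
    2 ^ m ∣ N G := by
  classical
  set n := Fintype.card G with hn
  apply dvd_of_factorial (n := n)
  have hcount := count_eq (G := G)
  have hexp := expand P Q R C (fun a b c => o * if a * b = c then (1 : ℤ) else 0) hT
  have hscale : ∑ ρ : Equiv.Perm G, ∑ σ : Equiv.Perm G, ∑ τ : Equiv.Perm G,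
      ∏ x, (o * if ρ x * σ x = τ x then (1 : ℤ) else 0) = o ^ n * (((n)! : ℕ) * (N G : ℤ)) := by
    rw [hcount, Finset.mul_sum]
    refine Finset.sum_congr rfl fun ρ _ => ?_
    rw [Finset.mul_sum]
    refine Finset.sum_congr rfl fun σ _ => ?_
    rw [Finset.mul_sum]
    refine Finset.sum_congr rfl fun τ _ => ?_
    rw [Finset.prod_mul_distrib, Finset.prod_const, Finset.card_univ]
  rw [hscale] at hexp
  have key : (2 : ℤ) ^ (m + fv n) ∣ o ^ n * (((n)! : ℕ) * (N G : ℤ)) := by
    rw [hexp]
    apply orbit_dvd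
    · intro w π
      have h1 : ∏ x, C ((w ∘ π) x).1 ((w ∘ π) x).2.1 ((w ∘ π) x).2.2 =
          ∏ x, C (w x).1 (w x).2.1 (w x).2.2 :=
        Equiv.prod_comp π (fun x => C (w x).1 (w x).2.1 (w x).2.2)
      have h2 : psum P (fun x => ((w ∘ π) x).1) = psum P (fun x => (w x).1) :=
        psum_comp P (fun x => (w x).1) π
      have h3 : psum Q (fun x => ((w ∘ π) x).2.1) = psum Q (fun x => (w x).2.1) :=
        psum_comp Q (fun x => (w x).2.1) π
      have h4 : psum R (fun x => ((w ∘ π) x).2.2) = psum R (fun x => (w x).2.2) :=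
        psum_comp R (fun x => (w x).2.2) π
      rw [h1, h2, h3, h4]
    · intro w k hk
      set E : Finset (I × J × L) := Finset.univ.filter fun y => (2 : ℤ) ∣ C y.1 y.2.1 y.2.2
        with hE
      have hineq := val_ineq w A B D E (by
        intro y
        rcases hcov y.1 y.2.1 y.2.2 with h | h | h | h
        · exact Or.inl h
        · exact Or.inr (Or.inl h)
        · exact Or.inr (Or.inr (Or.inl h))
        · exact Or.inr (Or.inr (Or.inr (Finset.mem_filter.2 ⟨Finset.mem_univ _, h⟩)))) q
      set e := (Finset.univ.filter fun x => w x ∈ E).card with he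
      have hC : (2 : ℤ) ^ e ∣ ∏ x, C (w x).1 (w x).2.1 (w x).2.2 := by
        apply two_pow_dvd_prod
        intro x hx
        exact (Finset.mem_filter.1 (Finset.mem_filter.1 hx).2).2
      have hP := psum_dvd P (fun x => (w x).1)
      have hQ := psum_dvd Q (fun x => (w x).2.1)
      have hR := psum_dvd R (fun x => (w x).2.2)
      set a := ∏ i, (cnt (fun x => (w x).1) i)! with ha
      set b := ∏ i, (cnt (fun x => (w x).2.1) i)! with hb
      set d := ∏ i, (cnt (fun x => (w x).2.2) i)! with hd
      have hprod : ((2 ^ e * (a * b * d) : ℕ) : ℤ) ∣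
          (∏ x, C (w x).1 (w x).2.1 (w x).2.2) *
          (psum P (fun x => (w x).1) * psum Q (fun x => (w x).2.1) *
            psum R (fun x => (w x).2.2)) := by
        push_cast
        exact mul_dvd_mul hC (mul_dvd_mul (mul_dvd_mul hP hQ) hR)
      refine dvd_trans ?_ (mul_dvd_mul_left (k : ℤ) hprod)
      have hnat : 2 ^ (m + fv n) ∣ k * (2 ^ e * (a * b * d)) := by
        have hk0 : k ≠ 0 := by
          intro h
          rw [h, zero_mul] at hk
          exact (Nat.factorial_ne_zero _) hk.symm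
        have ha0 : a ≠ 0 := Finset.prod_ne_zero_iff.2 fun i _ => Nat.factorial_ne_zero _
        have hb0 : b ≠ 0 := Finset.prod_ne_zero_iff.2 fun i _ => Nat.factorial_ne_zero _
        have hd0 : d ≠ 0 := Finset.prod_ne_zero_iff.2 fun i _ => Nat.factorial_ne_zero _
        have he0 : (2 : ℕ) ^ e ≠ 0 := by positivity
        have hω0 : (∏ y, (cnt w y)!) ≠ 0 :=
          Finset.prod_ne_zero_iff.2 fun i _ => Nat.factorial_ne_zero _
        rw [padicValNat_dvd_iff_le (Nat.mul_ne_zero hk0 (Nat.mul_ne_zero he0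
          (Nat.mul_ne_zero (Nat.mul_ne_zero ha0 hb0) hd0)))]
        rw [padicValNat.mul hk0 (Nat.mul_ne_zero he0
          (Nat.mul_ne_zero (Nat.mul_ne_zero ha0 hb0) hd0)),
          padicValNat.mul he0 (Nat.mul_ne_zero (Nat.mul_ne_zero ha0 hb0) hd0),
          padicValNat.mul (Nat.mul_ne_zero ha0 hb0) hd0, padicValNat.mul ha0 hb0,
          padicValNat.prime_pow]
        have hva : padicValNat 2 a = ∑ i, fv (cnt (fun x => (w x).1) i) :=
          val_prod _ _ fun i => Nat.factorial_ne_zero _
        have hvb : padicValNat 2 b = ∑ i, fv (cnt (fun x => (w x).2.1) i) :=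
          val_prod _ _ fun i => Nat.factorial_ne_zero _
        have hvd : padicValNat 2 d = ∑ i, fv (cnt (fun x => (w x).2.2) i) :=
          val_prod _ _ fun i => Nat.factorial_ne_zero _
        have hvω : padicValNat 2 k + ∑ y, fv (cnt w y) = fv n := by
          have h1 : padicValNat 2 (∏ y, (cnt w y)!) = ∑ y, fv (cnt w y) :=
            val_prod _ _ fun i => Nat.factorial_ne_zero _
          rw [← h1, ← padicValNat.mul hk0 hω0, hk]
          rfl
        rw [hva, hvb, hvd]
        rw [← hn] at hineq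
        omega
      exact_mod_cast hnat
  have hcop : IsCoprime ((2 : ℤ) ^ (m + fv n)) (o ^ n) := by
    apply IsCoprime.pow
    rw [Int.isCoprime_iff_gcd_eq_one]
    obtain ⟨t, ht⟩ := ho
    have : IsCoprime (2 : ℤ) o := ⟨-t, 1, by rw [ht]; ring⟩
    exact Int.isCoprime_iff_gcd_eq_one.1 this
  exact_mod_cast hcop.dvd_of_dvd_mul_left key

theorem tensor_id_odd {G I J L : Type} [Group G] [Fintype G] [DecidableEq G] [Fintype I]
    [Fintype J] [Fintype L]
    (P P' : G → I → ℤ) (Q Q' : G → J → ℤ) (R R' : G → L → ℤ) (o₁ o₂ o₃ : ℤ)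
    (hP : ∀ a a', ∑ i, P a i * P' a' i = if a = a' then o₁ else 0)
    (hQ : ∀ a a', ∑ i, Q a i * Q' a' i = if a = a' then o₂ else 0)
    (hR : ∀ a a', ∑ i, R a i * R' a' i = if a = a' then o₃ else 0) (a b c : G) :
    ∑ y : I × J × L, P a y.1 * Q b y.2.1 * R c y.2.2 *
      (∑ a' : G, ∑ b' : G, P' a' y.1 * Q' b' y.2.1 * R' (a' * b') y.2.2) =
      (o₁ * o₂ * o₃) * if a * b = c then 1 else 0 := by
  have h1 : ∀ a' b' : G, ∑ y : I × J × L, P a y.1 * Q b y.2.1 * R c y.2.2 *
      (P' a' y.1 * Q' b' y.2.1 * R' (a' * b') y.2.2) =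
      (if a = a' then o₁ else 0) * (if b = b' then o₂ else 0) *
        (if c = a' * b' then o₃ else 0) := by
    intro a' b'
    rw [← hP, ← hQ, ← hR, Fintype.sum_prod_type]
    rw [Finset.sum_mul_sum, Finset.sum_mul]
    refine Finset.sum_congr rfl fun i _ => ?_
    rw [Fintype.sum_prod_type, Finset.sum_mul]
    refine Finset.sum_congr rfl fun j _ => ?_
    rw [Finset.mul_sum]
    refine Finset.sum_congr rfl fun l _ => ?_
    ring
  simp_rw [Finset.mul_sum]
  rw [Finset.sum_comm]
  have h2 : ∀ a' : G, ∑ y : I × J × L, ∑ b' : G, P a y.1 * Q b y.2.1 * R c y.2.2 *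
      (P' a' y.1 * Q' b' y.2.1 * R' (a' * b') y.2.2) =
      ∑ b' : G, (if a = a' then o₁ else 0) * (if b = b' then o₂ else 0) *
        (if c = a' * b' then o₃ else 0) := by
    intro a'
    rw [Finset.sum_comm]
    exact Finset.sum_congr rfl fun b' _ => h1 a' b'
  rw [Finset.sum_congr rfl fun a' _ => h2 a']
  rw [Finset.sum_eq_single a, Finset.sum_eq_single b]
  · simp only [if_true]
    by_cases h : a * b = c
    · rw [if_pos h, if_pos h.symm, mul_one]
    · rw [if_neg h, if_neg (Ne.symm h), mul_zero, mul_zero]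
  · intro b' _ hb'
    rw [if_neg (Ne.symm hb')]
    simp
  · intro h
    exact absurd (Finset.mem_univ _) h
  · intro a' _ ha'
    refine Finset.sum_eq_zero fun b' _ => ?_
    rw [if_neg (Ne.symm ha')]
    simp
  · intro h
    exact absurd (Finset.mem_univ _) h

/-- A basis which is adapted to a subspace, lifted to the integers. -/
theorem adapted {G : Type} [Fintype G] [DecidableEq G] (U : Submodule (ZMod 2) (G → ZMod 2)) :
    ∃ (P' P : G → G → ℤ) (o : ℤ) (A : Finset G), Odd o ∧
      (∀ a a', ∑ i, P a i * P' a' i = if a = a' then o else 0) ∧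
      A.card + Module.finrank (ZMod 2) U = Fintype.card G ∧
      ∀ i ∉ A, (fun a => ((P' a i : ℤ) : ZMod 2)) ∈ U := by
  classical
  obtain ⟨W, hW⟩ := Submodule.exists_isCompl U
  set u := Module.finrank (ZMod 2) U with hu
  set w := Module.finrank (ZMod 2) W with hw
  let bU := Module.finBasis (ZMod 2) U
  let bW := Module.finBasis (ZMod 2) W
  let b0 : Module.Basis (Fin u ⊕ Fin w) (ZMod 2) (G → ZMod 2) :=
    (bU.prod bW).map (Submodule.prodEquivOfIsCompl U W hW)
  have hsum : u + w = Fintype.card G := by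
    have h1 := Module.finrank_eq_card_basis b0
    rw [Module.finrank_fintype_fun_eq_card, Fintype.card_sum, Fintype.card_fin,
      Fintype.card_fin] at h1
    exact h1.symm
  let e : Fin u ⊕ Fin w ≃ G := Fintype.equivOfCardEq (by
    rw [Fintype.card_sum, Fintype.card_fin, Fintype.card_fin]
    exact hsum)
  let b : Module.Basis G (ZMod 2) (G → ZMod 2) := b0.reindex e
  let Mz : Matrix G G ℤ := fun i a => ((b i a).val : ℤ)
  have hcast : ∀ i a, ((Mz i a : ℤ) : ZMod 2) = b i a := by
    intro i a
    show ((((b i a).val : ℕ) : ℤ) : ZMod 2) = b i a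
    rw [Int.cast_natCast, ZMod.natCast_zmod_val]
  have hdet : Odd Mz.det := by
    rw [← Int.not_even_iff_odd]
    intro hev
    have h2 : ((Mz.det : ℤ) : ZMod 2) = 0 := by
      obtain ⟨t, ht⟩ := hev
      rw [ht]
      push_cast
      exact CharTwo.add_self_eq_zero _
    let B : Matrix G G (ZMod 2) := fun i a => b i a
    have h3 : ((Mz.det : ℤ) : ZMod 2) = B.det := by
      have h4 := Int.cast_det (R := ZMod 2) Mz
      rw [h4]
      congr 1
      ext i a
      exact hcast i a
    have h5 : IsUnit B := by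
      rw [← Matrix.linearIndependent_rows_iff_isUnit]
      exact b.linearIndependent
    rw [h2] at h3
    have h6 := (Matrix.isUnit_iff_isUnit_det B).1 h5
    rw [← h3] at h6
    exact not_isUnit_zero h6
  refine ⟨fun a i => Mz i a, fun a i => Mz.adjugate a i, Mz.det,
    (Finset.univ : Finset (Fin w)).image (fun k => e (Sum.inr k)), hdet, ?_, ?_, ?_⟩
  · intro a a'
    have h1 := congrFun (congrFun (Matrix.adjugate_mul Mz) a) a'
    rw [Matrix.mul_apply] at h1
    rw [h1, Matrix.smul_apply, Matrix.one_apply, smul_eq_mul]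
    split_ifs <;> simp
  · rw [Finset.card_image_of_injective _ (fun x y hxy => Sum.inr_injective (e.injective hxy)),
      Finset.card_univ, Fintype.card_fin]
    omega
  · intro i hi
    have h1 : ∃ k, e.symm i = Sum.inl k := by
      rcases hs : e.symm i with k | k
      · exact ⟨k, rfl⟩
      · exfalso
        apply hi
        rw [Finset.mem_image]
        exact ⟨k, Finset.mem_univ _, by rw [← hs, Equiv.apply_symm_apply]⟩
    obtain ⟨k, hk⟩ := h1
    have h2 : (fun a => ((Mz i a : ℤ) : ZMod 2)) = b i := by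
      funext a
      exact hcast i a
    rw [h2]
    have h3 : b i = ((bU k : U) : G → ZMod 2) := by
      show (b0.reindex e) i = _
      rw [Module.Basis.reindex_apply, hk]
      show (Submodule.prodEquivOfIsCompl U W hW) ((bU.prod bW) (Sum.inl k)) = _
      simp
    rw [h3]
    exact (bU k).2

end Pool.Agent.MP210e22
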