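import Pool.Agent.Lib.MP_210e22_co.TA.GAbs

/-!
# The criterion in terms of the group algebra over the field with two elements
-/

namespace Pool.Agent.MP210e22

open Finset

section

variable {G : Type} [Group G] [Fintype G] [DecidableEq G]

/-- The functions which are orthogonal to `Z`. -/
def perp (Z : Submodule (ZMod 2) (G → ZMod 2)) : Submodule (ZMod 2) (G → ZMod 2) where
  carrier := {f | ∀ z ∈ Z, ∑ c, z c * f c = 0}
  add_mem' := by
    intro f g hf hg z hz
    simp only [Pi.add_apply, mul_add, Finset.sum_add_distrib]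
    rw [hf z hz, hg z hz, add_zero]
  zero_mem' := by
    intro z _
    simp
  smul_mem' := by
    intro k f hf z hz
    simp only [Pi.smul_apply, smul_eq_mul]
    have h1 : ∑ c, z c * (k * f c) = k * ∑ c, z c * f c := by
      rw [Finset.mul_sum]
      refine Finset.sum_congr rfl fun c _ => ?_
      ring
    rw [h1, hf z hz, mul_zero]

omit [Group G] [DecidableEq G] in
theorem finrank_perp (Z : Submodule (ZMod 2) (G → ZMod 2)) :
    Fintype.card G ≤ Module.finrank (ZMod 2) Z + Module.finrank (ZMod 2) (perp Z) := by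
  let Φ : (G → ZMod 2) →ₗ[ZMod 2] Module.Dual (ZMod 2) Z :=
    LinearMap.mk₂ (ZMod 2) (fun f z => ∑ c, (z : G → ZMod 2) c * f c)
      (by
        intro f g z
        simp only [Pi.add_apply, mul_add, Finset.sum_add_distrib])
      (by
        intro k f z
        simp only [Pi.smul_apply, smul_eq_mul, Finset.mul_sum]
        refine Finset.sum_congr rfl fun c _ => ?_
        ring)
      (by
        intro f z z'
        simp only [Submodule.coe_add, Pi.add_apply, add_mul, Finset.sum_add_distrib])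
      (by
        intro k f z
        simp only [Submodule.coe_smul, Pi.smul_apply, smul_eq_mul, Finset.mul_sum]
        refine Finset.sum_congr rfl fun c _ => ?_
        ring)
  have h1 := LinearMap.finrank_range_add_finrank_ker Φ
  rw [Module.finrank_fintype_fun_eq_card] at h1
  have h2 : Module.finrank (ZMod 2) (LinearMap.range Φ) ≤ Module.finrank (ZMod 2) Z := by
    rw [← Subspace.dual_finrank_eq (K := ZMod 2) (V := Z)]
    exact Submodule.finrank_le _
  have h3 : Module.finrank (ZMod 2) (LinearMap.ker Φ) ≤ Module.finrank (ZMod 2) (perp Z) := by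
    apply Submodule.finrank_mono
    intro f hf z hz
    have h4 := LinearMap.congr_fun (LinearMap.mem_ker.1 hf) (⟨z, hz⟩ : Z)
    exact h4
  omega

omit [DecidableEq G] in
theorem ga_even (u v r : G → ZMod 2) (Z : Submodule (ZMod 2) (G → ZMod 2))
    (huv : (fun c => ∑ a, u a * v (a⁻¹ * c)) ∈ Z) (hr : r ∈ perp Z) :
    ∑ a, ∑ b, u a * v b * r (a * b) = 0 := by
  have h1 : ∑ c, (∑ a, u a * v (a⁻¹ * c)) * r c = 0 := hr _ huv
  have h2 : ∑ c, (∑ a, u a * v (a⁻¹ * c)) * r c = ∑ a, ∑ c, u a * v (a⁻¹ * c) * r c := by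
    simp only [Finset.sum_mul]
    exact Finset.sum_comm
  rw [← h1, h2]
  refine Finset.sum_congr rfl fun a _ => ?_
  rw [← Equiv.sum_comp (Equiv.mulLeft a) (fun c => u a * v (a⁻¹ * c) * r c)]
  refine Finset.sum_congr rfl fun b _ => ?_
  simp

theorem ga_dvd (U V Z : Submodule (ZMod 2) (G → ZMod 2))
    (hUV : ∀ u ∈ U, ∀ v ∈ V, (fun c => ∑ a, u a * v (a⁻¹ * c)) ∈ Z) (q m : ℕ)
    (hm : m + q * ((Fintype.card G - Module.finrank (ZMod 2) U) +
      (Fintype.card G - Module.finrank (ZMod 2) V) + Module.finrank (ZMod 2) Z) +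
      3 * (Fintype.card G / 2 ^ q) ≤ Fintype.card G) : 2 ^ m ∣ N G := by
  classical
  obtain ⟨P', P, o₁, A, ho₁, hP, hA, hAU⟩ := adapted U
  obtain ⟨Q', Q, o₂, B, ho₂, hQ, hB, hBV⟩ := adapted V
  obtain ⟨R', R, o₃, D, ho₃, hR, hD, hDZ⟩ := adapted (perp Z)
  have hZ := finrank_perp Z
  refine abstract_dvd_odd P Q R
    (fun i j l => ∑ a' : G, ∑ b' : G, P' a' i * Q' b' j * R' (a' * b') l) (o₁ * o₂ * o₃)
    ((ho₁.mul ho₂).mul ho₃) ?_ A B D ?_ q m ?_
  · intro a b c
    exact tensor_id_odd P P' Q Q' R R' o₁ o₂ o₃ hP hQ hR a b c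
  · intro i j l
    by_cases hi : i ∈ A
    · exact Or.inl hi
    by_cases hj : j ∈ B
    · exact Or.inr (Or.inl hj)
    by_cases hl : l ∈ D
    · exact Or.inr (Or.inr (Or.inl hl))
    refine Or.inr (Or.inr (Or.inr ?_))
    have h0 := ZMod.intCast_zmod_eq_zero_iff_dvd
      (∑ a' : G, ∑ b' : G, P' a' i * Q' b' j * R' (a' * b') l) 2
    have h1 : (((∑ a' : G, ∑ b' : G, P' a' i * Q' b' j * R' (a' * b') l : ℤ)) : ZMod 2) = 0 := by
      push_cast
      have h2 := hUV (fun a => ((P' a i : ℤ) : ZMod 2)) (hAU i hi)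
        (fun a => ((Q' a j : ℤ) : ZMod 2)) (hBV j hj)
      exact ga_even (fun a => ((P' a i : ℤ) : ZMod 2)) (fun a => ((Q' a j : ℤ) : ZMod 2))
        (fun a => ((R' a l : ℤ) : ZMod 2)) Z h2 (hDZ l hl)
    exact_mod_cast h0.1 h1
  · have e1 : Fintype.card G - Module.finrank (ZMod 2) U = A.card := by omega
    have e2 : Fintype.card G - Module.finrank (ZMod 2) V = B.card := by omega
    have e3 : D.card ≤ Module.finrank (ZMod 2) Z := by omega
    rw [e1, e2] at hm
    have e4 : q * (A.card + B.card + D.card) ≤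
        q * (A.card + B.card + Module.finrank (ZMod 2) Z) :=
      Nat.mul_le_mul_left _ (by omega)
    omega

end

end Pool.Agent.MP210e22
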