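import Pool.Agent.Lib.MP_210e22_co.TA.GAlg

/-!
# The criterion for subspaces of the group algebra
-/

namespace Pool.Agent.MP210e22

open Finset

/-- The group algebra as the space of functions. -/
noncomputable def gaEquiv (G : Type) [Finite G] :
    MonoidAlgebra (ZMod 2) G ≃ₗ[ZMod 2] (G → ZMod 2) where
  toFun u g := u.coeff g
  map_add' u v := by
    funext g
    simp
  map_smul' k u := by
    funext g
    simp
  invFun f := MonoidAlgebra.ofCoeff (Finsupp.equivFunOnFinite.symm f)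
  left_inv u := by
    apply MonoidAlgebra.coeff_injective
    ext g
    simp
  right_inv f := by
    funext g
    simp

theorem group_algebra_dvd {G : Type} [Group G] [Finite G]
    (U V Z : Submodule (ZMod 2) (MonoidAlgebra (ZMod 2) G))
    (hUV : ∀ u ∈ U, ∀ v ∈ V, u * v ∈ Z) (q m : ℕ)
    (hm : m + q * ((Nat.card G - Module.finrank (ZMod 2) U) +
      (Nat.card G - Module.finrank (ZMod 2) V) + Module.finrank (ZMod 2) Z) +
      3 * (Nat.card G / 2 ^ q) ≤ Nat.card G) : 2 ^ m ∣ N G := by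
  classical
  haveI : Fintype G := Fintype.ofFinite G
  set E := gaEquiv G with hE
  have hfr : ∀ S : Submodule (ZMod 2) (MonoidAlgebra (ZMod 2) G),
      Module.finrank (ZMod 2) (S.map (E : MonoidAlgebra (ZMod 2) G →ₗ[ZMod 2] (G → ZMod 2))) =
      Module.finrank (ZMod 2) S := fun S => LinearEquiv.finrank_map_eq E S
  refine ga_dvd (U.map (E : MonoidAlgebra (ZMod 2) G →ₗ[ZMod 2] (G → ZMod 2)))
    (V.map (E : MonoidAlgebra (ZMod 2) G →ₗ[ZMod 2] (G → ZMod 2)))
    (Z.map (E : MonoidAlgebra (ZMod 2) G →ₗ[ZMod 2] (G → ZMod 2))) ?_ q m ?_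
  · rintro _ ⟨u, hu, rfl⟩ _ ⟨v, hv, rfl⟩
    refine ⟨u * v, hUV u hu v hv, ?_⟩
    funext c
    show (u * v).coeff c = ∑ a, u.coeff a * v.coeff (a⁻¹ * c)
    rw [MonoidAlgebra.coeff_mul_apply_left]
    exact Finsupp.sum_fintype _ _ (by intro i; simp)
  · rw [hfr, hfr, hfr, ← Nat.card_eq_fintype_card]
    exact hm

end Pool.Agent.MP210e22
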