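import Mathlib

/-!
# A pigeonhole argument over the field with two elements
-/

namespace Pool.Agent.MP210e22

open Finset

/-- The vectors supported in `S`. -/
def vecs {r : ℕ} (S : Finset (Fin r)) : Finset (Fin r → ZMod 2) :=
  Fintype.piFinset fun i => if i ∈ S then Finset.univ else {0}

theorem mem_vecs {r : ℕ} (S : Finset (Fin r)) (x : Fin r → ZMod 2) :
    x ∈ vecs S ↔ ∀ i ∉ S, x i = 0 := by
  unfold vecs
  rw [Fintype.mem_piFinset]
  constructor
  · intro h i hi
    have := h i
    rw [if_neg hi] at this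
    exact Finset.mem_singleton.1 this
  · intro h i
    by_cases hi : i ∈ S
    · rw [if_pos hi]
      exact Finset.mem_univ _
    · rw [if_neg hi]
      exact Finset.mem_singleton.2 (h i hi)

theorem card_vecs {r : ℕ} (S : Finset (Fin r)) : (vecs S).card = 2 ^ S.card := by
  unfold vecs
  rw [Fintype.card_piFinset]
  have h1 : ∀ i : Fin r, (if i ∈ S then (Finset.univ : Finset (ZMod 2)) else {0}).card =
      if i ∈ S then 2 else 1 := by
    intro i
    split_ifs
    · rfl
    · rfl
  rw [Finset.prod_congr rfl fun i _ => h1 i, Finset.prod_ite_mem, Finset.univ_inter,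
    Finset.prod_const]

theorem exists_kernel {r : ℕ} (S T U : Finset (Fin r)) (h : U.card < S.card + T.card)
    (ψ : (Fin r → ZMod 2) → (Fin r → ZMod 2)) (hψ : ∀ a b, ψ (a + b) = ψ a + ψ b) :
    ∃ x y : Fin r → ZMod 2, (x ≠ 0 ∨ y ≠ 0) ∧ (∀ i ∉ S, x i = 0) ∧ (∀ i ∉ T, y i = 0) ∧
      ∀ i ∈ U, ψ (x + y) i = 0 := by
  classical
  have hc : (vecs U).card < (vecs S ×ˢ vecs T).card := by
    rw [Finset.card_product, card_vecs, card_vecs, card_vecs, ← pow_add]
    exact Nat.pow_lt_pow_right (by norm_num) h
  obtain ⟨a, ha, b, hb, hab, he⟩ := Finset.exists_ne_map_eq_of_card_lt_of_maps_to hc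
    (f := fun z i => if i ∈ U then ψ (z.1 + z.2) i else 0) (by
      intro z _
      rw [Finset.mem_coe, mem_vecs]
      intro i hi
      exact if_neg hi)
  rw [Finset.mem_product, mem_vecs, mem_vecs] at ha hb
  have hneg : ∀ v : Fin r → ZMod 2, v + v = 0 := by
    intro v
    funext i
    exact CharTwo.add_self_eq_zero (v i)
  have hψ0 : ψ 0 = 0 := by
    have := hψ 0 0
    rw [add_zero] at this
    exact left_eq_add.1 this
  refine ⟨a.1 + b.1, a.2 + b.2, ?_, ?_, ?_, ?_⟩
  · by_contra hcon
    push Not at hcon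
    apply hab
    have e1 : a.1 = b.1 := by
      have := congrArg (· + b.1) hcon.1
      simp only [add_assoc, hneg, add_zero, zero_add] at this
      exact this
    have e2 : a.2 = b.2 := by
      have := congrArg (· + b.2) hcon.2
      simp only [add_assoc, hneg, add_zero, zero_add] at this
      exact this
    exact Prod.ext e1 e2
  · intro i hi
    rw [Pi.add_apply, ha.1 i hi, hb.1 i hi, add_zero]
  · intro i hi
    rw [Pi.add_apply, ha.2 i hi, hb.2 i hi, add_zero]
  · intro i hi
    have h1 := congrFun he i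
    simp only [if_pos hi] at h1
    have h2 : a.1 + b.1 + (a.2 + b.2) = (a.1 + a.2) + (b.1 + b.2) := by abel
    rw [h2, hψ, Pi.add_apply, h1]
    exact CharTwo.add_self_eq_zero _

end Pool.Agent.MP210e22
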