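import Pool.Agent.Lib.MP_210e22_co.TA.Basis
import Pool.Agent.Lib.MP_210e22_co.TA.Kernel

/-!
# Coordinates on a group with a normal elementary abelian subgroup, and the parity of the
structure constants
-/

namespace Pool.Agent.MP210e22

open Finset

section

variable {G : Type} [Group G] (H : Subgroup G) [H.Normal] {r : ℕ} (φ : H → (Fin r → ZMod 2))

/-- The chosen element of the coset of `a`. -/
noncomputable def rep (u : G ⧸ H) : G := Quotient.out u

omit [H.Normal] in
theorem mk_rep (u : G ⧸ H) : ((rep H u : G) : G ⧸ H) = u := QuotientGroup.out_eq' u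

omit [H.Normal] in
theorem lam_mem (a : G) : (rep H (a : G ⧸ H))⁻¹ * a ∈ H :=
  QuotientGroup.eq.1 (mk_rep H (a : G ⧸ H))

theorem rho_mem (b : G) : b * (rep H (b : G ⧸ H))⁻¹ ∈ H :=
  (inferInstance : H.Normal).mem_comm (lam_mem H b)

/-- Left coordinates. -/
noncomputable def lam (a : G) : (G ⧸ H) × (Fin r → ZMod 2) :=
  ((a : G ⧸ H), φ ⟨(rep H (a : G ⧸ H))⁻¹ * a, lam_mem H a⟩)

/-- Right coordinates. -/
noncomputable def rho (b : G) : (G ⧸ H) × (Fin r → ZMod 2) :=
  ((b : G ⧸ H), φ ⟨b * (rep H (b : G ⧸ H))⁻¹, rho_mem H b⟩)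

omit [H.Normal] in
theorem lam_injective (hφ : Function.Injective φ) : Function.Injective (lam H φ) := by
  intro a b hab
  unfold lam at hab
  rw [Prod.mk.injEq] at hab
  have h1 := hφ hab.2
  rw [Subtype.mk.injEq, hab.1] at h1
  exact mul_left_cancel h1

theorem rho_injective (hφ : Function.Injective φ) : Function.Injective (rho H φ) := by
  intro a b hab
  unfold rho at hab
  rw [Prod.mk.injEq] at hab
  have h1 := hφ hab.2
  rw [Subtype.mk.injEq, hab.1] at h1
  exact mul_right_cancel h1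

omit [H.Normal] in
theorem mk_mul_mem (a : G) (k : H) : ((a * (k : G) : G) : G ⧸ H) = (a : G ⧸ H) := by
  rw [QuotientGroup.mk_mul_of_mem a k.2]

theorem mk_mem_mul (b : G) (k : H) : (((k : G) * b : G) : G ⧸ H) = (b : G ⧸ H) := by
  rw [QuotientGroup.mk_mul, (QuotientGroup.eq_one_iff (k : G)).2 k.2, one_mul]

omit [H.Normal] in
theorem lam_mul (hφ : ∀ a b, φ (a * b) = φ a + φ b) (a : G) (k : H) :
    lam H φ (a * k) = ((lam H φ a).1, (lam H φ a).2 + φ k) := by
  unfold lam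
  simp only
  rw [Prod.mk.injEq]
  refine ⟨mk_mul_mem H a k, ?_⟩
  rw [← hφ]
  congr 1
  apply Subtype.ext
  simp only [Subgroup.coe_mul]
  rw [mk_mul_mem, mul_assoc]

theorem rho_mul (hφ : ∀ a b, φ (a * b) = φ a + φ b) (b : G) (k : H) :
    rho H φ (k * b) = ((rho H φ b).1, (rho H φ b).2 + φ k) := by
  unfold rho
  simp only
  rw [Prod.mk.injEq]
  refine ⟨mk_mem_mul H b k, ?_⟩
  rw [add_comm, ← hφ]
  congr 1
  apply Subtype.ext
  simp only [Subgroup.coe_mul]
  rw [mk_mem_mul, mul_assoc]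

variable [Fintype G]

/-- The structure constants. -/
noncomputable def cc [DecidableEq (G ⧸ H)] (i j l : (G ⧸ H) × Finset (Fin r)) : ℤ :=
  ∑ a : G, ∑ b : G, P1 (lam H φ a) i * P1 (rho H φ b) j * P0 (lam H φ (a * b)) l

theorem cc_even [DecidableEq (G ⧸ H)] (hφ : ∀ a b, φ (a * b) = φ a + φ b)
    (hb : Function.Bijective φ) (hcomm : ∀ a b : H, a * b = b * a)
    (i j l : (G ⧸ H) × Finset (Fin r))
    (h : l.2.card < i.2.card + j.2.card) : (2 : ℤ) ∣ cc H φ i j l := by
  classical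
  have h0 : (2 : ℤ) ∣ cc H φ i j l ↔ ((cc H φ i j l : ℤ) : ZMod 2) = 0 := by
    have := ZMod.intCast_zmod_eq_zero_iff_dvd (cc H φ i j l) 2
    exact_mod_cast this.symm
  rw [h0]
  set t := rep H j.1 with ht
  -- conjugation by `t`
  have hconj : ∀ k : H, t⁻¹ * (k : G) * t ∈ H := by
    intro k
    have := (inferInstance : H.Normal).conj_mem (k : G) k.2 t⁻¹
    rwa [inv_inv] at this
  let e : H ≃ (Fin r → ZMod 2) := Equiv.ofBijective φ hb
  have heφ : ∀ x, φ (e.symm x) = x := fun x => e.apply_symm_apply x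
  let ψ : (Fin r → ZMod 2) → (Fin r → ZMod 2) := fun x => φ ⟨t⁻¹ * (e.symm x : G) * t, hconj _⟩
  have hesymm : ∀ x y, e.symm (x + y) = e.symm x * e.symm y := by
    intro x y
    apply hb.1
    rw [hφ, heφ, heφ, heφ]
  have hψ : ∀ x y, ψ (x + y) = ψ x + ψ y := by
    intro x y
    show φ _ = φ _ + φ _
    rw [← hφ]
    congr 1
    apply Subtype.ext
    simp only [Subgroup.coe_mul, hesymm]
    group
  obtain ⟨x, y, hxy, hx, hy, hU⟩ := exists_kernel i.2 j.2 l.2 h ψ hψ
  set k₁ : H := e.symm x with hk₁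
  set k₂ : H := e.symm y with hk₂
  have hφ1 : φ 1 = 0 := by
    have := hφ 1 1
    rw [mul_one] at this
    exact left_eq_add.1 this
  have hsq : ∀ k : H, k * k = 1 := by
    intro k
    apply hb.1
    rw [hφ, hφ1]
    funext i
    exact CharTwo.add_self_eq_zero _
  have hsqG : ∀ k : H, (k : G) * (k : G) = 1 := by
    intro k
    have := congrArg (fun z : H => (z : G)) (hsq k)
    simpa using this
  -- the three factors are invariant
  have hf1 : ∀ a, ((P1 (lam H φ (a * k₁)) i : ℤ) : ZMod 2) = ((P1 (lam H φ a) i : ℤ) : ZMod 2) := by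
    intro a
    rw [lam_mul H φ hφ]
    apply P1_shift
    intro p hp
    rw [hk₁, heφ]
    exact hx p hp
  have hf2 : ∀ b, ((P1 (rho H φ (k₂ * b)) j : ℤ) : ZMod 2) = ((P1 (rho H φ b) j : ℤ) : ZMod 2) := by
    intro b
    rw [rho_mul H φ hφ]
    apply P1_shift
    intro p hp
    rw [hk₂, heφ]
    exact hy p hp
  have hf3 : ∀ a b : G, ((b : G) : G ⧸ H) = j.1 →
      P0 (lam H φ (a * k₁ * (k₂ * b))) l = P0 (lam H φ (a * b)) l := by
    intro a b hbj
    -- `b = h₀ * t`
    have hh : b * t⁻¹ ∈ H := by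
      have := rho_mem H b
      rwa [hbj] at this
    set h₀ : H := ⟨b * t⁻¹, hh⟩ with hh₀
    have hbe : b = (h₀ : G) * t := by simp [hh₀]
    have hκ : b⁻¹ * ((k₁ * k₂ : H) : G) * b = t⁻¹ * ((k₁ * k₂ : H) : G) * t := by
      have h1 : (h₀ : G)⁻¹ * ((k₁ * k₂ : H) : G) * (h₀ : G) = ((k₁ * k₂ : H) : G) := by
        have h2 := congrArg (fun z : H => (z : G)) (hcomm (k₁ * k₂) h₀)
        simp only [Subgroup.coe_mul] at h2 ⊢
        rw [mul_assoc, h2]
        group
      rw [hbe, mul_inv_rev]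
      calc t⁻¹ * (h₀ : G)⁻¹ * ((k₁ * k₂ : H) : G) * ((h₀ : G) * t)
          = t⁻¹ * ((h₀ : G)⁻¹ * ((k₁ * k₂ : H) : G) * (h₀ : G)) * t := by group
        _ = _ := by rw [h1]
    have hprod : a * k₁ * (k₂ * b) =
        a * b * ((⟨t⁻¹ * ((k₁ * k₂ : H) : G) * t, hconj _⟩ : H) : G) := by
      simp only
      rw [← hκ]
      simp only [Subgroup.coe_mul]
      group
    rw [hprod, lam_mul H φ hφ]
    apply P0_shift
    intro p hp
    have h3 := hU p hp
    have h4 : ψ (x + y) = φ ⟨t⁻¹ * ((k₁ * k₂ : H) : G) * t, hconj _⟩ := by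
      show φ _ = φ _
      congr 1
      apply Subtype.ext
      simp only [hesymm, hk₁, hk₂]
    rw [← h4]
    exact h3
  unfold cc
  rw [← Finset.sum_product' Finset.univ Finset.univ
    (fun a b : G => P1 (lam H φ a) i * P1 (rho H φ b) j * P0 (lam H φ (a * b)) l)]
  push_cast
  refine Finset.sum_involution (fun z _ => (z.1 * (k₁ : G), (k₂ : G) * z.2)) ?_ ?_ ?_ ?_
  · rintro ⟨a, b⟩ _
    simp only
    by_cases hbj : ((b : G) : G ⧸ H) = j.1
    · rw [hf3 a b hbj, hf1 a, hf2 b]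
      exact CharTwo.add_self_eq_zero _
    · have hz1 : P1 (rho H φ b) j = 0 := by
        unfold P1
        exact if_neg hbj
      have hz2 : P1 (rho H φ (k₂ * b)) j = 0 := by
        unfold P1
        apply if_neg
        rw [rho_mul H φ hφ]
        exact hbj
      rw [hz1, hz2]
      simp
  · rintro ⟨a, b⟩ _ _ heq
    simp only [Prod.mk.injEq] at heq
    have e1 : (k₁ : G) = 1 := mul_eq_left.1 heq.1
    have e2 : (k₂ : G) = 1 := mul_eq_right.1 heq.2
    have e1' : k₁ = 1 := Subtype.ext e1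
    have e2' : k₂ = 1 := Subtype.ext e2
    rcases hxy with hne | hne
    · apply hne
      rw [← heφ x, ← hk₁, e1', hφ1]
    · apply hne
      rw [← heφ y, ← hk₂, e2', hφ1]
  · intro z _
    exact Finset.mem_univ _
  · rintro ⟨a, b⟩ _
    simp only [Prod.mk.injEq]
    refine ⟨?_, ?_⟩
    · rw [mul_assoc, hsqG, mul_one]
    · rw [← mul_assoc, hsqG, one_mul]

end

end Pool.Agent.MP210e22
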