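import Pool.Agent.Lib.MP_210e22_co.TA.Abs
import Pool.Agent.Lib.MP_210e22_co.TA.Parity
import Pool.Agent.Lib.MP_210e22_co.TA.Coord

/-!
# Divisibility of the number of transversals for groups with a normal elementary abelian subgroup
-/

namespace Pool.Agent.MP210e22

open Finset

theorem tensor_id {G I : Type} [Group G] [Fintype G] [DecidableEq G] [Fintype I]
    (P P' Q Q' R R' : G → I → ℤ)
    (hP : ∀ a a', ∑ i, P a i * P' a' i = if a = a' then 1 else 0)
    (hQ : ∀ a a', ∑ i, Q a i * Q' a' i = if a = a' then 1 else 0)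
    (hR : ∀ a a', ∑ i, R a i * R' a' i = if a = a' then 1 else 0) (a b c : G) :
    ∑ y : I × I × I, P a y.1 * Q b y.2.1 * R c y.2.2 *
      (∑ a' : G, ∑ b' : G, P' a' y.1 * Q' b' y.2.1 * R' (a' * b') y.2.2) =
      if a * b = c then 1 else 0 := by
  have h1 : ∀ a' b' : G, ∑ y : I × I × I, P a y.1 * Q b y.2.1 * R c y.2.2 *
      (P' a' y.1 * Q' b' y.2.1 * R' (a' * b') y.2.2) =
      (if a = a' then 1 else 0) * (if b = b' then 1 else 0) * (if c = a' * b' then 1 else 0) := by
    intro a' b'
    rw [← hP, ← hQ, ← hR, Fintype.sum_prod_type]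
    rw [Finset.sum_mul_sum, Finset.sum_mul]
    refine Finset.sum_congr rfl fun i _ => ?_
    rw [Fintype.sum_prod_type, Finset.sum_mul]
    refine Finset.sum_congr rfl fun j _ => ?_
    rw [Finset.mul_sum]
    refine Finset.sum_congr rfl fun l _ => ?_
    ring
  simp_rw [Finset.mul_sum]
  rw [Finset.sum_comm]
  have h2 : ∀ a' : G, ∑ y : I × I × I, ∑ b' : G, P a y.1 * Q b y.2.1 * R c y.2.2 *
      (P' a' y.1 * Q' b' y.2.1 * R' (a' * b') y.2.2) =
      ∑ b' : G, (if a = a' then (1 : ℤ) else 0) * (if b = b' then 1 else 0) *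
        (if c = a' * b' then 1 else 0) := by
    intro a'
    rw [Finset.sum_comm]
    exact Finset.sum_congr rfl fun b' _ => h1 a' b'
  rw [Finset.sum_congr rfl fun a' _ => h2 a']
  rw [Finset.sum_eq_single a, Finset.sum_eq_single b]
  · simp only [if_true, one_mul]
    simp only [eq_comm]
  · intro b' _ hb'
    rw [if_neg (Ne.symm hb')]
    simp
  · intro h
    exact absurd (Finset.mem_univ _) h
  · intro a' _ ha'
    refine Finset.sum_eq_zero fun b' _ => ?_
    rw [if_neg (Ne.symm ha')]
    simp
  · intro h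
    exact absurd (Finset.mem_univ _) h

theorem card_hub {Q : Type} [Fintype Q] (r : ℕ) (J : Finset ℕ) :
    (Finset.univ.filter fun y : Q × Finset (Fin r) => y.2.card ∈ J).card =
      Fintype.card Q * ∑ j ∈ J, r.choose j := by
  classical
  have h1 : (Finset.univ.filter fun y : Q × Finset (Fin r) => y.2.card ∈ J) =
      Finset.univ ×ˢ (Finset.univ.filter fun S : Finset (Fin r) => S.card ∈ J) := by
    ext y
    simp
  rw [h1, Finset.card_product, Finset.card_univ]
  congr 1
  rw [Finset.card_eq_sum_card_fiberwise (f := fun S : Finset (Fin r) => S.card) (t := J)]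
  · refine Finset.sum_congr rfl fun j hj => ?_
    rw [Finset.filter_filter]
    have h2 : (Finset.univ.filter fun S : Finset (Fin r) => S.card ∈ J ∧ S.card = j) =
        Finset.powersetCard j Finset.univ := by
      ext S
      rw [Finset.mem_powersetCard, Finset.mem_filter]
      constructor
      · rintro ⟨_, _, h⟩
        exact ⟨Finset.subset_univ _, h⟩
      · rintro ⟨_, h⟩
        exact ⟨Finset.mem_univ _, by rw [h]; exact hj, h⟩
    rw [h2, Finset.card_powersetCard, Finset.card_univ, Fintype.card_fin]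
  · intro S hS
    simpa using hS

/-- The main divisibility theorem. -/
theorem grp_dvd {G : Type} [Group G] [Finite G] (H : Subgroup G) [H.Normal] (r : ℕ)
    (hr : Nat.card H = 2 ^ r) (hsq : ∀ h ∈ H, h ^ 2 = 1) (s t q m : ℕ)
    (hm : m + q * (H.index * (∑ j ∈ Finset.range s, r.choose j + ∑ j ∈ Finset.range t, r.choose j +
      ∑ j ∈ Finset.Ico (s + t) (r + 1), r.choose j)) + 3 * (Nat.card G / 2 ^ q) ≤ Nat.card G) :
    2 ^ m ∣ N G := by
  classical
  haveI : Fintype G := Fintype.ofFinite G
  haveI : Fintype (G ⧸ H) := Fintype.ofFinite _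
  have hsq' : ∀ a : H, a ^ 2 = 1 := by
    intro a
    apply Subtype.ext
    simpa using hsq a a.2
  obtain ⟨φ, hφ, hb⟩ := exists_coord hsq' r hr
  have hl := lam_injective H φ hb.1
  have hρ := rho_injective H φ hb.1
  refine abstract_dvd (I := (G ⧸ H) × Finset (Fin r)) (J := (G ⧸ H) × Finset (Fin r))
    (L := (G ⧸ H) × Finset (Fin r))
    (fun a i => P0 (lam H φ a) i) (fun b j => P0 (rho H φ b) j) (fun c l => P1 (lam H φ c) l)
    (fun i j l => cc H φ i j l) ?_
    (Finset.univ.filter fun y => y.2.card ∈ Finset.range s)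
    (Finset.univ.filter fun y => y.2.card ∈ Finset.range t)
    (Finset.univ.filter fun y => y.2.card ∈ Finset.Ico (s + t) (r + 1)) ?_ q m ?_
  · intro a b c
    refine tensor_id (fun a i => P0 (lam H φ a) i) (fun a i => P1 (lam H φ a) i)
      (fun b j => P0 (rho H φ b) j) (fun b j => P1 (rho H φ b) j)
      (fun c l => P1 (lam H φ c) l) (fun c l => P0 (lam H φ c) l) ?_ ?_ ?_ a b c
    · intro a a'
      rw [dual]
      simp only [hl.eq_iff]
    · intro a a'
      rw [dual]
      simp only [hρ.eq_iff]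
    · intro a a'
      rw [dual']
      simp only [hl.eq_iff]
  · intro i j l
    by_cases h1 : i.2.card < s
    · exact Or.inl (Finset.mem_filter.2 ⟨Finset.mem_univ _, Finset.mem_range.2 h1⟩)
    by_cases h2 : j.2.card < t
    · exact Or.inr (Or.inl (Finset.mem_filter.2 ⟨Finset.mem_univ _, Finset.mem_range.2 h2⟩))
    by_cases h3 : s + t ≤ l.2.card
    · refine Or.inr (Or.inr (Or.inl (Finset.mem_filter.2 ⟨Finset.mem_univ _,
        Finset.mem_Ico.2 ⟨h3, ?_⟩⟩)))
      have := Finset.card_le_univ l.2
      rw [Fintype.card_fin] at this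
      omega
    · refine Or.inr (Or.inr (Or.inr ?_))
      apply cc_even H φ hφ hb (comm_of_sq hsq')
      omega
  · have hi : Fintype.card (G ⧸ H) = H.index := by
      rw [← Nat.card_eq_fintype_card]
      rfl
    rw [card_hub, card_hub, card_hub, ← mul_add, ← mul_add, hi, ← Nat.card_eq_fintype_card]
    exact hm

end Pool.Agent.MP210e22
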