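import Pool.Agent.Lib.MP_210e22_co.TA.MaxAb

/-!
# Elementary abelian subgroups of a 2-group and its normal elementary abelian subgroups
-/

namespace Pool.Agent.MP210e22

/-- The number of homomorphisms from a finite abelian 2-group of rank at most `r`. -/
theorem card_hom_le {A C : Type} [CommGroup A] [Finite A] [CommGroup C] [Finite C] (k : ℕ)
    (hk : Nat.card A = 2 ^ k) (r : ℕ) (hr : Nat.card {a : A // a ^ 2 = 1} ≤ 2 ^ r) :
    Nat.card (A →* C) ≤ Nat.card C ^ r := by
  classical
  obtain ⟨ι, _, n, hn1, ⟨E⟩⟩ := CommGroup.equiv_prod_multiplicative_zmod_of_finite A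
  have hcardA : Nat.card A = ∏ i, n i := by
    rw [Nat.card_congr E.toEquiv, Nat.card_pi]
    refine Finset.prod_congr rfl fun i _ => ?_
    exact (Nat.card_congr Multiplicative.toAdd).trans (Nat.card_zmod (n i))
  have hdvd : ∀ i, n i ∣ 2 ^ k := by
    intro i
    rw [← hk, hcardA]
    exact Finset.dvd_prod_of_mem _ (Finset.mem_univ i)
  have heven : ∀ i, 2 ∣ n i := by
    intro i
    obtain ⟨j, _, hj⟩ := (Nat.dvd_prime_pow Nat.prime_two).1 (hdvd i)
    have h1 := hn1 i
    rcases Nat.eq_zero_or_pos j with h0 | h0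
    · rw [h0, pow_zero] at hj
      omega
    · rw [hj]
      exact dvd_pow_self 2 h0.ne'
  let τ : (i : ι) → Multiplicative (ZMod (n i)) := fun i =>
    Multiplicative.ofAdd (((n i / 2 : ℕ) : ZMod (n i)))
  have hτ2 : ∀ i, τ i ^ 2 = 1 := by
    intro i
    show Multiplicative.ofAdd (((n i / 2 : ℕ) : ZMod (n i))) ^ 2 = 1
    rw [← ofAdd_nsmul, nsmul_eq_mul, ← Nat.cast_mul, Nat.mul_div_cancel' (heven i),
      ZMod.natCast_self, ofAdd_zero]
  have hτ1 : ∀ i, τ i ≠ 1 := by
    intro i h
    have h1 : (((n i / 2 : ℕ) : ZMod (n i))) = 0 := by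
      have := congrArg Multiplicative.toAdd h
      simpa [τ] using this
    rw [ZMod.natCast_eq_zero_iff] at h1
    have h2 := hn1 i
    have h3 := Nat.le_of_dvd (by omega) h1
    omega
  have hι : Fintype.card ι ≤ r := by
    have h1 : Nat.card (ι → Bool) ≤ Nat.card {a : A // a ^ 2 = 1} := by
      refine Nat.card_le_card_of_injective
        (fun ε => ⟨E.symm (fun i => if ε i then τ i else 1), ?_⟩) ?_
      · rw [← map_pow]
        have h2 : (fun i => if ε i = true then τ i else 1) ^ 2 = 1 := by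
          funext i
          rw [Pi.pow_apply]
          split_ifs
          · exact hτ2 i
          · exact one_pow 2
        rw [h2, map_one]
      · intro ε ε' h
        simp only [Subtype.mk.injEq, EmbeddingLike.apply_eq_iff_eq] at h
        funext i
        have h2 := congrFun h i
        have h3 := hτ1 i
        cases h4 : ε i <;> cases h5 : ε' i <;> simp [h4, h5] at h2 ⊢
        · exact h3 h2.symm
        · exact h3 h2
    have h6 := h1.trans hr
    rw [Nat.card_eq_fintype_card, Fintype.card_fun, Fintype.card_bool] at h6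
    exact (Nat.pow_le_pow_iff_right (by norm_num)).1 h6
  have h2 : Nat.card (A →* C) ≤ Nat.card (ι → C) := by
    refine Nat.card_le_card_of_injective
      (fun f i => f (E.symm (Pi.mulSingle i (Multiplicative.ofAdd (1 : ZMod (n i)))))) ?_
    intro f g hfg
    -- `f` and `g` agree on the elements of one factor
    have h4 : ∀ i (x : Multiplicative (ZMod (n i))),
        f (E.symm (Pi.mulSingle i x)) = g (E.symm (Pi.mulSingle i x)) := by
      intro i x
      have h4 := congrFun hfg i
      simp only at h4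
      have h5 : x = (Multiplicative.ofAdd (1 : ZMod (n i))) ^ (Multiplicative.toAdd x).val := by
        have hne : NeZero (n i) := ⟨by have := hn1 i; omega⟩
        rw [← ofAdd_nsmul, nsmul_eq_mul, mul_one, ZMod.natCast_zmod_val, ofAdd_toAdd]
      rw [h5, Pi.mulSingle_pow, map_pow, map_pow, map_pow, h4]
    have h3 : (f.comp E.symm.toMonoidHom) = (g.comp E.symm.toMonoidHom) := by
      apply MonoidHom.functions_ext
      intro i x
      exact h4 i x
    ext a
    have h6 := DFunLike.congr_fun h3 (E a)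
    simpa using h6
  rw [show Nat.card (ι → C) = Nat.card C ^ Fintype.card ι by
    rw [Nat.card_pi, Finset.prod_const, Finset.card_univ]] at h2
  exact h2.trans (Nat.pow_le_pow_right Nat.card_pos hι)

theorem card_le_mul {G Y : Type} [Group G] [Finite G] [Finite Y] (K K' : Subgroup G) (f : K → Y)
    (h : ∀ x y : K, f x = f y → (y : G)⁻¹ * (x : G) ∈ K') :
    Nat.card K ≤ Nat.card K' * Nat.card Y := by
  classical
  haveI : Fintype G := Fintype.ofFinite G
  haveI : Fintype K := Fintype.ofFinite K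
  haveI : Fintype K' := Fintype.ofFinite K'
  haveI : Fintype Y := Fintype.ofFinite Y
  rw [Nat.card_eq_fintype_card, Nat.card_eq_fintype_card, Nat.card_eq_fintype_card]
  have h1 : ∀ a ∈ (Finset.univ : Finset K).image f,
      (Finset.univ.filter fun x : K => f x = a).card ≤ Fintype.card K' := by
    intro a ha
    rw [Finset.mem_image] at ha
    obtain ⟨x₀, _, rfl⟩ := ha
    rw [← Finset.card_univ (α := K')]
    refine Finset.card_le_card_of_injOn
      (fun x => if hx : f x = f x₀ then (⟨(x₀ : G)⁻¹ * (x : G), h x x₀ hx⟩ : K') else 1) ?_ ?_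
    · intro x _
      exact Finset.mem_coe.2 (Finset.mem_univ _)
    · intro x hx y hy hxy
      have hx' : f x = f x₀ := (Finset.mem_filter.1 (Finset.mem_coe.1 hx)).2
      have hy' : f y = f x₀ := (Finset.mem_filter.1 (Finset.mem_coe.1 hy)).2
      simp only [dif_pos hx', dif_pos hy', Subtype.mk.injEq] at hxy
      exact Subtype.ext (mul_left_cancel hxy)
  have h2 := Finset.card_le_mul_card_image (f := f) (Finset.univ : Finset K) (Fintype.card K') h1
  rw [Finset.card_univ] at h2
  exact h2.trans (Nat.mul_le_mul_left _ (Finset.card_le_univ _))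

section

open scoped IsMulCommutative

variable {G : Type} [Group G] [Finite G] (A : Subgroup G) [hN : A.Normal] [IsMulCommutative A]

/-- The elements of `A` whose order divides `j`. -/
def tor (j : ℕ) : Subgroup A := (powMonoidHom j : A →* A).ker

omit [Finite G] hN in
theorem mem_tor (j : ℕ) (a : A) : a ∈ tor A j ↔ a ^ j = 1 := Iff.rfl

/-- The commutator with `x` as a homomorphism. -/
def commHom (x : G) (B C : Subgroup A)
    (hx : ∀ a : A, a ∈ B → (⟨x * (a : G) * x⁻¹, hN.conj_mem _ a.2 x⟩ : A) * a⁻¹ ∈ C) :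
    B →* C where
  toFun a := ⟨(⟨x * ((a : A) : G) * x⁻¹, hN.conj_mem _ (a : A).2 x⟩ : A) * (a : A)⁻¹,
    hx (a : A) a.2⟩
  map_one' := by
    apply Subtype.ext
    apply Subtype.ext
    simp
  map_mul' a b := by
    apply Subtype.ext
    apply Subtype.ext
    simp only [Subgroup.coe_mul, Subgroup.coe_inv]
    have h1 : ∀ u v : A, (u : G) * (v : G) = (v : G) * (u : G) := fun u v => by
      have := congrArg (fun z : A => (z : G)) (mul_comm u v)
      simpa using this
    have h2 := h1 ⟨x * ((b : A) : G) * x⁻¹, hN.conj_mem _ (b : A).2 x⟩ ((a : A)⁻¹)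
    have h3 := h1 ((a : A)⁻¹) ((b : A)⁻¹)
    simp only [Subgroup.coe_inv] at h2 h3
    rw [mul_inv_rev, ← h3]
    calc x * (((a : A) : G) * ((b : A) : G)) * x⁻¹ * (((a : A) : G)⁻¹ * ((b : A) : G)⁻¹)
        = x * ((a : A) : G) * x⁻¹ * ((x * ((b : A) : G) * x⁻¹) * ((a : A) : G)⁻¹) *
          ((b : A) : G)⁻¹ := by group
      _ = x * ((a : A) : G) * x⁻¹ * (((a : A) : G)⁻¹ * (x * ((b : A) : G) * x⁻¹)) *
          ((b : A) : G)⁻¹ := by rw [h2]
      _ = _ := by group

theorem level (K K' : Subgroup G) (B C : Subgroup A) (n : ℕ) (hn : Nat.card (B →* C) ≤ n)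
    (h2 : ∀ x ∈ K, ∀ a : A, a ∈ B →
      (⟨x * (a : G) * x⁻¹, hN.conj_mem _ a.2 x⟩ : A) * a⁻¹ ∈ C)
    (hK' : ∀ z ∈ K, (∀ a : A, a ∈ B → z * (a : G) = (a : G) * z) → z ∈ K') :
    Nat.card K ≤ Nat.card K' * n := by
  haveI : Finite (B →* C) := DFunLike.finite _
  refine (card_le_mul K K' (fun x : K => commHom A (x : G) B C (h2 x x.2)) ?_).trans
    (Nat.mul_le_mul_left _ hn)
  intro x y hxy
  apply hK' _ (K.mul_mem (K.inv_mem y.2) x.2)
  intro a ha
  have h3 := DFunLike.congr_fun hxy (⟨a, ha⟩ : B)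
  have h4 : (x : G) * (a : G) * (x : G)⁻¹ * (a : G)⁻¹ =
      (y : G) * (a : G) * (y : G)⁻¹ * (a : G)⁻¹ :=
    congrArg (fun z : C => ((z : A) : G)) h3
  have h5 : (x : G) * (a : G) * (x : G)⁻¹ = (y : G) * (a : G) * (y : G)⁻¹ :=
    mul_right_cancel h4
  calc (y : G)⁻¹ * (x : G) * (a : G) = (y : G)⁻¹ * ((x : G) * (a : G) * (x : G)⁻¹) * (x : G) := by
        group
    _ = (y : G)⁻¹ * ((y : G) * (a : G) * (y : G)⁻¹) * (x : G) := by rw [h5]
    _ = _ := by group

/-- Conjugation by `x` as an endomorphism of `A`. -/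
def cj (x : G) (a : A) : A := ⟨x * (a : G) * x⁻¹, hN.conj_mem _ a.2 x⟩

omit [Finite G] [IsMulCommutative A] in
theorem cj_mul (x : G) (a b : A) : cj A x (a * b) = cj A x a * cj A x b := by
  apply Subtype.ext
  simp [cj, mul_assoc]

omit [Finite G] [IsMulCommutative A] in
theorem cj_inv (x : G) (a : A) : cj A x a⁻¹ = (cj A x a)⁻¹ := by
  apply Subtype.ext
  simp [cj, mul_assoc]

omit [Finite G] [IsMulCommutative A] in
theorem cj_pow (x : G) (a : A) (j : ℕ) : cj A x (a ^ j) = (cj A x a) ^ j := by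
  apply Subtype.ext
  simp only [cj, Subgroup.coe_pow]
  rw [conj_pow]

omit [Finite G] [IsMulCommutative A] in
theorem cj_sq (x : G) (a : A) : cj A (x ^ 2) a = cj A x (cj A x a) := by
  apply Subtype.ext
  simp only [cj, pow_two]
  group

omit [Finite G] in
/-- If `x` centralizes the elements of order at most four of `A` and the commutators of `x ^ 2`
with `A` have order dividing `2 ^ m`, then those of `x` have order dividing `2 ^ (m + 1)`. -/
theorem comm_pow_step (x : G) (h4 : ∀ a : A, a ^ 4 = 1 → cj A x a = a) (m : ℕ)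
    (h : ∀ a : A, (cj A (x ^ 2) a * a⁻¹) ^ (2 ^ m) = 1) (j : ℕ) :
    ∀ a : A, a ^ (2 ^ j) = 1 → (cj A x a * a⁻¹) ^ (2 ^ (m + 1)) = 1 := by
  induction j with
  | zero =>
    intro a ha
    have h1 : a = 1 := by simpa using ha
    have h2 : cj A x 1 = 1 := by
      apply Subtype.ext
      simp [cj]
    rw [h1, h2]
    simp
  | succ j ih =>
    intro a ha
    set b : A := (cj A x a * a⁻¹) ^ (2 ^ m) with hb
    have h1 : b ^ 4 = 1 := by
      have h2 := ih (a ^ 2) (by rw [← pow_mul, ← pow_succ']; exact ha)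
      have h3 : cj A x (a ^ 2) * (a ^ 2)⁻¹ = (cj A x a * a⁻¹) ^ 2 := by
        rw [cj_pow, mul_pow, inv_pow]
      rw [h3, ← pow_mul] at h2
      rw [hb, ← pow_mul, ← h2]
      congr 1
      rw [pow_succ]
      ring
    have h2 := h4 b h1
    have h3 : cj A x b * b = 1 := by
      have h5 := h a
      have h6 : cj A (x ^ 2) a * a⁻¹ = cj A x (cj A x a * a⁻¹) * (cj A x a * a⁻¹) := by
        rw [cj_sq, cj_mul, cj_inv]
        group
      rw [h6, mul_pow, ← cj_pow, ← hb] at h5
      exact h5
    rw [h2] at h3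
    rw [pow_succ, pow_mul, ← hb, pow_two]
    exact h3

/-- If `x ^ (2 ^ d) = 1` and `x` centralizes the elements of order at most four of `A`, then the
commutators of `x` with `A` have order dividing `2 ^ d`. -/
theorem comm_pow (k : ℕ) (hkA : Nat.card A = 2 ^ k) (d : ℕ) :
    ∀ x : G, x ^ (2 ^ d) = 1 → (∀ a : A, a ^ 4 = 1 → cj A x a = a) →
      ∀ a : A, (cj A x a * a⁻¹) ^ (2 ^ d) = 1 := by
  induction d with
  | zero =>
    intro x hx _ a
    have h1 : x = 1 := by simpa using hx
    have h2 : cj A 1 a = a := by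
      apply Subtype.ext
      simp [cj]
    rw [h1, h2]
    simp
  | succ d ih =>
    intro x hx h4 a
    have h1 : ∀ a : A, (cj A (x ^ 2) a * a⁻¹) ^ (2 ^ d) = 1 := by
      apply ih
      · rw [← pow_mul, ← pow_succ']
        exact hx
      · intro b hb
        rw [cj_sq, h4 b hb, h4 b hb]
    refine comm_pow_step A x h4 d h1 k a ?_
    rw [← hkA]
    exact pow_card_eq_one'

end

end Pool.Agent.MP210e22
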