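import Pool.Agent.Lib.MP_210e22_co.TA.MaxAb

/-!
# The rank of a normal elementary abelian subgroup of a 2-group of small exponent
-/

namespace Pool.Agent.MP210e22

theorem card_mulAut_le {A : Type} [CommGroup A] [Finite A] (k : ℕ) (hk : Nat.card A = 2 ^ k)
    (r : ℕ) (hr : Nat.card {a : A // a ^ 2 = 1} = 2 ^ r) :
    Nat.card (MulAut A) ≤ Nat.card A ^ r := by
  classical
  obtain ⟨ι, _, n, hn1, ⟨E⟩⟩ := CommGroup.equiv_prod_multiplicative_zmod_of_finite A
  have hcardA : Nat.card A = ∏ i, n i := by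
    rw [Nat.card_congr E.toEquiv, Nat.card_pi]
    refine Finset.prod_congr rfl fun i _ => ?_
    exact (Nat.card_congr Multiplicative.toAdd).trans (Nat.card_zmod (n i))
  have hdvd : ∀ i, n i ∣ 2 ^ k := by
    intro i
    rw [← hk, hcardA]
    exact Finset.dvd_prod_of_mem _ (Finset.mem_univ i)
  have heven : ∀ i, 2 ∣ n i := by
    intro i
    obtain ⟨j, _, hj⟩ := (Nat.dvd_prime_pow Nat.prime_two).1 (hdvd i)
    have h1 := hn1 i
    rcases Nat.eq_zero_or_pos j with h0 | h0
    · rw [h0, pow_zero] at hj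
      omega
    · rw [hj]
      exact dvd_pow_self 2 h0.ne'
  let τ : (i : ι) → Multiplicative (ZMod (n i)) := fun i =>
    Multiplicative.ofAdd (((n i / 2 : ℕ) : ZMod (n i)))
  have hτ2 : ∀ i, τ i ^ 2 = 1 := by
    intro i
    show Multiplicative.ofAdd (((n i / 2 : ℕ) : ZMod (n i))) ^ 2 = 1
    rw [← ofAdd_nsmul, nsmul_eq_mul, ← Nat.cast_mul, Nat.mul_div_cancel' (heven i),
      ZMod.natCast_self, ofAdd_zero]
  have hτ1 : ∀ i, τ i ≠ 1 := by
    intro i h
    have h1 : (((n i / 2 : ℕ) : ZMod (n i))) = 0 := by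
      have := congrArg Multiplicative.toAdd h
      simpa [τ] using this
    rw [ZMod.natCast_eq_zero_iff] at h1
    have h2 := hn1 i
    have h3 := Nat.le_of_dvd (by omega) h1
    omega
  have hι : Fintype.card ι ≤ r := by
    have h1 : Nat.card (ι → Bool) ≤ Nat.card {a : A // a ^ 2 = 1} := by
      refine Nat.card_le_card_of_injective
        (fun ε => ⟨E.symm (fun i => if ε i then τ i else 1), ?_⟩) ?_
      · rw [← map_pow]
        have h2 : (fun i => if ε i = true then τ i else 1) ^ 2 = 1 := by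
          funext i
          rw [Pi.pow_apply]
          split_ifs
          · exact hτ2 i
          · exact one_pow 2
        rw [h2, map_one]
      · intro ε ε' h
        simp only [Subtype.mk.injEq, EmbeddingLike.apply_eq_iff_eq] at h
        funext i
        have h2 := congrFun h i
        have h3 := hτ1 i
        cases h4 : ε i <;> cases h5 : ε' i <;> simp [h4, h5] at h2 ⊢
        · exact h3 h2.symm
        · exact h3 h2
    rw [hr, Nat.card_eq_fintype_card, Fintype.card_fun, Fintype.card_bool] at h1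
    exact (Nat.pow_le_pow_iff_right (by norm_num)).1 h1
  have h2 : Nat.card (MulAut A) ≤ Nat.card (ι → A) := by
    refine Nat.card_le_card_of_injective
      (fun f i => f (E.symm (Pi.mulSingle i (Multiplicative.ofAdd (1 : ZMod (n i)))))) ?_
    intro f g hfg
    have h3 : (f.toMonoidHom.comp E.symm.toMonoidHom) = (g.toMonoidHom.comp E.symm.toMonoidHom) := by
      apply MonoidHom.functions_ext
      intro i x
      have h4 := congrFun hfg i
      simp only at h4
      have h5 : x = (Multiplicative.ofAdd (1 : ZMod (n i))) ^ (Multiplicative.toAdd x).val := by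
        have hne : NeZero (n i) := ⟨by have := hn1 i; omega⟩
        rw [← ofAdd_nsmul, nsmul_eq_mul, mul_one, ZMod.natCast_zmod_val, ofAdd_toAdd]
      rw [h5, Pi.mulSingle_pow, map_pow, map_pow]
      congr 1
    ext a
    have h6 := DFunLike.congr_fun h3 (E a)
    simpa using h6
  rw [show Nat.card (ι → A) = Nat.card A ^ Fintype.card ι by
    rw [Nat.card_pi, Finset.prod_const, Finset.card_univ]] at h2
  exact h2.trans (Nat.pow_le_pow_right Nat.card_pos hι)

/-- A 2-group of order `2 ^ k` and exponent dividing `2 ^ e` has a normal elementary abelian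
subgroup of order `2 ^ r` with `k ≤ e * r * (r + 1)`. -/
theorem rank_bound {G : Type} [Group G] [Finite G] (k : ℕ) (hk : Nat.card G = 2 ^ k) (e : ℕ)
    (he : ∀ g : G, g ^ (2 ^ e) = 1) :
    ∃ (H : Subgroup G) (r : ℕ), H.Normal ∧ Nat.card H = 2 ^ r ∧ (∀ h ∈ H, h ^ 2 = 1) ∧
      k ≤ e * (r * (r + 1)) := by
  haveI : Fact (Nat.Prime 2) := ⟨Nat.prime_two⟩
  have hG : IsPGroup 2 G := IsPGroup.of_card hk
  haveI : Group.IsNilpotent G := hG.isNilpotent
  obtain ⟨A, hN, hab, hmax⟩ := exists_max_ab G
  letI : CommGroup A :=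
    { (inferInstance : Group A) with mul_comm := fun a b => Subtype.ext (hab a a.2 b b.2) }
  have h2 := card_le_pow e A (fun a => by
    apply Subtype.ext
    simpa using he a)
  let H : Subgroup G :=
    { carrier := {g | g ∈ A ∧ g ^ 2 = 1}
      mul_mem' := by
        rintro a b ⟨ha, ha2⟩ ⟨hb, hb2⟩
        refine ⟨A.mul_mem ha hb, ?_⟩
        rw [(show Commute a b from hab a ha b hb).mul_pow, ha2, hb2, one_mul]
      one_mem' := ⟨A.one_mem, one_pow 2⟩
      inv_mem' := by
        rintro a ⟨ha, ha2⟩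
        exact ⟨A.inv_mem ha, by rw [inv_pow, ha2, inv_one]⟩ }
  have hHmem : ∀ g, g ∈ H ↔ g ∈ A ∧ g ^ 2 = 1 := fun g => Iff.rfl
  obtain ⟨r, hr⟩ := (IsPGroup.iff_card.1 (hG.to_subgroup H))
  obtain ⟨kA, hkA⟩ := (IsPGroup.iff_card.1 (hG.to_subgroup A))
  have h3 : Nat.card {a : A // a ^ 2 = 1} = Nat.card H := by
    apply Nat.card_congr
    refine ⟨fun a => ⟨a.1, (hHmem _).2 ⟨a.1.2, by
      simpa using congrArg (fun z : A => (z : G)) a.2⟩⟩,
      fun g => ⟨⟨g.1, ((hHmem _).1 g.2).1⟩, Subtype.ext (by simpa using ((hHmem _).1 g.2).2)⟩,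
      fun a => rfl, fun g => rfl⟩
  rw [h3, hr] at h2
  have haut : Nat.card (MulAut A) ≤ Nat.card A ^ r := card_mulAut_le kA hkA r (by rw [h3, hr])
  refine ⟨H, r, ?_, hr, fun h hh => ((hHmem h).1 hh).2, ?_⟩
  · refine ⟨fun n hn g => ?_⟩
    rw [hHmem] at hn ⊢
    refine ⟨hN.conj_mem n hn.1 g, ?_⟩
    rw [conj_pow, hn.2]
    group
  · have h1 : (MulAut.conjNormal : G →* MulAut A).ker ≤ A := by
      intro x hx
      apply hmax
      intro a ha
      rw [MonoidHom.mem_ker] at hx
      have h2 := congrArg (fun f : MulAut A => ((f ⟨a, ha⟩ : A) : G)) hx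
      simp only [MulAut.conjNormal_apply, MulAut.one_apply] at h2
      have h3 : x * a = a * x := by
        have := congrArg (· * x) h2
        simpa [mul_assoc] using this
      exact h3.symm
    have h4 : Nat.card (MulAut.conjNormal : G →* MulAut A).ker *
        Nat.card (MulAut.conjNormal : G →* MulAut A).range = Nat.card G := by
      rw [← Subgroup.index_ker, Subgroup.card_mul_index]
    have h5 : Nat.card (MulAut.conjNormal : G →* MulAut A).range ≤ Nat.card A ^ r :=
      (Subgroup.card_le_card_group _).trans haut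
    have h6 : Nat.card G ≤ Nat.card A * Nat.card A ^ r := by
      rw [← h4]
      exact Nat.mul_le_mul (Subgroup.card_le_of_le h1) h5
    rw [← pow_succ'] at h6
    have h7 : 2 ^ k ≤ 2 ^ (e * (r * (r + 1))) := by
      rw [← hk]
      calc Nat.card G ≤ Nat.card A ^ (r + 1) := h6
        _ ≤ ((2 ^ r) ^ e) ^ (r + 1) := Nat.pow_le_pow_left h2 _
        _ = 2 ^ (e * (r * (r + 1))) := by
          rw [← pow_mul, ← pow_mul]
          congr 1
          ring
    exact (Nat.pow_le_pow_iff_right (by norm_num)).1 h7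

end Pool.Agent.MP210e22
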