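import Mathlib

/-!
# Binomial tails
-/

namespace Pool.Agent.MP210e22

open Finset

/-- The decay rate `(27/32)^(r/3)`. -/
noncomputable def th (r : ℕ) : ℝ := (27 / 32 : ℝ) ^ ((r : ℝ) / 3)

theorem th_pos (r : ℕ) : 0 < th r := Real.rpow_pos_of_pos (by norm_num) _

theorem tail_pow (r k : ℕ) (hk : k ≤ r) :
    ((∑ j ∈ Finset.range (k + 1), r.choose j : ℕ) : ℝ) ≤ 2 ^ k * (3 / 2 : ℝ) ^ r := by
  have h1 : (3 / 2 : ℝ) ^ r = ∑ j ∈ Finset.range (r + 1), (1 / 2 : ℝ) ^ j * (r.choose j : ℝ) := by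
    have h2 := add_pow (1 / 2 : ℝ) 1 r
    simp only [one_pow, mul_one] at h2
    rw [← h2]
    norm_num
  rw [h1, Finset.mul_sum]
  push_cast
  calc ∑ j ∈ Finset.range (k + 1), (r.choose j : ℝ)
      ≤ ∑ j ∈ Finset.range (k + 1), 2 ^ k * ((1 / 2 : ℝ) ^ j * (r.choose j : ℝ)) := by
        refine Finset.sum_le_sum fun j hj => ?_
        have hj' : j ≤ k := Nat.lt_succ_iff.1 (Finset.mem_range.1 hj)
        have h3 : (1 : ℝ) ≤ 2 ^ k * (1 / 2 : ℝ) ^ j := by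
          rw [one_div, inv_pow, ← div_eq_mul_inv, one_le_div (by positivity)]
          exact pow_le_pow_right₀ (by norm_num) hj'
        rw [← mul_assoc]
        exact le_mul_of_one_le_left (Nat.cast_nonneg _) h3
    _ ≤ ∑ j ∈ Finset.range (r + 1), 2 ^ k * ((1 / 2 : ℝ) ^ j * (r.choose j : ℝ)) := by
        refine Finset.sum_le_sum_of_subset_of_nonneg ?_ ?_
        · intro j hj
          rw [Finset.mem_range] at hj ⊢
          omega
        · intro j _ _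
          positivity

theorem tail_th (r : ℕ) :
    ((∑ j ∈ Finset.range (r / 3 + 1), r.choose j : ℕ) : ℝ) ≤ 2 ^ r * th r := by
  refine (tail_pow r (r / 3) (Nat.div_le_self _ _)).trans ?_
  have h1 : (2 : ℝ) ^ (r / 3) ≤ (2 : ℝ) ^ ((r : ℝ) / 3) := by
    rw [← Real.rpow_natCast]
    apply Real.rpow_le_rpow_of_exponent_le (by norm_num)
    have := @Nat.cast_div_le ℝ _ _ _ r 3
    exact_mod_cast this
  refine (mul_le_mul_of_nonneg_right h1 (by positivity)).trans (le_of_eq ?_)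
  have h27 : (27 : ℝ) ^ ((r : ℝ) / 3) = 3 ^ r := by
    rw [show (27 : ℝ) = 3 ^ (3 : ℝ) by norm_num, ← Real.rpow_mul (by norm_num),
      mul_div_cancel₀ _ (by norm_num), Real.rpow_natCast]
  have h32 : (32 : ℝ) ^ ((r : ℝ) / 3) = 2 ^ r * (2 : ℝ) ^ ((r : ℝ) / 3) *
      (2 : ℝ) ^ ((r : ℝ) / 3) := by
    rw [show (32 : ℝ) = 2 ^ (5 : ℝ) by norm_num, ← Real.rpow_mul (by norm_num),
      ← Real.rpow_natCast, ← Real.rpow_add (by norm_num), ← Real.rpow_add (by norm_num)]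
    congr 1
    ring
  unfold th
  rw [Real.div_rpow (by norm_num) (by norm_num), h27, h32]
  have h2 : (0 : ℝ) < (2 : ℝ) ^ ((r : ℝ) / 3) := Real.rpow_pos_of_pos (by norm_num) _
  have h4 : (2 : ℝ) ^ ((r : ℝ) / 3) * (2 : ℝ) ^ ((r : ℝ) / 3) * (2 : ℝ) ^ ((r : ℝ) / 3) = 2 ^ r := by
    rw [← Real.rpow_natCast, ← Real.rpow_add (by norm_num), ← Real.rpow_add (by norm_num)]
    congr 1
    ring
  rw [div_pow]
  set u := (2 : ℝ) ^ ((r : ℝ) / 3)
  rw [← h4]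
  have hu : u ≠ 0 := h2.ne'
  field_simp

theorem upper_tail (r : ℕ) :
    ∑ j ∈ Finset.Ico (r / 3 + 1 + (r / 3 + 1)) (r + 1), r.choose j ≤
      ∑ j ∈ Finset.range (r / 3 + 1), r.choose j := by
  have h1 : ∑ j ∈ Finset.Ico (r / 3 + 1 + (r / 3 + 1)) (r + 1), r.choose j =
      ∑ j ∈ Finset.Ico (r / 3 + 1 + (r / 3 + 1)) (r + 1), r.choose (r - j) := by
    refine Finset.sum_congr rfl fun j hj => ?_
    rw [Finset.mem_Ico] at hj
    rw [Nat.choose_symm (by omega)]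
  have h2 : ∑ i ∈ (Finset.Ico (r / 3 + 1 + (r / 3 + 1)) (r + 1)).image (fun j => r - j),
      r.choose i = ∑ j ∈ Finset.Ico (r / 3 + 1 + (r / 3 + 1)) (r + 1), r.choose (r - j) := by
    apply Finset.sum_image
    intro a ha b hb hab
    simp only [Finset.coe_Ico, Set.mem_Ico] at ha hb hab
    omega
  rw [h1, ← h2]
  refine Finset.sum_le_sum_of_subset ?_
  intro i hi
  rw [Finset.mem_image] at hi
  obtain ⟨j, hj, rfl⟩ := hi
  rw [Finset.mem_Ico] at hj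
  rw [Finset.mem_range]
  omega

theorem half_pow_le (r : ℕ) : (1 / 2 : ℝ) ^ ((r + 11) / 12) ≤ th r := by
  set q := (r + 11) / 12 with hq
  have h1 : (1 / 2 : ℝ) ^ q ≤ ((27 / 32 : ℝ) ^ 4) ^ q :=
    pow_le_pow_left₀ (by norm_num) (by norm_num) q
  refine h1.trans ?_
  unfold th
  rw [← pow_mul, ← Real.rpow_natCast]
  apply Real.rpow_le_rpow_of_exponent_ge (by norm_num) (by norm_num)
  have h2 : r ≤ 12 * q := by omega
  have h3 : (r : ℝ) ≤ 12 * (q : ℝ) := by exact_mod_cast h2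
  push_cast
  linarith

/-- The numerical inequality used for the final bound. -/
theorem num_ineq (n ind r m : ℕ) (hn : ind * 2 ^ r = n)
    (hm : (m : ℝ) ≤ n * (1 - ((r : ℝ) / 4 + 6) * th r)) :
    m + (r + 11) / 12 * (ind * (∑ j ∈ Finset.range (r / 3 + 1), r.choose j +
      ∑ j ∈ Finset.range (r / 3 + 1), r.choose j +
      ∑ j ∈ Finset.Ico (r / 3 + 1 + (r / 3 + 1)) (r + 1), r.choose j)) +
      3 * (n / 2 ^ ((r + 11) / 12)) ≤ n := by
  set q := (r + 11) / 12 with hq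
  set A := ∑ j ∈ Finset.range (r / 3 + 1), r.choose j with hA
  have hA1 : (A : ℝ) ≤ 2 ^ r * th r := tail_th r
  have hB := upper_tail r
  rw [← hA] at hB
  set B := ∑ j ∈ Finset.Ico (r / 3 + 1 + (r / 3 + 1)) (r + 1), r.choose j
  have hB' : (B : ℝ) ≤ A := by exact_mod_cast hB
  have hθ := th_pos r
  have hhalf := half_pow_le r
  rw [← hq] at hhalf
  have hdiv : ((n / 2 ^ q : ℕ) : ℝ) ≤ n * th r := by
    have h1 : ((n / 2 ^ q : ℕ) : ℝ) ≤ (n : ℝ) / ((2 ^ q : ℕ) : ℝ) := Nat.cast_div_le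
    refine h1.trans ?_
    push_cast
    rw [div_eq_mul_inv, ← inv_pow, ← one_div]
    exact mul_le_mul_of_nonneg_left hhalf (Nat.cast_nonneg _)
  have hnR : (ind : ℝ) * 2 ^ r = n := by exact_mod_cast hn
  have hind : (0 : ℝ) ≤ ind := Nat.cast_nonneg _
  have hhub : (ind : ℝ) * (A + A + B) ≤ 3 * (n * th r) := by
    have h1 : (A : ℝ) + A + B ≤ 3 * (2 ^ r * th r) := by linarith
    calc (ind : ℝ) * (A + A + B) ≤ ind * (3 * (2 ^ r * th r)) :=
          mul_le_mul_of_nonneg_left h1 hind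
      _ = 3 * ((ind * 2 ^ r) * th r) := by ring
      _ = _ := by rw [hnR]
  have hq12 : (q : ℝ) ≤ (r : ℝ) / 12 + 11 / 12 := by
    have h1 : 12 * q ≤ r + 11 := by omega
    have h2 : 12 * (q : ℝ) ≤ r + 11 := by exact_mod_cast h1
    linarith
  have hnθ : 0 ≤ (n : ℝ) * th r := by positivity
  have hqh : (q : ℝ) * (ind * (A + A + B)) ≤ ((r : ℝ) / 12 + 11 / 12) * (3 * (n * th r)) := by
    refine mul_le_mul hq12 hhub (by positivity) (by positivity)
  have hfin : (m : ℝ) + q * (ind * (A + A + B)) + 3 * ((n / 2 ^ q : ℕ) : ℝ) ≤ n := by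
    have h5 : ((r : ℝ) / 12 + 11 / 12) * (3 * (n * th r)) + 3 * (n * th r) +
        1 / 4 * (n * th r) = n * (((r : ℝ) / 4 + 6) * th r) := by ring
    have h6 : (n : ℝ) * (1 - ((r : ℝ) / 4 + 6) * th r) = n - n * (((r : ℝ) / 4 + 6) * th r) := by
      ring
    rw [h6] at hm
    linarith
  exact_mod_cast hfin

/-- The error term tends to zero. -/
theorem err_tendsto (δ : ℝ) (hδ : 0 < δ) :
    ∃ r₀ : ℕ, ∀ r : ℕ, r₀ ≤ r → ((r : ℝ) / 4 + 6) * th r ≤ δ := by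
  have hx : ∀ r : ℕ, th r = ((27 / 32 : ℝ) ^ ((1 : ℝ) / 3)) ^ r := by
    intro r
    unfold th
    rw [← Real.rpow_natCast, ← Real.rpow_mul (by norm_num)]
    congr 1
    ring
  set x := (27 / 32 : ℝ) ^ ((1 : ℝ) / 3) with hxdef
  have hx0 : 0 ≤ x := Real.rpow_nonneg (by norm_num) _
  have hx1 : x < 1 := Real.rpow_lt_one (by norm_num) (by norm_num) (by norm_num)
  have habs : |x| < 1 := by rwa [abs_of_nonneg hx0]
  have h1 := tendsto_self_mul_const_pow_of_lt_one hx0 hx1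
  have h2 := tendsto_pow_atTop_nhds_zero_of_lt_one hx0 hx1
  have h3 : Filter.Tendsto (fun r : ℕ => (1 / 4 : ℝ) * ((r : ℝ) * x ^ r) + 6 * x ^ r)
      Filter.atTop (nhds (1 / 4 * 0 + 6 * 0)) := (h1.const_mul _).add (h2.const_mul _)
  simp only [mul_zero, add_zero] at h3
  have h4 := (h3.eventually (ge_mem_nhds hδ)).exists_forall_of_atTop
  obtain ⟨r₀, hr₀⟩ := h4
  refine ⟨r₀, fun r hr => ?_⟩
  have h5 := hr₀ r hr
  rw [hx]
  calc ((r : ℝ) / 4 + 6) * x ^ r = (1 / 4 : ℝ) * ((r : ℝ) * x ^ r) + 6 * x ^ r := by ring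
    _ ≤ δ := h5

end Pool.Agent.MP210e22
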