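import Pool.Agent.Lib.MP_210e22_co.TA.Grp
import Pool.Agent.Lib.MP_210e22_co.TA.Tail
import Pool.Agent.Lib.MP_210e22_co.TA.Ranks

/-!
# The explicit bounds
-/

namespace Pool.Agent.MP210e22

theorem normal_elementary {G : Type} [Group G] [Finite G] (H : Subgroup G) (hN : H.Normal)
    (r : ℕ) (hr : Nat.card H = 2 ^ r) (hsq : ∀ h ∈ H, h ^ 2 = 1) (m : ℕ)
    (hm : (m : ℝ) ≤ Nat.card G * (1 - ((r : ℝ) / 4 + 6) * th r)) : 2 ^ m ∣ N G := by
  have hi : H.index * 2 ^ r = Nat.card G := by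
    rw [← hr, mul_comm, Subgroup.card_mul_index]
  exact grp_dvd H r hr hsq (r / 3 + 1) (r / 3 + 1) ((r + 11) / 12) m
    (num_ineq (Nat.card G) H.index r m hi hm)

theorem err_succ (r : ℕ) :
    (((r + 1 : ℕ) : ℝ) / 4 + 6) * th (r + 1) ≤ ((r : ℝ) / 4 + 6) * th r := by
  have h1 : th (r + 1) = th r * (27 / 32 : ℝ) ^ ((1 : ℝ) / 3) := by
    unfold th
    rw [← Real.rpow_add (by norm_num)]
    congr 1
    push_cast
    ring
  have h2 : (27 / 32 : ℝ) ^ ((1 : ℝ) / 3) ≤ 24 / 25 := by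
    have h3 : ((27 / 32 : ℝ) ^ ((1 : ℝ) / 3)) ^ 3 = 27 / 32 := by
      rw [← Real.rpow_natCast, ← Real.rpow_mul (by norm_num)]
      norm_num
    by_contra hcon
    push Not at hcon
    have h4 : (24 / 25 : ℝ) ^ 3 < ((27 / 32 : ℝ) ^ ((1 : ℝ) / 3)) ^ 3 :=
      pow_lt_pow_left₀ hcon (by norm_num) (by norm_num)
    rw [h3] at h4
    norm_num at h4
  have h0 := th_pos r
  have hr : (0 : ℝ) ≤ r := Nat.cast_nonneg r
  rw [h1]
  push_cast
  calc (((r : ℝ) + 1) / 4 + 6) * (th r * (27 / 32 : ℝ) ^ ((1 : ℝ) / 3))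
      ≤ (((r : ℝ) + 1) / 4 + 6) * (th r * (24 / 25)) := by gcongr
    _ = ((((r : ℝ) + 1) / 4 + 6) * (24 / 25)) * th r := by ring
    _ ≤ ((r : ℝ) / 4 + 6) * th r := by
      apply mul_le_mul_of_nonneg_right _ h0.le
      linarith

theorem err_anti {r r' : ℕ} (h : r ≤ r') :
    ((r' : ℝ) / 4 + 6) * th r' ≤ ((r : ℝ) / 4 + 6) * th r := by
  induction r', h using Nat.le_induction with
  | base => exact le_refl _
  | succ n _ ih => exact (err_succ n).trans ih

theorem small_exponent {G : Type} [Group G] [Finite G] (k e r m : ℕ)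
    (hk : Nat.card G = 2 ^ k) (he : ∀ g : G, g ^ (2 ^ e) = 1) (hr : e * (r * (r - 1)) < k)
    (hm : (m : ℝ) ≤ Nat.card G * (1 - ((r : ℝ) / 4 + 6) * th r)) : 2 ^ m ∣ N G := by
  obtain ⟨H, r', hN, hr', hsq, hle⟩ := rank_bound k hk e he
  have hrr : r ≤ r' := by
    by_contra hcon
    push Not at hcon
    have h1 : r' * (r' + 1) ≤ r * (r - 1) := by
      rw [mul_comm r (r - 1)]
      exact Nat.mul_le_mul (by omega) (by omega)
    have h2 := Nat.mul_le_mul_left e h1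
    omega
  refine normal_elementary H hN r' hr' hsq m (hm.trans ?_)
  have h3 := err_anti hrr
  have h4 : (0 : ℝ) ≤ Nat.card G := Nat.cast_nonneg _
  apply mul_le_mul_of_nonneg_left _ h4
  linarith

end Pool.Agent.MP210e22
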