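import Mathlib

/-!
# Large normal elementary abelian subgroups of 2-groups of bounded exponent
-/

namespace Pool.Agent.MP210e22

open Subgroup
open scoped commutatorElement

/-- A finite nilpotent group has a normal abelian subgroup which contains its centralizer. -/
theorem exists_max_ab (G : Type) [Group G] [Finite G] [Group.IsNilpotent G] :
    ∃ A : Subgroup G, A.Normal ∧ (∀ a ∈ A, ∀ b ∈ A, a * b = b * a) ∧
      ∀ x, (∀ a ∈ A, a * x = x * a) → x ∈ A := by
  classical
  let S : Set (Subgroup G) := {A | A.Normal ∧ ∀ a ∈ A, ∀ b ∈ A, a * b = b * a}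
  have hne : S.Nonempty := by
    refine ⟨⊥, inferInstance, ?_⟩
    intro a ha b hb
    rw [Subgroup.mem_bot] at ha hb
    rw [ha, hb]
  obtain ⟨A, hA⟩ := (Set.toFinite S).exists_maximal hne
  have hAS : A ∈ S := hA.1
  haveI hN : A.Normal := hAS.1
  have hab := hAS.2
  refine ⟨A, hN, hab, ?_⟩
  obtain ⟨n, hn⟩ := Group.IsNilpotent.nilpotent G
  have key : ∀ i : ℕ, ∀ x ∈ Subgroup.upperCentralSeries G i, (∀ a ∈ A, a * x = x * a) → x ∈ A := by
    intro i
    induction i with
    | zero =>
      intro x hx _
      rw [Subgroup.upperCentralSeries_zero, Subgroup.mem_bot] at hx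
      rw [hx]
      exact A.one_mem
    | succ i ih =>
      intro x hx hxA
      rw [Subgroup.mem_upperCentralSeries_succ_iff] at hx
      have hcomm : ∀ y : G, ⁅x, y⁆ ∈ A := by
        intro y
        apply ih _ (hx y)
        have hxc : x ∈ Subgroup.centralizer (A : Set G) := by
          rw [Subgroup.mem_centralizer_iff]
          exact hxA
        have hyc : y * x⁻¹ * y⁻¹ ∈ Subgroup.centralizer (A : Set G) :=
          (inferInstance : (Subgroup.centralizer (A : Set G)).Normal).conj_mem _
            (Subgroup.inv_mem _ hxc) y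
        have hc : ⁅x, y⁆ ∈ Subgroup.centralizer (A : Set G) := by
          have : ⁅x, y⁆ = x * (y * x⁻¹ * y⁻¹) := by
            rw [commutatorElement_def]
            group
          rw [this]
          exact Subgroup.mul_mem _ hxc hyc
        rw [Subgroup.mem_centralizer_iff] at hc
        exact hc
      have hcen : (QuotientGroup.mk x : G ⧸ A) ∈ Subgroup.center (G ⧸ A) := by
        rw [Subgroup.mem_center_iff]
        intro g
        obtain ⟨y, rfl⟩ := QuotientGroup.mk_surjective g
        rw [← QuotientGroup.mk_mul, ← QuotientGroup.mk_mul, eq_comm, QuotientGroup.eq]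
        have h1 := hcomm y
        have h2 : (x * y)⁻¹ * (y * x) = (x * y)⁻¹ * ⁅x, y⁆⁻¹ * (x * y) := by
          rw [commutatorElement_def]
          group
        rw [h2]
        have h3 := hN.conj_mem _ (A.inv_mem h1) (x * y)⁻¹
        rwa [inv_inv] at h3
      have hz : Subgroup.zpowers (QuotientGroup.mk x : G ⧸ A) ≤ Subgroup.center (G ⧸ A) := by
        rw [Subgroup.zpowers_le]
        exact hcen
      have hzN : (Subgroup.zpowers (QuotientGroup.mk x : G ⧸ A)).Normal := by
        refine ⟨fun m hm g => ?_⟩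
        have h1 := Subgroup.mem_center_iff.1 (hz hm) g
        rw [h1, mul_inv_cancel_right]
        exact hm
      set B : Subgroup G :=
        (Subgroup.zpowers (QuotientGroup.mk x : G ⧸ A)).comap (QuotientGroup.mk' A) with hB
      have hBN : B.Normal := Subgroup.Normal.comap hzN _
      have hmem : ∀ b ∈ B, ∃ k : ℤ, ∃ a ∈ A, b = x ^ k * a := by
        intro b hb
        rw [hB, Subgroup.mem_comap, Subgroup.mem_zpowers_iff] at hb
        obtain ⟨k, hk⟩ := hb
        refine ⟨k, (x ^ k)⁻¹ * b, ?_, by group⟩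
        rw [← QuotientGroup.eq]
        simpa using hk
      have hcx : ∀ k : ℤ, ∀ a ∈ A, a * x ^ k = x ^ k * a := by
        intro k a ha
        exact ((show Commute a x from hxA a ha).zpow_right k).eq
      have hBab : ∀ a ∈ B, ∀ b ∈ B, a * b = b * a := by
        intro a ha b hb
        obtain ⟨k, u, hu, rfl⟩ := hmem a ha
        obtain ⟨l, v, hv, rfl⟩ := hmem b hb
        calc x ^ k * u * (x ^ l * v) = x ^ k * (u * x ^ l) * v := by group
          _ = x ^ k * (x ^ l * u) * v := by rw [hcx l u hu]
          _ = x ^ k * x ^ l * (u * v) := by group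
          _ = x ^ l * x ^ k * (v * u) := by
            rw [hab u hu v hv, ← zpow_add, ← zpow_add, add_comm]
          _ = x ^ l * (x ^ k * v) * u := by group
          _ = x ^ l * (v * x ^ k) * u := by rw [hcx k v hv]
          _ = x ^ l * v * (x ^ k * u) := by group
      have hAB : A ≤ B := by
        intro a ha
        rw [hB, Subgroup.mem_comap]
        have : (QuotientGroup.mk' A) a = 1 := (QuotientGroup.eq_one_iff a).2 ha
        rw [this]
        exact Subgroup.one_mem _
      have hBA : B ≤ A := hA.2 ⟨hBN, hBab⟩ hAB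
      apply hBA
      rw [hB, Subgroup.mem_comap]
      exact Subgroup.mem_zpowers _
  intro x hx
  exact key n x (by rw [hn]; exact Subgroup.mem_top x) hx

/-- The order of a finite nilpotent group is bounded in terms of a normal abelian subgroup. -/
theorem card_le_of_ab {G : Type} [Group G] [Finite G] (A : Subgroup G) [A.Normal]
    (h : ∀ x, (∀ a ∈ A, a * x = x * a) → x ∈ A) :
    Nat.card G ≤ Nat.card A * (Nat.card A).factorial := by
  classical
  have h1 : (MulAut.conjNormal : G →* MulAut A).ker ≤ A := by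
    intro x hx
    apply h
    intro a ha
    rw [MonoidHom.mem_ker] at hx
    have h2 := congrArg (fun f : MulAut A => ((f ⟨a, ha⟩ : A) : G)) hx
    simp only [MulAut.conjNormal_apply, MulAut.one_apply] at h2
    have h3 : x * a = a * x := by
      have := congrArg (· * x) h2
      simpa [mul_assoc] using this
    exact h3.symm
  have h2 : Nat.card (MulAut.conjNormal : G →* MulAut A).ker *
      Nat.card (MulAut.conjNormal : G →* MulAut A).range = Nat.card G := by
    rw [← Subgroup.index_ker, Subgroup.card_mul_index]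
  rw [← h2]
  refine Nat.mul_le_mul (Subgroup.card_le_of_le h1) ?_
  have h3 : Nat.card (MulAut.conjNormal : G →* MulAut A).range ≤ Nat.card (MulAut A) :=
    Subgroup.card_le_card_group _
  have h4 : Nat.card (MulAut A) ≤ Nat.card (Equiv.Perm A) :=
    Nat.card_le_card_of_injective (fun f => f.toEquiv) (fun f g hfg => MulEquiv.toEquiv_injective hfg)
  rw [Nat.card_perm] at h4
  exact h3.trans h4

theorem card_le_pow (e : ℕ) : ∀ (A : Type) [CommGroup A] [Finite A],
    (∀ a : A, a ^ (2 ^ e) = 1) → Nat.card A ≤ (Nat.card {a : A // a ^ 2 = 1}) ^ e := by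
  induction e with
  | zero =>
    intro A _ _ h
    have h1 : ∀ a : A, a = 1 := by simpa using h
    haveI : Subsingleton A := ⟨fun a b => by rw [h1 a, h1 b]⟩
    simp
  | succ e ih =>
    intro A _ _ h
    let f : A →* A := powMonoidHom 2
    have h2 : Nat.card f.ker * Nat.card f.range = Nat.card A := by
      rw [← Subgroup.index_ker, Subgroup.card_mul_index]
    have h3 : Nat.card f.ker = Nat.card {a : A // a ^ 2 = 1} := by
      apply Nat.card_congr
      exact Equiv.subtypeEquivRight fun a => by
        rw [MonoidHom.mem_ker]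
        rfl
    have h4 : Nat.card f.range ≤ (Nat.card {a : f.range // a ^ 2 = 1}) ^ e := by
      apply ih
      rintro ⟨b, a, rfl⟩
      apply Subtype.ext
      show (a ^ 2) ^ (2 ^ e) = 1
      rw [← pow_mul, ← pow_succ']
      exact h a
    have h5 : Nat.card {a : f.range // a ^ 2 = 1} ≤ Nat.card {a : A // a ^ 2 = 1} := by
      refine Nat.card_le_card_of_injective
        (fun a => ⟨(a.1 : A), by simpa using congrArg (fun z : f.range => (z : A)) a.2⟩) ?_
      intro a b hab
      simp only [Subtype.mk.injEq] at hab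
      exact Subtype.ext (Subtype.ext hab)
    rw [← h2, h3, pow_succ']
    exact Nat.mul_le_mul_left _ (h4.trans (Nat.pow_le_pow_left h5 e))

/-- A 2-group of exponent dividing `2 ^ e` has a normal elementary abelian subgroup whose rank
tends to infinity with the order of the group. -/
theorem exists_normal_elementary {G : Type} [Group G] [Finite G] (hG : IsPGroup 2 G) (e : ℕ)
    (he : ∀ g : G, g ^ (2 ^ e) = 1) (r₀ : ℕ)
    (hc : (2 ^ r₀) ^ e * ((2 ^ r₀) ^ e).factorial < Nat.card G) :
    ∃ (H : Subgroup G) (r : ℕ), H.Normal ∧ Nat.card H = 2 ^ r ∧ (∀ h ∈ H, h ^ 2 = 1) ∧ r₀ ≤ r := by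
  haveI : Fact (Nat.Prime 2) := ⟨Nat.prime_two⟩
  haveI : Group.IsNilpotent G := hG.isNilpotent
  obtain ⟨A, hN, hab, hmax⟩ := exists_max_ab G
  have h1 := card_le_of_ab A hmax
  letI : CommGroup A :=
    { (inferInstance : Group A) with mul_comm := fun a b => Subtype.ext (hab a a.2 b b.2) }
  have h2 := card_le_pow e A (fun a => by
    apply Subtype.ext
    simpa using he a)
  let H : Subgroup G :=
    { carrier := {g | g ∈ A ∧ g ^ 2 = 1}
      mul_mem' := by
        rintro a b ⟨ha, ha2⟩ ⟨hb, hb2⟩
        refine ⟨A.mul_mem ha hb, ?_⟩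
        rw [(show Commute a b from hab a ha b hb).mul_pow, ha2, hb2, one_mul]
      one_mem' := ⟨A.one_mem, one_pow 2⟩
      inv_mem' := by
        rintro a ⟨ha, ha2⟩
        exact ⟨A.inv_mem ha, by rw [inv_pow, ha2, inv_one]⟩ }
  have hHmem : ∀ g, g ∈ H ↔ g ∈ A ∧ g ^ 2 = 1 := fun g => Iff.rfl
  obtain ⟨r, hr⟩ := (IsPGroup.iff_card.1 (hG.to_subgroup H))
  have h3 : Nat.card {a : A // a ^ 2 = 1} = Nat.card H := by
    apply Nat.card_congr
    refine ⟨fun a => ⟨a.1, (hHmem _).2 ⟨a.1.2, by
      simpa using congrArg (fun z : A => (z : G)) a.2⟩⟩,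
      fun g => ⟨⟨g.1, ((hHmem _).1 g.2).1⟩, Subtype.ext (by simpa using ((hHmem _).1 g.2).2)⟩,
      fun a => rfl, fun g => rfl⟩
  rw [h3, hr] at h2
  refine ⟨H, r, ?_, hr, fun h hh => ((hHmem h).1 hh).2, ?_⟩
  · refine ⟨fun n hn g => ?_⟩
    rw [hHmem] at hn ⊢
    refine ⟨hN.conj_mem n hn.1 g, ?_⟩
    rw [conj_pow, hn.2]
    group
  · by_contra hlt
    push Not at hlt
    have h4 : 2 ^ r ≤ 2 ^ r₀ := Nat.pow_le_pow_right (by norm_num) hlt.le
    have h5 : Nat.card A ≤ (2 ^ r₀) ^ e := h2.trans (Nat.pow_le_pow_left h4 e)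
    have h6 := Nat.mul_le_mul h5 (Nat.factorial_le h5)
    omega

end Pool.Agent.MP210e22
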