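import Pool.Agent.Lib.MP_210e22_co.TA.Expand

/-!
# Sums over functions which are invariant under permutations
-/

namespace Pool.Agent.MP210e22

open Finset Nat

/-- The number of `x` with `f x = i`. -/
def cnt {X I : Type} [Fintype X] [DecidableEq I] (f : X → I) (i : I) : ℕ :=
  (Finset.univ.filter fun x => f x = i).card

section

variable {X I : Type} [Fintype X] [DecidableEq X] [Fintype I] [DecidableEq I]

theorem card_stab (f : X → I) :
    (Finset.univ.filter fun π : Equiv.Perm X => f ∘ π = f).card = ∏ i, (cnt f i)! := by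
  have h := DomMulAct.stabilizer_card f
  rw [← Fintype.card_subtype, h]
  refine Finset.prod_congr rfl fun i _ => ?_
  unfold cnt
  rw [Fintype.card_subtype]

theorem card_comp (f g : X → I) (ρ₀ : Equiv.Perm X) (h : f ∘ ρ₀ = g) :
    (Finset.univ.filter fun ρ : Equiv.Perm X => f ∘ ρ = g).card = ∏ i, (cnt f i)! := by
  rw [← card_stab]
  refine Finset.card_bij (fun ρ _ => ρ * ρ₀⁻¹) ?_ ?_ ?_
  · intro ρ hρ
    simp only [Finset.mem_filter, Finset.mem_univ, true_and] at hρ ⊢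
    funext x
    have h1 := congrFun (hρ.trans h.symm) (ρ₀⁻¹ x)
    simpa using h1
  · intro a _ b _ hab
    exact mul_right_cancel hab
  · intro π hπ
    refine ⟨π * ρ₀, ?_, by simp⟩
    simp only [Finset.mem_filter, Finset.mem_univ, true_and] at hπ ⊢
    rw [← h]
    funext x
    have h1 := congrFun hπ (ρ₀ x)
    simpa using h1

theorem card_comp_dvd (f g : X → I) :
    ((∏ i, (cnt f i)! : ℕ) : ℤ) ∣
      ((Finset.univ.filter fun ρ : Equiv.Perm X => f ∘ ρ = g).card : ℤ) := by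
  by_cases hg : ∃ ρ₀ : Equiv.Perm X, f ∘ ρ₀ = g
  · obtain ⟨ρ₀, h⟩ := hg
    rw [card_comp f g ρ₀ h]
  · push Not at hg
    rw [Finset.filter_false_of_mem (fun ρ _ => hg ρ)]
    simp

theorem psum_dvd (P : X → I → ℤ) (f : X → I) :
    ((∏ i, (cnt f i)! : ℕ) : ℤ) ∣ psum P f := by
  unfold psum
  have h1 : ∀ ρ : Equiv.Perm X, ∏ x, P (ρ x) (f x) = ∏ y, P y ((f ∘ ⇑(ρ⁻¹)) y) := by
    intro ρ
    rw [← Equiv.prod_comp ρ (fun y => P y ((f ∘ ⇑(ρ⁻¹)) y))]
    refine Finset.prod_congr rfl fun x _ => ?_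
    simp
  rw [Finset.sum_congr rfl fun ρ _ => h1 ρ]
  rw [← Equiv.sum_comp (Equiv.inv (Equiv.Perm X))]
  have h2 : ∀ ρ : Equiv.Perm X,
      ∏ y, P y ((f ∘ ⇑((Equiv.inv (Equiv.Perm X) ρ)⁻¹)) y) = ∏ y, P y ((f ∘ ⇑ρ) y) := by
    intro ρ
    simp
  rw [Finset.sum_congr rfl fun ρ _ => h2 ρ]
  rw [← Finset.sum_fiberwise Finset.univ (fun ρ : Equiv.Perm X => f ∘ ⇑ρ)]
  refine Finset.dvd_sum fun g _ => ?_
  have h3 : ∑ ρ ∈ Finset.univ.filter (fun ρ : Equiv.Perm X => f ∘ ⇑ρ = g),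
      ∏ y, P y ((f ∘ ⇑ρ) y) =
      ((Finset.univ.filter fun ρ : Equiv.Perm X => f ∘ ρ = g).card : ℤ) * ∏ y, P y (g y) := by
    rw [Finset.sum_congr rfl (g := fun _ => ∏ y, P y (g y)), Finset.sum_const, nsmul_eq_mul]
    intro ρ hρ
    rw [(Finset.mem_filter.1 hρ).2]
  rw [h3]
  exact (card_comp_dvd f g).mul_right _

end

theorem sum_dvd_setoid {W : Type} [Fintype W] (r : Setoid W) (Φ : W → ℤ)
    (hΦ : ∀ a b, r a b → Φ a = Φ b) (D : ℤ)
    (h : ∀ w, D ∣ (Nat.card {w' // r w' w} : ℤ) * Φ w) : D ∣ ∑ w, Φ w := by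
  classical
  rw [← Finset.sum_fiberwise Finset.univ (fun w => (Quotient.mk r w))]
  refine Finset.dvd_sum fun q _ => ?_
  obtain ⟨w, rfl⟩ := Quotient.exists_rep q
  have h1 : ∑ i ∈ Finset.univ.filter (fun i => Quotient.mk r i = Quotient.mk r w), Φ i =
      (Nat.card {w' // r w' w} : ℤ) * Φ w := by
    rw [Finset.sum_congr rfl (g := fun _ => Φ w), Finset.sum_const, nsmul_eq_mul,
      Nat.card_eq_fintype_card, Fintype.card_subtype]
    · congr 3
      ext i
      simp [Quotient.eq]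
    · intro i hi
      exact hΦ _ _ (Quotient.exact (Finset.mem_filter.1 hi).2)
  rw [h1]
  exact h w

/-- Two functions which differ by a permutation of the argument. -/
def permSetoid (X Y : Type) : Setoid (X → Y) where
  r w w' := ∃ π : Equiv.Perm X, w' ∘ π = w
  iseqv := by
    refine ⟨fun w => ⟨1, rfl⟩, ?_, ?_⟩
    · rintro w w' ⟨π, rfl⟩
      refine ⟨π⁻¹, ?_⟩
      funext x
      simp
    · rintro w w' w'' ⟨π, rfl⟩ ⟨π', rfl⟩
      exact ⟨π' * π, rfl⟩

theorem card_class {X Y : Type} [Fintype X] [DecidableEq X] [Fintype Y] [DecidableEq Y]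
    (w : X → Y) :
    Nat.card {w' // permSetoid X Y w' w} * ∏ y, (cnt w y)! = (Fintype.card X)! := by
  classical
  have h1 : (Fintype.card X)! = (Finset.univ : Finset (Equiv.Perm X)).card := by
    rw [Finset.card_univ, Fintype.card_perm]
  rw [h1, Finset.card_eq_sum_card_fiberwise (f := fun π : Equiv.Perm X => w ∘ ⇑π)
    (t := Finset.univ.filter fun w' => permSetoid X Y w' w)]
  · rw [Finset.sum_congr rfl (g := fun _ => ∏ y, (cnt w y)!), Finset.sum_const, smul_eq_mul,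
      Nat.card_eq_fintype_card, Fintype.card_subtype]
    intro w' hw'
    obtain ⟨π, hπ⟩ := (Finset.mem_filter.1 hw').2
    exact card_comp w w' π hπ
  · intro π _
    simp only [Finset.coe_filter, Finset.mem_univ, true_and]
    exact ⟨π, rfl⟩

theorem orbit_dvd {X Y : Type} [Fintype X] [DecidableEq X] [Fintype Y] [DecidableEq Y]
    (Φ : (X → Y) → ℤ) (hΦ : ∀ (w : X → Y) (π : Equiv.Perm X), Φ (w ∘ π) = Φ w) (D : ℤ)
    (h : ∀ (w : X → Y) (k : ℕ), k * ∏ y, (cnt w y)! = (Fintype.card X)! → D ∣ (k : ℤ) * Φ w) :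
    D ∣ ∑ w, Φ w := by
  refine sum_dvd_setoid (permSetoid X Y) Φ ?_ D ?_
  · rintro a b ⟨π, rfl⟩
    exact hΦ b π
  · intro w
    exact h w _ (card_class w)

end Pool.Agent.MP210e22
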