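import Pool.Agent.Lib.MP_210e22_co.TA.Abs

/-!
# The inequality for the exponents of two, with potentials
-/

namespace Pool.Agent.MP210e22

open Finset Nat

section

variable {X Y I : Type} [Fintype X] [Fintype Y] [DecidableEq Y] [Fintype I] [DecidableEq I]

theorem one_pot (w : X → Y) (π : Y → I) (K : Finset Y) (p a : I → ℝ)
    (hp : ∀ i (c : ℕ), (c : ℝ) ≤ fv c + p i * c + a i) :
    ∑ y, (if y ∈ K then (fv (cnt w y) : ℝ) else (1 - p (π y)) * cnt w y) ≤
      ∑ i, (fv (cnt (fun x => π (w x)) i) : ℝ) + ∑ i, a i := by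
  classical
  rw [← Finset.sum_add_distrib, ← Finset.sum_fiberwise Finset.univ π]
  refine Finset.sum_le_sum fun i _ => ?_
  set F := Finset.univ.filter (fun y => π y = i) with hF
  have h1 : ∑ y ∈ F, (if y ∈ K then (fv (cnt w y) : ℝ) else (1 - p (π y)) * cnt w y) =
      ((∑ y ∈ F.filter (fun y => y ∈ K), fv (cnt w y) : ℕ) : ℝ) +
      (1 - p i) * ((∑ y ∈ F.filter (fun y => ¬ y ∈ K), cnt w y : ℕ) : ℝ) := by
    rw [Finset.sum_ite]
    push_cast
    congr 1
    rw [Finset.mul_sum]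
    refine Finset.sum_congr rfl fun y hy => ?_
    have hy1 := (Finset.mem_filter.1 hy).1
    rw [(Finset.mem_filter.1 hy1).2]
  rw [h1]
  set u := ∑ y ∈ F.filter (fun y => y ∈ K), cnt w y with hu
  set v := ∑ y ∈ F.filter (fun y => ¬ y ∈ K), cnt w y with hv
  have h2 : ∑ y ∈ F.filter (fun y => y ∈ K), fv (cnt w y) ≤ fv u := fv_sum _ _
  have h3 : cnt (fun x => π (w x)) i = u + v := by
    rw [cnt_comp, ← hF, hu, hv]
    exact (Finset.sum_filter_add_sum_filter_not F (fun y => y ∈ K) _).symm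
  have h4 : fv u + fv v ≤ fv (u + v) := by
    have h5 := fv_sum (Finset.univ : Finset (Fin 2)) ![u, v]
    simpa [Fin.sum_univ_two] using h5
  have h6 := hp i v
  rw [h3]
  have h7 : ((∑ y ∈ F.filter (fun y => y ∈ K), fv (cnt w y) : ℕ) : ℝ) ≤ fv u := by
    exact_mod_cast h2
  have h8 : (fv u : ℝ) + fv v ≤ fv (u + v) := by exact_mod_cast h4
  linarith

end

theorem val_pot {X I J L : Type} [Fintype X] [Fintype I] [DecidableEq I] [Fintype J]
    [DecidableEq J] [Fintype L] [DecidableEq L] (w : X → I × J × L) (p a : I → ℝ) (q b : J → ℝ)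
    (s d : L → ℝ) (E : Finset (I × J × L))
    (hp1 : ∀ i, p i ≤ 1) (hq1 : ∀ j, q j ≤ 1)
    (hp : ∀ i (c : ℕ), (c : ℝ) ≤ fv c + p i * c + a i)
    (hq : ∀ j (c : ℕ), (c : ℝ) ≤ fv c + q j * c + b j)
    (hs : ∀ l (c : ℕ), (c : ℝ) ≤ fv c + s l * c + d l)
    (hcov : ∀ y : I × J × L, q y.2.1 + s y.2.2 ≤ 1 ∨ p y.1 + s y.2.2 ≤ 1 ∨
      p y.1 + q y.2.1 ≤ 1 ∨ y ∈ E) :
    (Fintype.card X : ℝ) + ∑ y, (fv (cnt w y) : ℝ) ≤
      ∑ i, (fv (cnt (fun x => (w x).1) i) : ℝ) + ∑ j, (fv (cnt (fun x => (w x).2.1) j) : ℝ) +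
        ∑ l, (fv (cnt (fun x => (w x).2.2) l) : ℝ) +
        ((Finset.univ.filter fun x => w x ∈ E).card : ℝ) +
        (∑ i, a i + ∑ j, b j + ∑ l, d l) := by
  classical
  set K1 : Finset (I × J × L) := Finset.univ.filter fun y => q y.2.1 + s y.2.2 ≤ 1 with hK1
  set K2 : Finset (I × J × L) := Finset.univ.filter fun y =>
    ¬ q y.2.1 + s y.2.2 ≤ 1 ∧ p y.1 + s y.2.2 ≤ 1 with hK2
  set K3 : Finset (I × J × L) := Finset.univ.filter fun y =>
    ¬ q y.2.1 + s y.2.2 ≤ 1 ∧ ¬ p y.1 + s y.2.2 ≤ 1 with hK3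
  have h1 := one_pot w (fun y => y.1) K1 p a hp
  have h2 := one_pot w (fun y => y.2.1) K2 q b hq
  have h3 := one_pot w (fun y => y.2.2) K3 s d hs
  have h4 : ∑ y, (if y ∈ E then (cnt w y : ℝ) else 0) =
      ((Finset.univ.filter fun x => w x ∈ E).card : ℝ) := by
    rw [Finset.sum_ite_mem, Finset.univ_inter, ← Nat.cast_sum]
    congr 1
    unfold cnt
    rw [Finset.card_eq_sum_card_fiberwise (f := w) (s := Finset.univ.filter fun x => w x ∈ E)
      (t := E)]
    · refine Finset.sum_congr rfl fun y hy => ?_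
      congr 1
      ext x
      simp only [Finset.mem_filter, Finset.mem_univ, true_and]
      constructor
      · intro h
        exact ⟨by rw [h]; exact hy, h⟩
      · rintro ⟨_, h⟩
        exact h
    · intro x hx
      simpa using hx
  have h5 : ∑ y, ((cnt w y : ℝ) + fv (cnt w y)) ≤
      ∑ y, ((if y ∈ K1 then (fv (cnt w y) : ℝ) else (1 - p y.1) * cnt w y) +
        (if y ∈ K2 then (fv (cnt w y) : ℝ) else (1 - q y.2.1) * cnt w y) +
        (if y ∈ K3 then (fv (cnt w y) : ℝ) else (1 - s y.2.2) * cnt w y) +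
        (if y ∈ E then (cnt w y : ℝ) else 0)) := by
    refine Finset.sum_le_sum fun y _ => ?_
    have hy := hcov y
    have hc : (0 : ℝ) ≤ cnt w y := Nat.cast_nonneg _
    have hE : (0 : ℝ) ≤ (if y ∈ E then (cnt w y : ℝ) else 0) := by
      split_ifs
      · exact hc
      · exact le_refl _
    by_cases c1 : q y.2.1 + s y.2.2 ≤ 1
    · have m1 : y ∈ K1 := Finset.mem_filter.2 ⟨Finset.mem_univ _, c1⟩
      have m2 : y ∉ K2 := fun h => (Finset.mem_filter.1 h).2.1 c1
      have m3 : y ∉ K3 := fun h => (Finset.mem_filter.1 h).2.1 c1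
      rw [if_pos m1, if_neg m2, if_neg m3]
      nlinarith [mul_nonneg (sub_nonneg.2 c1) hc]
    · have m1 : y ∉ K1 := fun h => c1 (Finset.mem_filter.1 h).2
      by_cases c2 : p y.1 + s y.2.2 ≤ 1
      · have m2 : y ∈ K2 := Finset.mem_filter.2 ⟨Finset.mem_univ _, c1, c2⟩
        have m3 : y ∉ K3 := fun h => (Finset.mem_filter.1 h).2.2 c2
        rw [if_neg m1, if_pos m2, if_neg m3]
        nlinarith [mul_nonneg (sub_nonneg.2 c2) hc]
      · have m2 : y ∉ K2 := fun h => c2 (Finset.mem_filter.1 h).2.2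
        have m3 : y ∈ K3 := Finset.mem_filter.2 ⟨Finset.mem_univ _, c1, c2⟩
        rw [if_neg m1, if_neg m2, if_pos m3]
        by_cases c3 : p y.1 + q y.2.1 ≤ 1
        · nlinarith [mul_nonneg (sub_nonneg.2 c3) hc]
        · have hyE : y ∈ E := by tauto
          rw [if_pos hyE]
          nlinarith [mul_nonneg (sub_nonneg.2 (hp1 y.1)) hc,
            mul_nonneg (sub_nonneg.2 (hq1 y.2.1)) hc]
  rw [Finset.sum_add_distrib, Finset.sum_add_distrib, Finset.sum_add_distrib,
    Finset.sum_add_distrib, h4, ← Nat.cast_sum (s := Finset.univ) (f := fun y => cnt w y),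
    sum_cnt] at h5
  linarith

theorem abs_pot {G I J L : Type} [Group G] [Fintype G] [DecidableEq G] [Fintype I]
    [DecidableEq I] [Fintype J] [DecidableEq J] [Fintype L] [DecidableEq L]
    (P : G → I → ℤ) (Q : G → J → ℤ) (R : G → L → ℤ) (C : I → J → L → ℤ)
    (hT : ∀ a b c : G, ∑ y : I × J × L, P a y.1 * Q b y.2.1 * R c y.2.2 * C y.1 y.2.1 y.2.2 =
      if a * b = c then 1 else 0)
    (p a : I → ℝ) (q b : J → ℝ) (s d : L → ℝ)
    (hp1 : ∀ i, p i ≤ 1) (hq1 : ∀ j, q j ≤ 1)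
    (hp : ∀ i (c : ℕ), (c : ℝ) ≤ fv c + p i * c + a i)
    (hq : ∀ j (c : ℕ), (c : ℝ) ≤ fv c + q j * c + b j)
    (hs : ∀ l (c : ℕ), (c : ℝ) ≤ fv c + s l * c + d l)
    (hcov : ∀ i j l, q j + s l ≤ 1 ∨ p i + s l ≤ 1 ∨ p i + q j ≤ 1 ∨ (2 : ℤ) ∣ C i j l) (m : ℕ)
    (hm : (m : ℝ) + (∑ i, a i + ∑ j, b j + ∑ l, d l) ≤ Fintype.card G) :
    2 ^ m ∣ N G := by
  classical
  set n := Fintype.card G with hn
  apply dvd_of_factorial (n := n)
  have hcount := count_eq (G := G)
  rw [expand P Q R C (fun a b c => if a * b = c then (1 : ℤ) else 0) hT] at hcount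
  have key : (2 : ℤ) ^ (m + fv n) ∣ ((n)! : ℕ) * (N G : ℤ) := by
    rw [hcount]
    apply orbit_dvd
    · intro w π
      have h1 : ∏ x, C ((w ∘ π) x).1 ((w ∘ π) x).2.1 ((w ∘ π) x).2.2 =
          ∏ x, C (w x).1 (w x).2.1 (w x).2.2 :=
        Equiv.prod_comp π (fun x => C (w x).1 (w x).2.1 (w x).2.2)
      have h2 : psum P (fun x => ((w ∘ π) x).1) = psum P (fun x => (w x).1) :=
        psum_comp P (fun x => (w x).1) π
      have h3 : psum Q (fun x => ((w ∘ π) x).2.1) = psum Q (fun x => (w x).2.1) :=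
        psum_comp Q (fun x => (w x).2.1) π
      have h4 : psum R (fun x => ((w ∘ π) x).2.2) = psum R (fun x => (w x).2.2) :=
        psum_comp R (fun x => (w x).2.2) π
      rw [h1, h2, h3, h4]
    · intro w k hk
      set E : Finset (I × J × L) := Finset.univ.filter fun y => (2 : ℤ) ∣ C y.1 y.2.1 y.2.2
        with hE
      have hineq := val_pot w p a q b s d E hp1 hq1 hp hq hs (by
        intro y
        rcases hcov y.1 y.2.1 y.2.2 with h | h | h | h
        · exact Or.inl h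
        · exact Or.inr (Or.inl h)
        · exact Or.inr (Or.inr (Or.inl h))
        · exact Or.inr (Or.inr (Or.inr (Finset.mem_filter.2 ⟨Finset.mem_univ _, h⟩))))
      set e := (Finset.univ.filter fun x => w x ∈ E).card with he
      have hineq' : m + n + ∑ y, fv (cnt w y) ≤ n +
          (∑ i, fv (cnt (fun x => (w x).1) i) + ∑ j, fv (cnt (fun x => (w x).2.1) j) +
          ∑ l, fv (cnt (fun x => (w x).2.2) l) + e) := by
        have h1 : (m : ℝ) + n + ∑ y, (fv (cnt w y) : ℝ) ≤ n +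
          (∑ i, (fv (cnt (fun x => (w x).1) i) : ℝ) +
          ∑ j, (fv (cnt (fun x => (w x).2.1) j) : ℝ) +
          ∑ l, (fv (cnt (fun x => (w x).2.2) l) : ℝ) + e) := by
          rw [← hn] at hineq
          linarith
        exact_mod_cast h1
      have hC : (2 : ℤ) ^ e ∣ ∏ x, C (w x).1 (w x).2.1 (w x).2.2 := by
        apply two_pow_dvd_prod
        intro x hx
        exact (Finset.mem_filter.1 (Finset.mem_filter.1 hx).2).2
      have hP := psum_dvd P (fun x => (w x).1)
      have hQ := psum_dvd Q (fun x => (w x).2.1)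
      have hR := psum_dvd R (fun x => (w x).2.2)
      set a' := ∏ i, (cnt (fun x => (w x).1) i)! with ha
      set b' := ∏ i, (cnt (fun x => (w x).2.1) i)! with hb
      set d' := ∏ i, (cnt (fun x => (w x).2.2) i)! with hd
      have hprod : ((2 ^ e * (a' * b' * d') : ℕ) : ℤ) ∣
          (∏ x, C (w x).1 (w x).2.1 (w x).2.2) *
          (psum P (fun x => (w x).1) * psum Q (fun x => (w x).2.1) *
            psum R (fun x => (w x).2.2)) := by
        push_cast
        exact mul_dvd_mul hC (mul_dvd_mul (mul_dvd_mul hP hQ) hR)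
      refine dvd_trans ?_ (mul_dvd_mul_left (k : ℤ) hprod)
      have hnat : 2 ^ (m + fv n) ∣ k * (2 ^ e * (a' * b' * d')) := by
        have hk0 : k ≠ 0 := by
          intro h
          rw [h, zero_mul] at hk
          exact (Nat.factorial_ne_zero _) hk.symm
        have ha0 : a' ≠ 0 := Finset.prod_ne_zero_iff.2 fun i _ => Nat.factorial_ne_zero _
        have hb0 : b' ≠ 0 := Finset.prod_ne_zero_iff.2 fun i _ => Nat.factorial_ne_zero _
        have hd0 : d' ≠ 0 := Finset.prod_ne_zero_iff.2 fun i _ => Nat.factorial_ne_zero _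
        have he0 : (2 : ℕ) ^ e ≠ 0 := by positivity
        have hω0 : (∏ y, (cnt w y)!) ≠ 0 :=
          Finset.prod_ne_zero_iff.2 fun i _ => Nat.factorial_ne_zero _
        rw [padicValNat_dvd_iff_le (Nat.mul_ne_zero hk0 (Nat.mul_ne_zero he0
          (Nat.mul_ne_zero (Nat.mul_ne_zero ha0 hb0) hd0)))]
        rw [padicValNat.mul hk0 (Nat.mul_ne_zero he0
          (Nat.mul_ne_zero (Nat.mul_ne_zero ha0 hb0) hd0)),
          padicValNat.mul he0 (Nat.mul_ne_zero (Nat.mul_ne_zero ha0 hb0) hd0),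
          padicValNat.mul (Nat.mul_ne_zero ha0 hb0) hd0, padicValNat.mul ha0 hb0,
          padicValNat.prime_pow]
        have hva : padicValNat 2 a' = ∑ i, fv (cnt (fun x => (w x).1) i) :=
          val_prod _ _ fun i => Nat.factorial_ne_zero _
        have hvb : padicValNat 2 b' = ∑ i, fv (cnt (fun x => (w x).2.1) i) :=
          val_prod _ _ fun i => Nat.factorial_ne_zero _
        have hvd : padicValNat 2 d' = ∑ i, fv (cnt (fun x => (w x).2.2) i) :=
          val_prod _ _ fun i => Nat.factorial_ne_zero _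
        have hvω : padicValNat 2 k + ∑ y, fv (cnt w y) = fv n := by
          have h1 : padicValNat 2 (∏ y, (cnt w y)!) = ∑ y, fv (cnt w y) :=
            val_prod _ _ fun i => Nat.factorial_ne_zero _
          rw [← h1, ← padicValNat.mul hk0 hω0, hk]
          rfl
        rw [hva, hvb, hvd]
        omega
      exact_mod_cast hnat
  exact_mod_cast key

end Pool.Agent.MP210e22
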