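import Mathlib

/-!
# Binomial coefficients near one third
-/

namespace Pool.Agent.MP210e22

open Finset

theorem choose_low (r j : ℕ) (hj : j ≤ r / 3) :
    r.choose (r / 3 - j) * 2 ^ j ≤ r.choose (r / 3) := by
  induction j with
  | zero => simp
  | succ j ih =>
    have h1 := ih (by omega)
    set b := r / 3 - (j + 1) with hb
    have h2 : r / 3 - j = b + 1 := by omega
    rw [h2] at h1
    have h3 := Nat.choose_succ_right_eq r b
    have h4 : 2 * (b + 1) ≤ r - b := by omega
    have h5 : r.choose b * 2 ≤ r.choose (b + 1) := by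
      have h6 : (r.choose b * 2) * (b + 1) ≤ r.choose (b + 1) * (b + 1) := by
        rw [h3, mul_assoc]
        exact Nat.mul_le_mul_left _ h4
      exact Nat.le_of_mul_le_mul_right h6 (Nat.succ_pos b)
    calc r.choose b * 2 ^ (j + 1) = (r.choose b * 2) * 2 ^ j := by ring
      _ ≤ r.choose (b + 1) * 2 ^ j := Nat.mul_le_mul_right _ h5
      _ ≤ _ := h1

theorem choose_up (r j : ℕ) : r.choose (r / 3 + j) ≤ 2 ^ j * r.choose (r / 3) := by
  induction j with
  | zero => simp
  | succ j ih =>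
    set b := r / 3 + j with hb
    have h3 := Nat.choose_succ_right_eq r b
    have h4 : r - b ≤ 2 * (b + 1) := by omega
    have h5 : r.choose (b + 1) ≤ 2 * r.choose b := by
      have h6 : r.choose (b + 1) * (b + 1) ≤ (2 * r.choose b) * (b + 1) := by
        rw [h3]
        calc r.choose b * (r - b) ≤ r.choose b * (2 * (b + 1)) := Nat.mul_le_mul_left _ h4
          _ = _ := by ring
      exact Nat.le_of_mul_le_mul_right h6 (Nat.succ_pos b)
    have h7 : r / 3 + (j + 1) = b + 1 := by omega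
    rw [h7]
    calc r.choose (b + 1) ≤ 2 * r.choose b := h5
      _ ≤ 2 * (2 ^ j * r.choose (r / 3)) := Nat.mul_le_mul_left _ ih
      _ = _ := by ring

theorem choose_one (k : ℕ) : (3 * k + 1).choose k * (2 * k + 1) = (3 * k).choose k * (3 * k + 1) := by
  have h := Nat.choose_mul_succ_eq (3 * k) k
  have h1 : 3 * k + 1 - k = 2 * k + 1 := by omega
  rw [h1] at h
  exact h.symm

theorem choose_two (k : ℕ) :
    (3 * k + 2).choose k * (2 * k + 2) = (3 * k + 1).choose k * (3 * k + 2) := by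
  have h := Nat.choose_mul_succ_eq (3 * k + 1) k
  have h1 : 3 * k + 1 + 1 - k = 2 * k + 2 := by omega
  rw [h1] at h
  exact h.symm

theorem choose_three (k : ℕ) : (3 * (k + 1)).choose (k + 1) = 3 * (3 * k + 2).choose k := by
  have h := Nat.add_one_mul_choose_eq (3 * k + 2) k
  have h1 : 3 * (k + 1) = (3 * k + 2) + 1 := by ring
  rw [h1]
  have h2 : (3 * k + 2 + 1).choose (k + 1) * (k + 1) = (3 * (3 * k + 2).choose k) * (k + 1) := by
    rw [← h]
    ring
  exact Nat.eq_of_mul_eq_mul_right (Nat.succ_pos k) h2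

/-- An upper bound for the binomial coefficient `(3k choose k)`. -/
theorem choose_bound (k : ℕ) :
    (4 * (k : ℝ) + 1) * ((3 * k).choose k : ℝ) ^ 2 ≤ (729 / 16 : ℝ) ^ k := by
  induction k with
  | zero => simp
  | succ k ih =>
    have e1 : ((3 * k + 1).choose k : ℝ) * (2 * k + 1) = (3 * k).choose k * (3 * k + 1) := by
      exact_mod_cast choose_one k
    have e2 : ((3 * k + 2).choose k : ℝ) * (2 * k + 2) = (3 * k + 1).choose k * (3 * k + 2) := by
      exact_mod_cast choose_two k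
    have e3 : ((3 * (k + 1)).choose (k + 1) : ℝ) = 3 * (3 * k + 2).choose k := by
      exact_mod_cast choose_three k
    have hk : (0 : ℝ) ≤ k := Nat.cast_nonneg k
    set A : ℝ := ((3 * k).choose k : ℝ) with hA
    set B : ℝ := ((3 * k + 1).choose k : ℝ) with hB
    set D : ℝ := ((3 * k + 2).choose k : ℝ) with hD
    have hAD : D * ((2 * k + 2) * (2 * k + 1)) = A * ((3 * k + 1) * (3 * k + 2)) := by
      calc D * ((2 * (k : ℝ) + 2) * (2 * k + 1)) = (D * (2 * k + 2)) * (2 * k + 1) := by ring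
        _ = (B * (2 * k + 1)) * (3 * k + 2) := by rw [e2]; ring
        _ = _ := by rw [e1]; ring
    have hpos : (0 : ℝ) < ((2 * k + 2) * (2 * k + 1)) ^ 2 := by positivity
    rw [e3, pow_succ]
    push_cast
    have hpoly : (4 * ((k : ℝ) + 1) + 1) * 9 * ((3 * k + 1) * (3 * k + 2)) ^ 2 ≤
        729 / 16 * (4 * k + 1) * ((2 * k + 2) * (2 * k + 1)) ^ 2 := by
      have h1 : 0 ≤ 72 * (k : ℝ) ^ 3 + 81 * k ^ 2 + 26 * k + 1 := by positivity
      nlinarith [h1]
    have hgoal : ((4 * ((k : ℝ) + 1) + 1) * (3 * D) ^ 2) * ((2 * k + 2) * (2 * k + 1)) ^ 2 ≤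
        ((729 / 16 : ℝ) ^ k * (729 / 16)) * ((2 * k + 2) * (2 * k + 1)) ^ 2 := by
      calc ((4 * ((k : ℝ) + 1) + 1) * (3 * D) ^ 2) * ((2 * k + 2) * (2 * k + 1)) ^ 2
          = (4 * ((k : ℝ) + 1) + 1) * 9 * (D * ((2 * k + 2) * (2 * k + 1))) ^ 2 := by ring
        _ = ((4 * ((k : ℝ) + 1) + 1) * 9 * ((3 * k + 1) * (3 * k + 2)) ^ 2) * A ^ 2 := by
            rw [hAD]; ring
        _ ≤ (729 / 16 * (4 * k + 1) * ((2 * k + 2) * (2 * k + 1)) ^ 2) * A ^ 2 :=
            mul_le_mul_of_nonneg_right hpoly (sq_nonneg A)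
        _ = (729 / 16) * ((2 * k + 2) * (2 * k + 1)) ^ 2 * ((4 * k + 1) * A ^ 2) := by ring
        _ ≤ (729 / 16) * ((2 * k + 2) * (2 * k + 1)) ^ 2 * (729 / 16 : ℝ) ^ k :=
            mul_le_mul_of_nonneg_left ih (by positivity)
        _ = _ := by ring
    exact le_of_mul_le_mul_right hgoal hpos

end Pool.Agent.MP210e22
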