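import Pool.Agent.Lib.MP_210e22_co.TA.Val
import Pool.Agent.Lib.MP_210e22_co.TA.PotBin

/-!
# The potentials
-/

namespace Pool.Agent.MP210e22

open Finset

/-- The bound for the sum of the binary digits of `c`. -/
theorem digit_pow (k c : ℕ) : (c : ℝ) ≤ fv c + (1 / 2 : ℝ) ^ k * c + (k - 1 + (1 / 2 : ℝ) ^ k) := by
  have h1 : ∀ k c : ℕ, ((Nat.digits 2 c).sum : ℝ) ≤ (1 / 2 : ℝ) ^ k * c + (k - 1 + (1 / 2) ^ k) := by
    intro k
    induction k with
    | zero =>
      intro c
      have h2 : (Nat.digits 2 c).sum ≤ c := Nat.digit_sum_le 2 c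
      have h3 : ((Nat.digits 2 c).sum : ℝ) ≤ c := by exact_mod_cast h2
      simpa using h3
    | succ k ih =>
      intro c
      have h3 := ih (c / 2)
      have h4 : (Nat.digits 2 c).sum = c % 2 + (Nat.digits 2 (c / 2)).sum := by
        rcases Nat.eq_zero_or_pos c with h | h
        · subst h
          simp
        · rw [Nat.digits_def' (by norm_num) h, List.sum_cons]
      have h5 : c % 2 + 2 * (c / 2) = c := Nat.mod_add_div c 2
      have h6 : ((c % 2 : ℕ) : ℝ) + 2 * ((c / 2 : ℕ) : ℝ) = c := by exact_mod_cast h5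
      have h7 : (1 / 2 : ℝ) ^ k ≤ 1 := pow_le_one₀ (by norm_num) (by norm_num)
      have h8 : (0 : ℝ) < (1 / 2 : ℝ) ^ k := by positivity
      rw [h4, pow_succ]
      generalize (Nat.digits 2 (c / 2)).sum = D at h3 h4 ⊢
      push_cast
      rcases Nat.mod_two_eq_zero_or_one c with h9 | h9
      · rw [h9] at h6 ⊢
        push_cast at h6 ⊢
        rw [← h6]
        nlinarith
      · rw [h9] at h6 ⊢
        push_cast at h6 ⊢
        rw [← h6]
        nlinarith
  have h2 := h1 k c
  have h3 : c ≤ fv c + (Nat.digits 2 c).sum := by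
    rw [fv_eq]
    omega
  have h4 : (c : ℝ) ≤ fv c + (Nat.digits 2 c).sum := by exact_mod_cast h3
  linarith

/-- The exponents of the potentials. -/
def kp (r b : ℕ) : ℕ :=
  if (r - 3 * b) % 2 = 0 then max 1 ((r - 3 * b) / 2) else max 1 ((r - 3 * b - 3) / 2)

/-- The potentials. -/
noncomputable def pb (r b : ℕ) : ℝ :=
  if 3 * b ≤ r then (1 / 2 : ℝ) ^ kp r b else
    if 2 * b ≤ r then 1 - (1 / 2 : ℝ) ^ (3 * b - r) else 1

/-- The losses. -/
noncomputable def gb (r b : ℕ) : ℝ :=
  if 3 * b ≤ r then (kp r b : ℝ) - 1 + (1 / 2 : ℝ) ^ kp r b else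
    if 2 * b ≤ r then (1 / 2 : ℝ) ^ (3 * b - r) else 0

theorem one_le_kp (r b : ℕ) : 1 ≤ kp r b := by
  unfold kp
  split_ifs <;> omega

theorem half_pow_anti {a b : ℕ} (h : a ≤ b) : (1 / 2 : ℝ) ^ b ≤ (1 / 2 : ℝ) ^ a :=
  pow_le_pow_of_le_one (by norm_num) (by norm_num) h

theorem half_pow_half {a : ℕ} (h : 1 ≤ a) : (1 / 2 : ℝ) ^ a ≤ 1 / 2 := by
  have := half_pow_anti h
  simpa using this

theorem pb_le_one (r b : ℕ) : pb r b ≤ 1 := by
  unfold pb
  split_ifs
  · exact pow_le_one₀ (by norm_num) (by norm_num)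
  · have : (0 : ℝ) < (1 / 2 : ℝ) ^ (3 * b - r) := by positivity
    linarith
  · exact le_refl _

theorem pb_digit (r b c : ℕ) : (c : ℝ) ≤ fv c + pb r b * c + gb r b := by
  unfold pb gb
  split_ifs with h1 h2
  · exact digit_pow _ _
  · set x := (1 / 2 : ℝ) ^ (3 * b - r) with hx
    have hx1 : x ≤ 1 / 2 := half_pow_half (by omega)
    have hx0 : 0 < x := by positivity
    have d0 := digit_pow 0 c
    have d1 := digit_pow 1 c
    simp only [pow_zero, pow_one] at d0 d1
    push_cast at d0 d1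
    nlinarith [mul_nonneg (show (0 : ℝ) ≤ 1 - 2 * x by linarith)
      (show (0 : ℝ) ≤ fv c + 1 * c + (0 - 1 + 1) - c by linarith),
      mul_nonneg (show (0 : ℝ) ≤ 2 * x by linarith)
      (show (0 : ℝ) ≤ fv c + 1 / 2 * c + (1 - 1 + 1 / 2) - c by linarith)]
  · have : (0 : ℝ) ≤ fv c := Nat.cast_nonneg _
    linarith

theorem pb_pair (r a b : ℕ) (hab : a ≤ b) (h : a + 2 * b ≤ r) : pb r a + pb r b ≤ 1 := by
  have ha : 3 * a ≤ r := by omega
  have h2b : 2 * b ≤ r := by omega
  unfold pb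
  rw [if_pos ha]
  by_cases hb : 3 * b ≤ r
  · rw [if_pos hb]
    have h1 := half_pow_half (one_le_kp r a)
    have h2 := half_pow_half (one_le_kp r b)
    linarith
  · rw [if_neg hb, if_pos h2b]
    have h1 : 3 * b - r ≤ kp r a := by
      unfold kp
      split_ifs <;> omega
    have h2 := half_pow_anti h1
    linarith

theorem pb_cov (r x y z : ℕ) (h : x + y + z ≤ r) :
    pb r y + pb r z ≤ 1 ∨ pb r x + pb r z ≤ 1 ∨ pb r x + pb r y ≤ 1 := by
  rcases le_total x y with h1 | h1
  · rcases le_total y z with h2 | h2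
    · exact Or.inr (Or.inr (pb_pair r x y h1 (by omega)))
    · rcases le_total x z with h3 | h3
      · exact Or.inr (Or.inl (pb_pair r x z h3 (by omega)))
      · refine Or.inr (Or.inl ?_)
        have := pb_pair r z x h3 (by omega)
        linarith
  · rcases le_total x z with h2 | h2
    · refine Or.inr (Or.inr ?_)
      have := pb_pair r y x h1 (by omega)
      linarith
    · rcases le_total y z with h3 | h3
      · exact Or.inl (pb_pair r y z h3 (by omega))
      · refine Or.inl ?_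
        have := pb_pair r z y h3 (by omega)
        linarith

end Pool.Agent.MP210e22
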