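import Pool.Agent.Lib.MP_210e22_co.TA.Pot
import Pool.Agent.Lib.MP_210e22_co.TA.Grp

/-!
# Divisibility for groups with a normal elementary abelian subgroup, with potentials
-/

namespace Pool.Agent.MP210e22

open Finset

theorem sum_card_sub {Q : Type} [Fintype Q] (r : ℕ) (g : ℕ → ℝ) :
    ∑ y : Q × Finset (Fin r), g y.2.card =
      Fintype.card Q * ∑ j ∈ Finset.range (r + 1), (r.choose j : ℝ) * g j := by
  classical
  rw [Fintype.sum_prod_type]
  simp only [Finset.sum_const, Finset.card_univ, nsmul_eq_mul]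
  congr 1
  rw [← Finset.sum_fiberwise_of_maps_to (s := Finset.univ) (t := Finset.range (r + 1))
    (g := fun S : Finset (Fin r) => S.card)]
  · refine Finset.sum_congr rfl fun j _ => ?_
    have h2 : (Finset.univ.filter fun S : Finset (Fin r) => S.card = j) =
        Finset.powersetCard j Finset.univ := by
      ext S
      simp [Finset.mem_powersetCard]
    rw [Finset.sum_congr h2 (g := fun _ => g j), Finset.sum_const, Finset.card_powersetCard,
      Finset.card_univ, Fintype.card_fin, nsmul_eq_mul]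
    intro S hS
    rw [(Finset.mem_powersetCard.1 hS).2]
  · intro S _
    have := Finset.card_le_univ S
    rw [Fintype.card_fin] at this
    exact Finset.mem_range.2 (by omega)

theorem sum_card_sub' {Q : Type} [Fintype Q] (r : ℕ) (g : ℕ → ℝ) :
    ∑ y : Q × Finset (Fin r), g (r - y.2.card) =
      Fintype.card Q * ∑ j ∈ Finset.range (r + 1), (r.choose j : ℝ) * g j := by
  rw [sum_card_sub r (fun j => g (r - j))]
  congr 1
  rw [← Finset.sum_range_reflect]
  refine Finset.sum_congr rfl fun j hj => ?_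
  have hj' : j ≤ r := Nat.lt_succ_iff.1 (Finset.mem_range.1 hj)
  have h1 : r + 1 - 1 - j = r - j := by omega
  have h2 : r - (r - j) = j := by omega
  rw [h1, h2, Nat.choose_symm hj']

/-- The divisibility theorem with potentials. -/
theorem grp_pot {G : Type} [Group G] [Finite G] (H : Subgroup G) [H.Normal] (r : ℕ)
    (hr : Nat.card H = 2 ^ r) (hsq : ∀ h ∈ H, h ^ 2 = 1) (p g : ℕ → ℝ)
    (hp1 : ∀ b ≤ r, p b ≤ 1)
    (hpg : ∀ b ≤ r, ∀ c : ℕ, (c : ℝ) ≤ fv c + p b * c + g b)
    (hcov : ∀ x y z : ℕ, x + y + z ≤ r → p y + p z ≤ 1 ∨ p x + p z ≤ 1 ∨ p x + p y ≤ 1) (m : ℕ)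
    (hm : (m : ℝ) + 3 * (H.index * ∑ j ∈ Finset.range (r + 1), (r.choose j : ℝ) * g j) ≤
      Nat.card G) :
    2 ^ m ∣ N G := by
  classical
  haveI : Fintype G := Fintype.ofFinite G
  haveI : Fintype (G ⧸ H) := Fintype.ofFinite _
  have hsq' : ∀ a : H, a ^ 2 = 1 := by
    intro a
    apply Subtype.ext
    simpa using hsq a a.2
  obtain ⟨φ, hφ, hb⟩ := exists_coord hsq' r hr
  have hl := lam_injective H φ hb.1
  have hρ := rho_injective H φ hb.1
  have hcard : ∀ S : Finset (Fin r), S.card ≤ r := by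
    intro S
    have := Finset.card_le_univ S
    rwa [Fintype.card_fin] at this
  refine abs_pot (I := (G ⧸ H) × Finset (Fin r)) (J := (G ⧸ H) × Finset (Fin r))
    (L := (G ⧸ H) × Finset (Fin r))
    (fun a i => P0 (lam H φ a) i) (fun b j => P0 (rho H φ b) j) (fun c l => P1 (lam H φ c) l)
    (fun i j l => cc H φ i j l) ?_
    (fun i => p i.2.card) (fun i => g i.2.card) (fun j => p j.2.card) (fun j => g j.2.card)
    (fun l => p (r - l.2.card)) (fun l => g (r - l.2.card))
    (fun i => hp1 _ (hcard _)) (fun i => hp1 _ (hcard _)) (fun i => hpg _ (hcard _))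
    (fun i => hpg _ (hcard _)) (fun i => hpg _ (Nat.sub_le _ _)) ?_ m ?_
  · intro a b c
    refine tensor_id (fun a i => P0 (lam H φ a) i) (fun a i => P1 (lam H φ a) i)
      (fun b j => P0 (rho H φ b) j) (fun b j => P1 (rho H φ b) j)
      (fun c l => P1 (lam H φ c) l) (fun c l => P0 (lam H φ c) l) ?_ ?_ ?_ a b c
    · intro a a'
      rw [dual]
      simp only [hl.eq_iff]
    · intro a a'
      rw [dual]
      simp only [hρ.eq_iff]
    · intro a a'
      rw [dual']
      simp only [hl.eq_iff]
  · intro i j l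
    by_cases h : l.2.card < i.2.card + j.2.card
    · exact Or.inr (Or.inr (Or.inr (cc_even H φ hφ hb (comm_of_sq hsq') i j l h)))
    · have hl' := hcard l.2
      rcases hcov i.2.card j.2.card (r - l.2.card) (by omega) with h1 | h1 | h1
      · exact Or.inl h1
      · exact Or.inr (Or.inl h1)
      · exact Or.inr (Or.inr (Or.inl h1))
  · have hi : Fintype.card (G ⧸ H) = H.index := by
      rw [← Nat.card_eq_fintype_card]
      rfl
    rw [sum_card_sub, sum_card_sub', hi, ← Nat.card_eq_fintype_card]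
    linarith

end Pool.Agent.MP210e22
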