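import Pool.Agent.Lib.MP_210e22_co.TA.PotSum
import Pool.Agent.Lib.MP_210e22_co.TA.Tail

/-!
# The closed form of the bound
-/

namespace Pool.Agent.MP210e22

open Finset

/-- The values of the bound of the sum of the losses. -/
noncomputable def TT (r : ℕ) : ℝ := Gd (r % 3) + 2 ^ (r % 3) / 3

theorem cube_le {x y : ℝ} (hy : 0 ≤ y) (h : x ^ 3 ≤ y ^ 3) : x ≤ y := by
  by_contra hcon
  push Not at hcon
  have h1 : y ^ 3 < x ^ 3 := pow_lt_pow_left₀ hcon hy (by norm_num)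
  linarith

theorem th_six (r : ℕ) : ((2 ^ r * th r) ^ 2) ^ 3 = (729 / 16 : ℝ) ^ r := by
  have h1 : th r ^ 6 = ((27 / 32 : ℝ) ^ 2) ^ r := by
    unfold th
    rw [← Real.rpow_natCast, ← Real.rpow_mul (by norm_num), ← pow_mul, ← Real.rpow_natCast]
    congr 1
    push_cast
    ring
  have h2 : ((2 : ℝ) ^ 6) ^ r = ((2 : ℝ) ^ r) ^ 6 := by
    rw [← pow_mul, ← pow_mul, mul_comm]
  calc ((2 ^ r * th r) ^ 2) ^ 3 = ((2 : ℝ) ^ r) ^ 6 * th r ^ 6 := by ring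
    _ = ((2 : ℝ) ^ 6) ^ r * th r ^ 6 := by rw [h2]
    _ = ((2 : ℝ) ^ 6) ^ r * ((27 / 32 : ℝ) ^ 2) ^ r := by rw [h1]
    _ = ((2 : ℝ) ^ 6 * (27 / 32) ^ 2) ^ r := by rw [mul_pow]
    _ = _ := by norm_num

theorem case_zero (k : ℕ) :
    9 * TT (3 * k) ^ 2 * ((3 * k).choose k : ℝ) ^ 2 * (3 * k) ≤ 49 * (729 / 16 : ℝ) ^ k := by
  have h0 := choose_bound k
  have hk : (0 : ℝ) ≤ k := Nat.cast_nonneg k
  have hT : TT (3 * k) = 79 / 30 := by
    unfold TT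
    rw [show 3 * k % 3 = 0 by omega]
    norm_num [Gd]
  rw [hT]
  have hA : (0 : ℝ) ≤ ((3 * k).choose k : ℝ) ^ 2 := by positivity
  nlinarith [mul_nonneg hA hk]

theorem case_one (k : ℕ) :
    9 * TT (3 * k + 1) ^ 2 * ((3 * k + 1).choose k : ℝ) ^ 2 * (3 * k + 1) ≤
      49 * (357 / 100 * (729 / 16 : ℝ) ^ k) := by
  have h0 := choose_bound k
  have hk : (0 : ℝ) ≤ k := Nat.cast_nonneg k
  have hT : TT (3 * k + 1) = 101 / 30 := by
    unfold TT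
    rw [show (3 * k + 1) % 3 = 1 by omega]
    norm_num [Gd]
  rw [hT]
  have e1 : ((3 * k + 1).choose k : ℝ) * (2 * k + 1) = (3 * k).choose k * (3 * k + 1) := by
    exact_mod_cast choose_one k
  set A : ℝ := ((3 * k).choose k : ℝ) with hA
  set B : ℝ := ((3 * k + 1).choose k : ℝ) with hB
  have hpos : (0 : ℝ) < (2 * k + 1) ^ 2 := by positivity
  have hpoly : 9 * (101 / 30 : ℝ) ^ 2 * (3 * k + 1) ^ 3 ≤
      49 * (357 / 100) * (2 * k + 1) ^ 2 * (4 * k + 1) := by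
    have h1 : (0 : ℝ) ≤ (k : ℝ) ^ 3 := by positivity
    have h2 : (0 : ℝ) ≤ (k : ℝ) ^ 2 := by positivity
    nlinarith
  have hgoal : (9 * (101 / 30 : ℝ) ^ 2 * B ^ 2 * (3 * k + 1)) * (2 * k + 1) ^ 2 ≤
      (49 * (357 / 100 * (729 / 16 : ℝ) ^ k)) * (2 * k + 1) ^ 2 := by
    calc (9 * (101 / 30 : ℝ) ^ 2 * B ^ 2 * (3 * k + 1)) * (2 * k + 1) ^ 2
        = 9 * (101 / 30 : ℝ) ^ 2 * (3 * k + 1) * (B * (2 * k + 1)) ^ 2 := by ring
      _ = (9 * (101 / 30 : ℝ) ^ 2 * (3 * k + 1) ^ 3) * A ^ 2 := by rw [e1]; ring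
      _ ≤ (49 * (357 / 100) * (2 * k + 1) ^ 2 * (4 * k + 1)) * A ^ 2 :=
          mul_le_mul_of_nonneg_right hpoly (sq_nonneg A)
      _ = (49 * (357 / 100) * (2 * k + 1) ^ 2) * ((4 * k + 1) * A ^ 2) := by ring
      _ ≤ (49 * (357 / 100) * (2 * k + 1) ^ 2) * (729 / 16 : ℝ) ^ k :=
          mul_le_mul_of_nonneg_left h0 (by positivity)
      _ = _ := by ring
  exact le_of_mul_le_mul_right hgoal hpos

theorem case_two (k : ℕ) :
    9 * TT (3 * k + 2) ^ 2 * ((3 * k + 2).choose k : ℝ) ^ 2 * (3 * k + 2) ≤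
      49 * (637 / 50 * (729 / 16 : ℝ) ^ k) := by
  have h0 := choose_bound k
  have hk : (0 : ℝ) ≤ k := Nat.cast_nonneg k
  have hT : TT (3 * k + 2) ≤ 411 / 100 := by
    unfold TT
    rw [show (3 * k + 2) % 3 = 2 by omega]
    norm_num [Gd]
  have hT0 : 0 ≤ TT (3 * k + 2) := by
    unfold TT
    have := Gd_nonneg ((3 * k + 2) % 3)
    positivity
  have hT2 : TT (3 * k + 2) ^ 2 ≤ (411 / 100) ^ 2 := pow_le_pow_left₀ hT0 hT 2
  have e1 : ((3 * k + 1).choose k : ℝ) * (2 * k + 1) = (3 * k).choose k * (3 * k + 1) := by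
    exact_mod_cast choose_one k
  have e2 : ((3 * k + 2).choose k : ℝ) * (2 * k + 2) = (3 * k + 1).choose k * (3 * k + 2) := by
    exact_mod_cast choose_two k
  set A : ℝ := ((3 * k).choose k : ℝ) with hA
  set B : ℝ := ((3 * k + 1).choose k : ℝ) with hB
  set D : ℝ := ((3 * k + 2).choose k : ℝ) with hD
  have hAD : D * ((2 * k + 2) * (2 * k + 1)) = A * ((3 * k + 1) * (3 * k + 2)) := by
    calc D * ((2 * (k : ℝ) + 2) * (2 * k + 1)) = (D * (2 * k + 2)) * (2 * k + 1) := by ring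
      _ = (B * (2 * k + 1)) * (3 * k + 2) := by rw [e2]; ring
      _ = _ := by rw [e1]; ring
  have hpos : (0 : ℝ) < ((2 * k + 2) * (2 * k + 1)) ^ 2 := by positivity
  have hpoly : 9 * (411 / 100 : ℝ) ^ 2 * ((3 * k + 1) * (3 * k + 2)) ^ 2 * (3 * k + 2) ≤
      49 * (637 / 50) * ((2 * k + 2) * (2 * k + 1)) ^ 2 * (4 * k + 1) := by
    have h1 : (0 : ℝ) ≤ (k : ℝ) ^ 5 := by positivity
    have h2 : (0 : ℝ) ≤ (k : ℝ) ^ 4 := by positivity
    have h3 : (0 : ℝ) ≤ (k : ℝ) ^ 3 := by positivity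
    have h4 : (0 : ℝ) ≤ (k : ℝ) ^ 2 := by positivity
    nlinarith
  have hgoal : (9 * TT (3 * k + 2) ^ 2 * D ^ 2 * (3 * k + 2)) *
      ((2 * k + 2) * (2 * k + 1)) ^ 2 ≤
      (49 * (637 / 50 * (729 / 16 : ℝ) ^ k)) * ((2 * k + 2) * (2 * k + 1)) ^ 2 := by
    calc (9 * TT (3 * k + 2) ^ 2 * D ^ 2 * (3 * k + 2)) * ((2 * k + 2) * (2 * k + 1)) ^ 2
        = TT (3 * k + 2) ^ 2 * (9 * (3 * k + 2) * (D * ((2 * k + 2) * (2 * k + 1))) ^ 2) := by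
          ring
      _ ≤ (411 / 100) ^ 2 * (9 * (3 * k + 2) * (D * ((2 * k + 2) * (2 * k + 1))) ^ 2) :=
          mul_le_mul_of_nonneg_right hT2 (by positivity)
      _ = (9 * (411 / 100 : ℝ) ^ 2 * ((3 * k + 1) * (3 * k + 2)) ^ 2 * (3 * k + 2)) * A ^ 2 := by
          rw [hAD]; ring
      _ ≤ (49 * (637 / 50) * ((2 * k + 2) * (2 * k + 1)) ^ 2 * (4 * k + 1)) * A ^ 2 :=
          mul_le_mul_of_nonneg_right hpoly (sq_nonneg A)
      _ = (49 * (637 / 50) * ((2 * k + 2) * (2 * k + 1)) ^ 2) * ((4 * k + 1) * A ^ 2) := by ring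
      _ ≤ (49 * (637 / 50) * ((2 * k + 2) * (2 * k + 1)) ^ 2) * (729 / 16 : ℝ) ^ k :=
          mul_le_mul_of_nonneg_left h0 (by positivity)
      _ = _ := by ring
  exact le_of_mul_le_mul_right hgoal hpos

theorem sq_bound (r : ℕ) :
    9 * TT r ^ 2 * (r.choose (r / 3) : ℝ) ^ 2 * r ≤ 49 * (2 ^ r * th r) ^ 2 := by
  have hy : 0 ≤ (2 ^ r * th r) ^ 2 := by positivity
  have h6 := th_six r
  have hmod : r % 3 = 0 ∨ r % 3 = 1 ∨ r % 3 = 2 := by omega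
  rcases hmod with h | h | h
  · obtain ⟨k, rfl⟩ : ∃ k, r = 3 * k := ⟨r / 3, by omega⟩
    have h1 := case_zero k
    rw [show 3 * k / 3 = k by omega]
    have h2 : (729 / 16 : ℝ) ^ k ≤ (2 ^ (3 * k) * th (3 * k)) ^ 2 := by
      apply cube_le hy
      rw [h6, ← pow_mul, mul_comm k 3]
    push_cast at h1 ⊢
    linarith
  · obtain ⟨k, rfl⟩ : ∃ k, r = 3 * k + 1 := ⟨r / 3, by omega⟩
    have h1 := case_one k
    rw [show (3 * k + 1) / 3 = k by omega]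
    have h2 : 357 / 100 * (729 / 16 : ℝ) ^ k ≤ (2 ^ (3 * k + 1) * th (3 * k + 1)) ^ 2 := by
      apply cube_le hy
      rw [h6, mul_pow, ← pow_mul, mul_comm k 3, pow_add (729 / 16 : ℝ) (3 * k) 1]
      have h3 : (0 : ℝ) ≤ (729 / 16 : ℝ) ^ (3 * k) := by positivity
      nlinarith
    push_cast at h1 ⊢
    linarith
  · obtain ⟨k, rfl⟩ : ∃ k, r = 3 * k + 2 := ⟨r / 3, by omega⟩
    have h1 := case_two k
    rw [show (3 * k + 2) / 3 = k by omega]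
    have h2 : 637 / 50 * (729 / 16 : ℝ) ^ k ≤ (2 ^ (3 * k + 2) * th (3 * k + 2)) ^ 2 := by
      apply cube_le hy
      rw [h6, mul_pow, ← pow_mul, mul_comm k 3, pow_add (729 / 16 : ℝ) (3 * k) 2]
      have h3 : (0 : ℝ) ≤ (729 / 16 : ℝ) ^ (3 * k) := by positivity
      nlinarith
    push_cast at h1 ⊢
    linarith

/-- The error term. -/
noncomputable def er (r : ℕ) : ℝ := 7 * (27 / 32 : ℝ) ^ ((r : ℝ) / 3) / √(r : ℝ)

theorem loss_le (r : ℕ) (hr : 1 ≤ r) :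
    3 * ∑ b ∈ Finset.range (r + 1), (r.choose b : ℝ) * gb r b ≤ 2 ^ r * er r := by
  have h1 := total_sum r
  have h2 := sq_bound r
  have hr0 : (0 : ℝ) < r := by exact_mod_cast hr
  have hs : 0 < √(r : ℝ) := Real.sqrt_pos.2 hr0
  have hth := th_pos r
  have h3 : 3 * (TT r * (r.choose (r / 3) : ℝ)) * √(r : ℝ) ≤ 7 * (2 ^ r * th r) := by
    apply le_of_sq_le_sq _ (by positivity)
    calc (3 * (TT r * (r.choose (r / 3) : ℝ)) * √(r : ℝ)) ^ 2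
        = 9 * TT r ^ 2 * (r.choose (r / 3) : ℝ) ^ 2 * (√(r : ℝ)) ^ 2 := by ring
      _ = 9 * TT r ^ 2 * (r.choose (r / 3) : ℝ) ^ 2 * r := by rw [Real.sq_sqrt hr0.le]
      _ ≤ 49 * (2 ^ r * th r) ^ 2 := h2
      _ = _ := by ring
  have h4 : 3 * (TT r * (r.choose (r / 3) : ℝ)) ≤ 7 * (2 ^ r * th r) / √(r : ℝ) := by
    rw [le_div_iff₀ hs]
    exact h3
  have h5 : 2 ^ r * er r = 7 * (2 ^ r * th r) / √(r : ℝ) := by
    unfold er th
    ring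
  rw [h5]
  refine le_trans ?_ h4
  unfold TT
  linarith

theorem er_anti {r r' : ℕ} (hr : 1 ≤ r) (h : r ≤ r') : er r' ≤ er r := by
  unfold er
  have hr0 : (0 : ℝ) < r := by exact_mod_cast hr
  have hrr : (r : ℝ) ≤ r' := by exact_mod_cast h
  have h1 : (27 / 32 : ℝ) ^ ((r' : ℝ) / 3) ≤ (27 / 32 : ℝ) ^ ((r : ℝ) / 3) :=
    Real.rpow_le_rpow_of_exponent_ge (by norm_num) (by norm_num) (by linarith)
  have h2 : √(r : ℝ) ≤ √(r' : ℝ) := Real.sqrt_le_sqrt hrr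
  have hs : 0 < √(r : ℝ) := Real.sqrt_pos.2 hr0
  have h3 : (0 : ℝ) ≤ (27 / 32 : ℝ) ^ ((r : ℝ) / 3) := by positivity
  exact div_le_div₀ (by positivity) (by linarith) hs h2

end Pool.Agent.MP210e22
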