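import Pool.Agent.Lib.MP_210e22_co.TA.Large
import Pool.Agent.Lib.MP_210e22_co.TA.Main

/-!
# 2-groups with a large subgroup of small exponent
-/

namespace Pool.Agent.MP210e22

section

open scoped IsMulCommutative

variable {G : Type} [Group G] [Finite G] (A : Subgroup G) [hN : A.Normal] [IsMulCommutative A]

/-- The elements of `X` which centralize the subgroup `B` of `A`. -/
def cen (X : Subgroup G) (B : Subgroup A) : Subgroup G :=
  X ⊓ Subgroup.centralizer ((B.map A.subtype : Subgroup G) : Set G)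

omit [Finite G] hN [IsMulCommutative A] in
theorem mem_cen (X : Subgroup G) (B : Subgroup A) (z : G) :
    z ∈ cen A X B ↔ z ∈ X ∧ ∀ a : A, a ∈ B → z * (a : G) = (a : G) * z := by
  unfold cen
  rw [Subgroup.mem_inf, Subgroup.mem_centralizer_iff]
  refine and_congr_right fun _ => ?_
  constructor
  · intro h a ha
    exact (h (a : G) (Subgroup.mem_map.2 ⟨a, ha, rfl⟩)).symm
  · rintro h _ ⟨a, ha, rfl⟩
    exact (h a ha).symm

theorem card_tor_le (r : ℕ) (hr : Nat.card {a : A // a ^ 2 = 1} = 2 ^ r) (e : ℕ) :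
    Nat.card (tor A (2 ^ e)) ≤ 2 ^ (e * r) := by
  have h1 := card_le_pow e (tor A (2 ^ e)) (fun a => Subtype.ext ((mem_tor A (2 ^ e) a).1 a.2))
  have h2 : Nat.card {b : tor A (2 ^ e) // b ^ 2 = 1} ≤ 2 ^ r := by
    rw [← hr]
    refine Nat.card_le_card_of_injective
      (fun b => ⟨(b.1 : A), by simpa using congrArg (fun z : tor A (2 ^ e) => (z : A)) b.2⟩) ?_
    intro a b hab
    simp only [Subtype.mk.injEq] at hab
    exact Subtype.ext (Subtype.ext hab)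
  calc Nat.card (tor A (2 ^ e)) ≤ _ := h1
    _ ≤ (2 ^ r) ^ e := Nat.pow_le_pow_left h2 e
    _ = 2 ^ (e * r) := by rw [← pow_mul, mul_comm]

theorem sub_bound (k : ℕ) (hkA : Nat.card A = 2 ^ k) (r : ℕ)
    (hr : Nat.card {a : A // a ^ 2 = 1} = 2 ^ r)
    (hmax : ∀ x, (∀ a ∈ A, a * x = x * a) → x ∈ A) (e : ℕ) (X : Subgroup G)
    (hX : ∀ x ∈ X, x ^ (2 ^ e) = 1) :
    Nat.card X ≤ 2 ^ (e * r + (e + 2) * r ^ 2) := by
  have hG : IsPGroup 2 A := IsPGroup.of_card hkA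
  haveI : Fact (Nat.Prime 2) := ⟨Nat.prime_two⟩
  have hhom : ∀ (B : Subgroup A) (f : ℕ), Nat.card (B →* tor A (2 ^ f)) ≤ 2 ^ (f * r ^ 2) := by
    intro B f
    obtain ⟨kB, hkB⟩ := IsPGroup.iff_card.1 (hG.to_subgroup B)
    have h1 : Nat.card {b : B // b ^ 2 = 1} ≤ 2 ^ r := by
      rw [← hr]
      refine Nat.card_le_card_of_injective
        (fun b => ⟨(b.1 : A), by simpa using congrArg (fun z : B => (z : A)) b.2⟩) ?_
      intro a b hab
      simp only [Subtype.mk.injEq] at hab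
      exact Subtype.ext (Subtype.ext hab)
    have h2 := card_hom_le (A := B) (C := tor A (2 ^ f)) kB hkB r h1
    calc Nat.card (B →* tor A (2 ^ f)) ≤ Nat.card (tor A (2 ^ f)) ^ r := h2
      _ ≤ (2 ^ (f * r)) ^ r := Nat.pow_le_pow_left (card_tor_le A r hr f) r
      _ = 2 ^ (f * r ^ 2) := by
        rw [← pow_mul]
        congr 1
        ring
  have h2e : (2 : ℕ) ^ 1 = 2 := by norm_num
  -- first level
  have hl1 : Nat.card X ≤ Nat.card (cen A X (tor A 2)) * 2 ^ (1 * r ^ 2) := by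
    refine level A X (cen A X (tor A 2)) (tor A 2) (tor A (2 ^ 1)) _ (hhom _ 1) ?_ ?_
    · intro x _ a ha
      rw [mem_tor] at ha
      rw [mem_tor, h2e]
      show (cj A x a * a⁻¹) ^ 2 = 1
      rw [mul_pow, inv_pow, ← cj_pow, ha]
      apply Subtype.ext
      simp [cj]
    · intro z hz h
      exact (mem_cen A X (tor A 2) z).2 ⟨hz, h⟩
  -- second level
  have hl2 : Nat.card (cen A X (tor A 2)) ≤ Nat.card (cen A X (tor A 4)) * 2 ^ (1 * r ^ 2) := by
    refine level A _ (cen A X (tor A 4)) (tor A 4) (tor A (2 ^ 1)) _ (hhom _ 1) ?_ ?_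
    · intro x hx a ha
      rw [mem_tor] at ha
      rw [mem_tor, h2e]
      show (cj A x a * a⁻¹) ^ 2 = 1
      rw [mul_pow, inv_pow, ← cj_pow]
      have h1 := ((mem_cen A X (tor A 2) x).1 hx).2 (a ^ 2) (by
        rw [mem_tor, ← pow_mul]
        exact ha)
      have h3 : cj A x (a ^ 2) = a ^ 2 := by
        apply Subtype.ext
        show x * ((a ^ 2 : A) : G) * x⁻¹ = ((a ^ 2 : A) : G)
        rw [h1, mul_inv_cancel_right]
      rw [h3]
      exact mul_inv_cancel _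
    · intro z hz h
      exact (mem_cen A X (tor A 4) z).2 ⟨((mem_cen A X (tor A 2) z).1 hz).1, h⟩
  -- third level
  have hl3 : Nat.card (cen A X (tor A 4)) ≤ Nat.card (cen A X ⊤) * 2 ^ (e * r ^ 2) := by
    refine level A _ (cen A X ⊤) ⊤ (tor A (2 ^ e)) _ (hhom _ e) ?_ ?_
    · intro x hx a _
      have h1 := (mem_cen A X (tor A 4) x).1 hx
      rw [mem_tor]
      refine comm_pow A k hkA e x (hX x h1.1) ?_ a
      intro b hb
      apply Subtype.ext
      show x * (b : G) * x⁻¹ = (b : G)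
      rw [h1.2 b ((mem_tor A 4 b).2 hb), mul_inv_cancel_right]
    · intro z hz h
      exact (mem_cen A X ⊤ z).2 ⟨((mem_cen A X (tor A 4) z).1 hz).1, h⟩
  have hl4 : Nat.card (cen A X ⊤) ≤ 2 ^ (e * r) := by
    refine le_trans ?_ (card_tor_le A r hr e)
    have h1 : ∀ x : cen A X ⊤, (x : G) ∈ A := by
      intro x
      apply hmax
      intro a ha
      exact (((mem_cen A X ⊤ x).1 x.2).2 ⟨a, ha⟩ (Subgroup.mem_top _)).symm
    refine Nat.card_le_card_of_injective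
      (fun x => ⟨⟨(x : G), h1 x⟩, (mem_tor A (2 ^ e) _).2
        (Subtype.ext (hX x ((mem_cen A X ⊤ x).1 x.2).1))⟩) ?_
    intro x y hxy
    simp only [Subtype.mk.injEq] at hxy
    exact Subtype.ext hxy
  calc Nat.card X ≤ Nat.card (cen A X (tor A 2)) * 2 ^ (1 * r ^ 2) := hl1
    _ ≤ (Nat.card (cen A X (tor A 4)) * 2 ^ (1 * r ^ 2)) * 2 ^ (1 * r ^ 2) :=
        Nat.mul_le_mul_right _ hl2
    _ ≤ ((Nat.card (cen A X ⊤) * 2 ^ (e * r ^ 2)) * 2 ^ (1 * r ^ 2)) * 2 ^ (1 * r ^ 2) :=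
        Nat.mul_le_mul_right _ (Nat.mul_le_mul_right _ hl3)
    _ ≤ ((2 ^ (e * r) * 2 ^ (e * r ^ 2)) * 2 ^ (1 * r ^ 2)) * 2 ^ (1 * r ^ 2) :=
        Nat.mul_le_mul_right _ (Nat.mul_le_mul_right _ (Nat.mul_le_mul_right _ hl4))
    _ = 2 ^ (e * r + (e + 2) * r ^ 2) := by
        rw [← pow_add, ← pow_add, ← pow_add]
        congr 1
        ring

end

/-- A finite 2-group with a subgroup of order `2 ^ K` and exponent dividing `2 ^ e` has a normal
elementary abelian subgroup of order `2 ^ r` with `K ≤ e * r + (e + 2) * r ^ 2`. -/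
theorem exists_normal_of_sub {G : Type} [Group G] [Finite G] (hG : IsPGroup 2 G)
    (X : Subgroup G) (K e : ℕ) (hK : Nat.card X = 2 ^ K) (hX : ∀ x ∈ X, x ^ (2 ^ e) = 1) :
    ∃ (H : Subgroup G) (r : ℕ), H.Normal ∧ Nat.card H = 2 ^ r ∧ (∀ h ∈ H, h ^ 2 = 1) ∧
      K ≤ e * r + (e + 2) * r ^ 2 := by
  haveI : Fact (Nat.Prime 2) := ⟨Nat.prime_two⟩
  haveI : Group.IsNilpotent G := hG.isNilpotent
  obtain ⟨A, hN, hab, hmax⟩ := exists_max_ab G
  haveI : IsMulCommutative A := ⟨⟨fun a b => Subtype.ext (hab a a.2 b b.2)⟩⟩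
  let H : Subgroup G :=
    { carrier := {g | g ∈ A ∧ g ^ 2 = 1}
      mul_mem' := by
        rintro a b ⟨ha, ha2⟩ ⟨hb, hb2⟩
        refine ⟨A.mul_mem ha hb, ?_⟩
        rw [(show Commute a b from hab a ha b hb).mul_pow, ha2, hb2, one_mul]
      one_mem' := ⟨A.one_mem, one_pow 2⟩
      inv_mem' := by
        rintro a ⟨ha, ha2⟩
        exact ⟨A.inv_mem ha, by rw [inv_pow, ha2, inv_one]⟩ }
  have hHmem : ∀ g, g ∈ H ↔ g ∈ A ∧ g ^ 2 = 1 := fun g => Iff.rfl
  obtain ⟨r, hr⟩ := (IsPGroup.iff_card.1 (hG.to_subgroup H))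
  obtain ⟨kA, hkA⟩ := (IsPGroup.iff_card.1 (hG.to_subgroup A))
  have h3 : Nat.card {a : A // a ^ 2 = 1} = Nat.card H := by
    apply Nat.card_congr
    refine ⟨fun a => ⟨a.1, (hHmem _).2 ⟨a.1.2, by
      simpa using congrArg (fun z : A => (z : G)) a.2⟩⟩,
      fun g => ⟨⟨g.1, ((hHmem _).1 g.2).1⟩, Subtype.ext (by simpa using ((hHmem _).1 g.2).2)⟩,
      fun a => rfl, fun g => rfl⟩
  have h4 := sub_bound A kA hkA r (h3.trans hr) hmax e X hX
  refine ⟨H, r, ?_, hr, fun h hh => ((hHmem h).1 hh).2, ?_⟩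
  · refine ⟨fun n hn g => ?_⟩
    rw [hHmem] at hn ⊢
    refine ⟨hN.conj_mem n hn.1 g, ?_⟩
    rw [conj_pow, hn.2]
    group
  · rw [hK] at h4
    exact (Nat.pow_le_pow_iff_right (by norm_num)).1 h4

theorem large_sub {G : Type} [Group G] [Finite G] (hG : IsPGroup 2 G) (X : Subgroup G)
    (K e : ℕ) (hK : Nat.card X = 2 ^ K) (hX : ∀ x ∈ X, x ^ (2 ^ e) = 1) (r m : ℕ)
    (hr : e * (r - 1) + (e + 2) * (r - 1) ^ 2 < K)
    (hm : (m : ℝ) ≤ Nat.card G * (1 - ((r : ℝ) / 4 + 6) * th r)) : 2 ^ m ∣ N G := by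
  obtain ⟨H, r', hN, hr', hsq, hle⟩ := exists_normal_of_sub hG X K e hK hX
  have hrr : r ≤ r' := by
    by_contra hcon
    push Not at hcon
    have h0 : r' ≤ r - 1 := by omega
    have h1 := Nat.mul_le_mul_left (e + 2) (Nat.pow_le_pow_left h0 2)
    have h2 := Nat.mul_le_mul_left e h0
    omega
  refine normal_elementary H hN r' hr' hsq m (hm.trans ?_)
  have h3 := err_anti hrr
  have h4 : (0 : ℝ) ≤ Nat.card G := Nat.cast_nonneg _
  apply mul_le_mul_of_nonneg_left _ h4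
  linarith

end Pool.Agent.MP210e22
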