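import Pool.Agent.Lib.MP_210e22_co.TA.PotGrp
import Pool.Agent.Lib.MP_210e22_co.TA.PotNum
import Pool.Agent.Lib.MP_210e22_co.TA.Rank2

/-!
# The explicit bounds
-/

namespace Pool.Agent.MP210e22

theorem normal_pot {G : Type} [Group G] [Finite G] (H : Subgroup G) (hN : H.Normal)
    (r : ℕ) (hr : Nat.card H = 2 ^ r) (hsq : ∀ h ∈ H, h ^ 2 = 1) (hr1 : 1 ≤ r) (m : ℕ)
    (hm : (m : ℝ) ≤ Nat.card G * (1 - er r)) : 2 ^ m ∣ N G := by
  have hi : H.index * 2 ^ r = Nat.card G := by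
    rw [← hr, mul_comm, Subgroup.card_mul_index]
  have hi' : (H.index : ℝ) * 2 ^ r = Nat.card G := by exact_mod_cast hi
  refine grp_pot H r hr hsq (pb r) (gb r) (fun b _ => pb_le_one r b)
    (fun b _ c => pb_digit r b c) (pb_cov r) m ?_
  have h1 := loss_le r hr1
  have h2 : (H.index : ℝ) * (3 * ∑ b ∈ Finset.range (r + 1), (r.choose b : ℝ) * gb r b) ≤
      H.index * (2 ^ r * er r) := mul_le_mul_of_nonneg_left h1 (Nat.cast_nonneg _)
  have h3 : (H.index : ℝ) * (2 ^ r * er r) = Nat.card G * er r := by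
    rw [← hi']
    ring
  rw [h3] at h2
  linarith

theorem large_pot {G : Type} [Group G] [Finite G] (hG : IsPGroup 2 G) (X : Subgroup G)
    (K e : ℕ) (hK : Nat.card X = 2 ^ K) (hX : ∀ x ∈ X, x ^ (2 ^ e) = 1) (r m : ℕ) (hr1 : 1 ≤ r)
    (hr : e * (r - 1) + (e + 2) * (r - 1) ^ 2 < K)
    (hm : (m : ℝ) ≤ Nat.card G * (1 - er r)) : 2 ^ m ∣ N G := by
  obtain ⟨H, r', hN, hr', hsq, hle⟩ := exists_normal_of_sub hG X K e hK hX
  have hrr : r ≤ r' := by
    by_contra hcon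
    push Not at hcon
    have h0 : r' ≤ r - 1 := by omega
    have h1 := Nat.mul_le_mul_left (e + 2) (Nat.pow_le_pow_left h0 2)
    have h2 := Nat.mul_le_mul_left e h0
    omega
  refine normal_pot H hN r' hr' hsq (hr1.trans hrr) m (hm.trans ?_)
  have h3 := er_anti hr1 hrr
  have h4 : (0 : ℝ) ≤ Nat.card G := Nat.cast_nonneg _
  apply mul_le_mul_of_nonneg_left _ h4
  linarith

end Pool.Agent.MP210e22
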