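import Pool.Agent.Lib.MP_210e22_co.TA.PotFun

/-!
# The sum of the losses
-/

namespace Pool.Agent.MP210e22

open Finset

/-- The exponent as a function of `r - 3 * b`. -/
def kd (δ : ℕ) : ℕ := if δ % 2 = 0 then max 1 (δ / 2) else max 1 ((δ - 3) / 2)

/-- The loss as a function of `r - 3 * b`. -/
noncomputable def hd (δ : ℕ) : ℝ := (kd δ : ℝ) - 1 + (1 / 2 : ℝ) ^ kd δ

/-- A bound for the weighted sum of the losses. -/
noncomputable def Gd (δ : ℕ) : ℝ :=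
  if δ = 0 then 23 / 10 else if δ = 1 then 27 / 10 else if δ = 3 then 36 / 10 else
    if δ % 2 = 0 then (δ : ℝ) + 48 / 31 * (1 / 2 : ℝ) ^ (δ / 2) else
      (δ : ℝ) - 1 + 34 / 31 * (1 / 2 : ℝ) ^ ((δ - 3) / 2)

theorem Gd_even (k : ℕ) (hk : 1 ≤ k) : Gd (2 * k) = 2 * k + 48 / 31 * (1 / 2 : ℝ) ^ k := by
  unfold Gd
  rw [if_neg (by omega), if_neg (by omega), if_neg (by omega), if_pos (by omega),
    Nat.mul_div_cancel_left k (by norm_num)]
  push_cast
  ring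

theorem Gd_odd (k : ℕ) (hk : 1 ≤ k) :
    Gd (2 * k + 3) = 2 * k + 2 + 34 / 31 * (1 / 2 : ℝ) ^ k := by
  unfold Gd
  rw [if_neg (by omega), if_neg (by omega), if_neg (by omega), if_neg (by omega),
    show (2 * k + 3 - 3) / 2 = k by omega]
  push_cast
  ring

theorem kd_even (k : ℕ) (hk : 1 ≤ k) : kd (2 * k) = k := by
  unfold kd
  rw [if_pos (by omega)]
  omega

theorem kd_odd (k : ℕ) (hk : 1 ≤ k) : kd (2 * k + 3) = k := by
  unfold kd
  rw [if_neg (by omega)]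
  omega

theorem Gd_step (δ : ℕ) : hd δ + Gd (δ + 3) / 2 ≤ Gd δ := by
  by_cases h0 : δ = 0
  · subst h0
    norm_num [hd, kd, Gd]
  by_cases h1 : δ = 1
  · subst h1
    norm_num [hd, kd, Gd]
  by_cases h3 : δ = 3
  · subst h3
    norm_num [hd, kd, Gd]
  rcases Nat.even_or_odd' δ with ⟨k, hk | hk⟩
  · have hk1 : 1 ≤ k := by omega
    have e1 : hd δ = (k : ℝ) - 1 + (1 / 2 : ℝ) ^ k := by
      unfold hd
      rw [hk, kd_even k hk1]
    have e2 : Gd (δ + 3) = 2 * k + 2 + 34 / 31 * (1 / 2 : ℝ) ^ k := by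
      rw [hk, Gd_odd k hk1]
    have e3 : Gd δ = 2 * k + 48 / 31 * (1 / 2 : ℝ) ^ k := by
      rw [hk, Gd_even k hk1]
    rw [e1, e2, e3]
    linarith
  · obtain ⟨i, hi, hi1⟩ : ∃ i, δ = 2 * i + 3 ∧ 1 ≤ i := ⟨k - 1, by omega, by omega⟩
    have e1 : hd δ = (i : ℝ) - 1 + (1 / 2 : ℝ) ^ i := by
      unfold hd
      rw [hi, kd_odd i hi1]
    have e2 : Gd (δ + 3) = 2 * (i + 3) + 48 / 31 * ((1 / 2 : ℝ) ^ i / 8) := by
      have h4 : δ + 3 = 2 * (i + 3) := by omega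
      rw [h4, Gd_even (i + 3) (by omega), pow_add]
      push_cast
      ring
    have e3 : Gd δ = 2 * i + 2 + 34 / 31 * (1 / 2 : ℝ) ^ i := by
      rw [hi, Gd_odd i hi1]
    rw [e1, e2, e3]
    linarith

theorem Gd_nonneg (δ : ℕ) : 0 ≤ Gd δ := by
  unfold Gd
  split_ifs with h0 h1 h3 h4
  · norm_num
  · norm_num
  · norm_num
  · positivity
  · have h5 : (1 : ℝ) ≤ δ := by exact_mod_cast (show 1 ≤ δ by omega)
    have h6 : (0 : ℝ) < (1 / 2 : ℝ) ^ ((δ - 3) / 2) := by positivity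
    linarith

theorem sum_hd (M δ : ℕ) : ∑ j ∈ Finset.range M, (1 / 2 : ℝ) ^ j * hd (δ + 3 * j) ≤ Gd δ := by
  induction M generalizing δ with
  | zero => simpa using Gd_nonneg δ
  | succ M ih =>
    rw [Finset.sum_range_succ']
    have h1 : ∑ j ∈ Finset.range M, (1 / 2 : ℝ) ^ (j + 1) * hd (δ + 3 * (j + 1)) =
        1 / 2 * ∑ j ∈ Finset.range M, (1 / 2 : ℝ) ^ j * hd (δ + 3 + 3 * j) := by
      rw [Finset.mul_sum]
      refine Finset.sum_congr rfl fun j _ => ?_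
      rw [pow_succ, show δ + 3 * (j + 1) = δ + 3 + 3 * j by ring]
      ring
    rw [h1]
    have h2 := ih (δ + 3)
    have h3 := Gd_step δ
    simp only [pow_zero, one_mul, Nat.mul_zero, Nat.add_zero]
    linarith

theorem hd_nonneg (δ : ℕ) : 0 ≤ hd δ := by
  unfold hd
  have h1 : 1 ≤ kd δ := by
    unfold kd
    split_ifs <;> omega
  have h2 : (1 : ℝ) ≤ kd δ := by exact_mod_cast h1
  have h3 : (0 : ℝ) < (1 / 2 : ℝ) ^ kd δ := by positivity
  linarith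

theorem low_sum (r : ℕ) :
    ∑ b ∈ Finset.range (r / 3 + 1), (r.choose b : ℝ) * gb r b ≤
      (r.choose (r / 3) : ℝ) * Gd (r % 3) := by
  rw [← Finset.sum_range_reflect]
  have h1 : ∀ j ∈ Finset.range (r / 3 + 1),
      (r.choose (r / 3 + 1 - 1 - j) : ℝ) * gb r (r / 3 + 1 - 1 - j) ≤
      (r.choose (r / 3) : ℝ) * ((1 / 2 : ℝ) ^ j * hd (r % 3 + 3 * j)) := by
    intro j hj
    have hj' : j ≤ r / 3 := Nat.lt_succ_iff.1 (Finset.mem_range.1 hj)
    have e0 : r / 3 + 1 - 1 - j = r / 3 - j := by omega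
    rw [e0]
    have e1 : gb r (r / 3 - j) = hd (r % 3 + 3 * j) := by
      have e2 : r - 3 * (r / 3 - j) = r % 3 + 3 * j := by omega
      unfold gb hd
      rw [if_pos (by omega)]
      have e3 : kp r (r / 3 - j) = kd (r % 3 + 3 * j) := by
        unfold kp kd
        rw [e2]
      rw [e3]
    rw [e1]
    have h2 := choose_low r j hj'
    have h3 : (r.choose (r / 3 - j) : ℝ) * 2 ^ j ≤ r.choose (r / 3) := by exact_mod_cast h2
    have h4 : (r.choose (r / 3 - j) : ℝ) ≤ r.choose (r / 3) * (1 / 2 : ℝ) ^ j := by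
      have h5 : (2 : ℝ) ^ j * (1 / 2 : ℝ) ^ j = 1 := by
        rw [← mul_pow]
        norm_num
      calc (r.choose (r / 3 - j) : ℝ) = (r.choose (r / 3 - j) : ℝ) * (2 ^ j * (1 / 2 : ℝ) ^ j) := by
            rw [h5, mul_one]
        _ = ((r.choose (r / 3 - j) : ℝ) * 2 ^ j) * (1 / 2 : ℝ) ^ j := by ring
        _ ≤ _ := mul_le_mul_of_nonneg_right h3 (by positivity)
    rw [← mul_assoc]
    exact mul_le_mul_of_nonneg_right h4 (hd_nonneg _)
  refine (Finset.sum_le_sum h1).trans ?_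
  rw [← Finset.mul_sum]
  exact mul_le_mul_of_nonneg_left (sum_hd _ _) (Nat.cast_nonneg _)

theorem quarter_sum (M : ℕ) : ∑ j ∈ Finset.range M, (1 / 4 : ℝ) ^ (j + 1) ≤ 1 / 3 := by
  have h : ∑ j ∈ Finset.range M, (1 / 4 : ℝ) ^ (j + 1) = 1 / 3 - 1 / 3 * (1 / 4 : ℝ) ^ M := by
    induction M with
    | zero => simp
    | succ M ih =>
      rw [Finset.sum_range_succ, ih]
      ring
  rw [h]
  have : (0 : ℝ) < (1 / 4 : ℝ) ^ M := by positivity
  linarith

theorem up_sum (r : ℕ) :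
    ∑ j ∈ Finset.range (r - r / 3), (r.choose (r / 3 + 1 + j) : ℝ) * gb r (r / 3 + 1 + j) ≤
      (r.choose (r / 3) : ℝ) * (2 ^ (r % 3) / 3) := by
  have h1 : ∀ j ∈ Finset.range (r - r / 3),
      (r.choose (r / 3 + 1 + j) : ℝ) * gb r (r / 3 + 1 + j) ≤
      (r.choose (r / 3) : ℝ) * (2 ^ (r % 3) * (1 / 4 : ℝ) ^ (j + 1)) := by
    intro j _
    have h2 := choose_up r (j + 1)
    have e1 : r / 3 + (j + 1) = r / 3 + 1 + j := by ring
    rw [e1] at h2
    have h3 : (r.choose (r / 3 + 1 + j) : ℝ) ≤ 2 ^ (j + 1) * r.choose (r / 3) := by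
      exact_mod_cast h2
    have h4 : gb r (r / 3 + 1 + j) ≤ (1 / 2 : ℝ) ^ (3 * (r / 3 + 1 + j) - r) := by
      unfold gb
      rw [if_neg (by omega)]
      split_ifs
      · exact le_refl _
      · positivity
    have h4' : 0 ≤ gb r (r / 3 + 1 + j) := by
      unfold gb
      rw [if_neg (by omega)]
      split_ifs
      · positivity
      · exact le_refl _
    have h5 : (1 / 2 : ℝ) ^ (3 * (r / 3 + 1 + j) - r) = 2 ^ (r % 3) * (1 / 8 : ℝ) ^ (j + 1) := by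
      have e2 : 3 * (j + 1) = (3 * (r / 3 + 1 + j) - r) + r % 3 := by omega
      have e3 : (1 / 8 : ℝ) ^ (j + 1) =
          (1 / 2 : ℝ) ^ (3 * (r / 3 + 1 + j) - r) * (1 / 2 : ℝ) ^ (r % 3) := by
        rw [← pow_add, ← e2, pow_mul]
        norm_num
      rw [e3]
      have e4 : (2 : ℝ) ^ (r % 3) * (1 / 2 : ℝ) ^ (r % 3) = 1 := by
        rw [← mul_pow]
        norm_num
      calc (1 / 2 : ℝ) ^ (3 * (r / 3 + 1 + j) - r)
          = (1 / 2 : ℝ) ^ (3 * (r / 3 + 1 + j) - r) *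
            ((2 : ℝ) ^ (r % 3) * (1 / 2 : ℝ) ^ (r % 3)) := by rw [e4, mul_one]
        _ = _ := by ring
    rw [h5] at h4
    calc (r.choose (r / 3 + 1 + j) : ℝ) * gb r (r / 3 + 1 + j)
        ≤ (2 ^ (j + 1) * r.choose (r / 3)) * (2 ^ (r % 3) * (1 / 8 : ℝ) ^ (j + 1)) :=
          mul_le_mul h3 h4 h4' (by positivity)
      _ = (r.choose (r / 3) : ℝ) * (2 ^ (r % 3) * ((2 : ℝ) ^ (j + 1) * (1 / 8 : ℝ) ^ (j + 1))) := by
          ring
      _ = _ := by
          rw [← mul_pow]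
          norm_num
  refine (Finset.sum_le_sum h1).trans ?_
  rw [← Finset.mul_sum, ← Finset.mul_sum]
  refine mul_le_mul_of_nonneg_left ?_ (Nat.cast_nonneg _)
  have h2 := quarter_sum (r - r / 3)
  have h3 : (0 : ℝ) < 2 ^ (r % 3) := by positivity
  calc (2 : ℝ) ^ (r % 3) * ∑ j ∈ Finset.range (r - r / 3), (1 / 4 : ℝ) ^ (j + 1)
      ≤ 2 ^ (r % 3) * (1 / 3) := mul_le_mul_of_nonneg_left h2 h3.le
    _ = _ := by ring

theorem total_sum (r : ℕ) :
    ∑ b ∈ Finset.range (r + 1), (r.choose b : ℝ) * gb r b ≤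
      (r.choose (r / 3) : ℝ) * (Gd (r % 3) + 2 ^ (r % 3) / 3) := by
  have h1 := low_sum r
  have h2 := up_sum r
  have e1 : r + 1 = (r / 3 + 1) + (r - r / 3) := by omega
  rw [e1, Finset.sum_range_add]
  linarith

end Pool.Agent.MP210e22
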