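import Pool.Agent.Lib.MP_210e22_co.TA.Orb

/-!
# The inequality for the exponents of two
-/

namespace Pool.Agent.MP210e22

open Finset Nat

/-- The exponent of `2` in `m!`. -/
def fv (m : ℕ) : ℕ := padicValNat 2 (m)!

theorem fv_eq (m : ℕ) : fv m = m - (Nat.digits 2 m).sum := by
  have h := sub_one_mul_padicValNat_factorial (p := 2) m
  unfold fv
  omega

theorem fv_le (m : ℕ) : fv m ≤ m := by
  rw [fv_eq]
  exact Nat.sub_le _ _

theorem digits_sum_le_half (m : ℕ) : (Nat.digits 2 m).sum ≤ 1 + (Nat.digits 2 (m / 2)).sum := by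
  rcases Nat.eq_zero_or_pos m with h | h
  · subst h
    simp
  · rw [Nat.digits_def' (by norm_num) h, List.sum_cons]
    have := Nat.mod_lt m (show 0 < 2 by norm_num)
    omega

theorem digits_sum_le (q m : ℕ) : (Nat.digits 2 m).sum ≤ q + m / 2 ^ q := by
  induction q generalizing m with
  | zero => simpa using Nat.digit_sum_le 2 m
  | succ q ih =>
    have h1 := digits_sum_le_half m
    have h2 := ih (m / 2)
    rw [Nat.div_div_eq_div_mul, ← pow_succ'] at h2
    have h3 : m / 2 ^ q.succ = m / 2 ^ (q + 1) := rfl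
    omega

theorem le_fv (q m : ℕ) : m ≤ fv m + (q + m / 2 ^ q) := by
  rw [fv_eq]
  have h1 := digits_sum_le q m
  omega

theorem val_prod {Y : Type} (s : Finset Y) (c : Y → ℕ) (hc : ∀ y, c y ≠ 0) :
    padicValNat 2 (∏ y ∈ s, c y) = ∑ y ∈ s, padicValNat 2 (c y) := by
  classical
  induction s using Finset.induction_on with
  | empty => simp
  | insert a s ha ih =>
    rw [Finset.prod_insert ha, Finset.sum_insert ha,
      padicValNat.mul (hc a) (Finset.prod_ne_zero_iff.2 fun y _ => hc y), ih]

theorem val_mono {a b : ℕ} (hb : b ≠ 0) (h : a ∣ b) : padicValNat 2 a ≤ padicValNat 2 b :=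
  (padicValNat_dvd_iff_le hb).1 (pow_padicValNat_dvd.trans h)

theorem fv_sum {Y : Type} (s : Finset Y) (c : Y → ℕ) : ∑ y ∈ s, fv (c y) ≤ fv (∑ y ∈ s, c y) := by
  unfold fv
  have h1 : padicValNat 2 (∏ y ∈ s, (c y)!) = ∑ y ∈ s, padicValNat 2 (c y)! :=
    val_prod s _ (fun y => Nat.factorial_ne_zero _)
  rw [← h1]
  exact val_mono (Nat.factorial_ne_zero _) (Nat.prod_factorial_dvd_factorial_sum s c)

section

variable {X Y I : Type} [Fintype X] [Fintype Y] [DecidableEq Y] [Fintype I] [DecidableEq I]

theorem sum_cnt (f : X → I) : ∑ i, cnt f i = Fintype.card X := by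
  unfold cnt
  rw [← Finset.card_univ, Finset.card_eq_sum_card_fiberwise (f := f) (t := Finset.univ)]
  intro x _
  simp

omit [Fintype I] in
theorem cnt_comp (w : X → Y) (π : Y → I) (i : I) :
    cnt (fun x => π (w x)) i = ∑ y ∈ Finset.univ.filter (fun y => π y = i), cnt w y := by
  unfold cnt
  rw [Finset.card_eq_sum_card_fiberwise (f := w) (t := Finset.univ.filter fun y => π y = i)]
  · refine Finset.sum_congr rfl fun y hy => ?_
    congr 1
    ext x
    simp only [Finset.mem_filter, Finset.mem_univ, true_and] at hy ⊢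
    constructor
    · rintro ⟨_, h⟩
      exact h
    · intro h
      exact ⟨by rw [h, hy], h⟩
  · intro x hx
    simp only [Finset.coe_filter, Finset.mem_univ, true_and, Set.mem_ofPred_eq] at hx ⊢
    exact hx

theorem one_coord (w : X → Y) (π : Y → I) (A : Finset I) (q : ℕ) :
    ∑ y, (if π y ∈ A then cnt w y else fv (cnt w y)) ≤
      ∑ i, fv (cnt (fun x => π (w x)) i) + q * A.card + Fintype.card X / 2 ^ q := by
  classical
  have h1 : ∑ y, (if π y ∈ A then cnt w y else fv (cnt w y)) =
      ∑ i, ∑ y ∈ Finset.univ.filter (fun y => π y = i),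
        (if π y ∈ A then cnt w y else fv (cnt w y)) :=
    (Finset.sum_fiberwise Finset.univ π _).symm
  have h2 : ∀ i, ∑ y ∈ Finset.univ.filter (fun y => π y = i),
        (if π y ∈ A then cnt w y else fv (cnt w y)) ≤
      fv (cnt (fun x => π (w x)) i) +
        (if i ∈ A then q + cnt (fun x => π (w x)) i / 2 ^ q else 0) := by
    intro i
    by_cases hi : i ∈ A
    · rw [if_pos hi, Finset.sum_congr rfl (g := fun y => cnt w y), ← cnt_comp]
      · exact le_fv _ _
      · intro y hy
        rw [(Finset.mem_filter.1 hy).2, if_pos hi]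
    · rw [if_neg hi, Finset.sum_congr rfl (g := fun y => fv (cnt w y)), cnt_comp, add_zero]
      · exact fv_sum _ _
      · intro y hy
        rw [(Finset.mem_filter.1 hy).2, if_neg hi]
  have h3 : ∑ i, (if i ∈ A then q + cnt (fun x => π (w x)) i / 2 ^ q else 0) ≤
      q * A.card + Fintype.card X / 2 ^ q := by
    rw [Finset.sum_ite_mem, Finset.univ_inter, Finset.sum_add_distrib, Finset.sum_const,
      smul_eq_mul, mul_comm]
    refine Nat.add_le_add_left ?_ _
    rw [Nat.le_div_iff_mul_le (by positivity), Finset.sum_mul]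
    calc ∑ i ∈ A, cnt (fun x => π (w x)) i / 2 ^ q * 2 ^ q
        ≤ ∑ i ∈ A, cnt (fun x => π (w x)) i :=
          Finset.sum_le_sum fun i _ => Nat.div_mul_le_self _ _
      _ ≤ ∑ i, cnt (fun x => π (w x)) i :=
          Finset.sum_le_sum_of_subset (Finset.subset_univ A)
      _ = Fintype.card X := sum_cnt _
  rw [h1]
  calc _ ≤ ∑ i, (fv (cnt (fun x => π (w x)) i) +
        (if i ∈ A then q + cnt (fun x => π (w x)) i / 2 ^ q else 0)) :=
        Finset.sum_le_sum fun i _ => h2 i
    _ = ∑ i, fv (cnt (fun x => π (w x)) i) +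
        ∑ i, (if i ∈ A then q + cnt (fun x => π (w x)) i / 2 ^ q else 0) :=
        Finset.sum_add_distrib
    _ ≤ _ := by omega

end

theorem val_ineq {X I J L : Type} [Fintype X] [Fintype I] [DecidableEq I] [Fintype J]
    [DecidableEq J] [Fintype L] [DecidableEq L] (w : X → I × J × L) (A : Finset I) (B : Finset J)
    (C : Finset L) (E : Finset (I × J × L))
    (hcov : ∀ y : I × J × L, y.1 ∈ A ∨ y.2.1 ∈ B ∨ y.2.2 ∈ C ∨ y ∈ E) (q : ℕ) :
    Fintype.card X + ∑ y, fv (cnt w y) ≤
      ∑ i, fv (cnt (fun x => (w x).1) i) + ∑ j, fv (cnt (fun x => (w x).2.1) j) +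
        ∑ l, fv (cnt (fun x => (w x).2.2) l) + (Finset.univ.filter fun x => w x ∈ E).card +
        q * (A.card + B.card + C.card) + 3 * (Fintype.card X / 2 ^ q) := by
  classical
  have h1 := one_coord w (fun y => y.1) A q
  have h2 := one_coord w (fun y => y.2.1) B q
  have h3 := one_coord w (fun y => y.2.2) C q
  have h4 : ∑ y, (if y ∈ E then cnt w y else 0) = (Finset.univ.filter fun x => w x ∈ E).card := by
    rw [Finset.sum_ite_mem, Finset.univ_inter]
    unfold cnt
    rw [Finset.card_eq_sum_card_fiberwise (f := w) (s := Finset.univ.filter fun x => w x ∈ E)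
      (t := E)]
    · refine Finset.sum_congr rfl fun y hy => ?_
      congr 1
      ext x
      simp only [Finset.mem_filter, Finset.mem_univ, true_and]
      constructor
      · intro h
        exact ⟨by rw [h]; exact hy, h⟩
      · rintro ⟨_, h⟩
        exact h
    · intro x hx
      simpa using hx
  have h5 : ∑ y, (cnt w y + fv (cnt w y)) ≤
      ∑ y, ((if y.1 ∈ A then cnt w y else fv (cnt w y)) +
        (if y.2.1 ∈ B then cnt w y else fv (cnt w y)) +
        (if y.2.2 ∈ C then cnt w y else fv (cnt w y)) + (if y ∈ E then cnt w y else 0)) := by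
    refine Finset.sum_le_sum fun y _ => ?_
    have hy := hcov y
    have hv := fv_le (cnt w y)
    split_ifs <;> first | omega | (exfalso; tauto)
  rw [Finset.sum_add_distrib, Finset.sum_add_distrib, Finset.sum_add_distrib,
    Finset.sum_add_distrib, sum_cnt, h4] at h5
  have h6 : q * (A.card + B.card + C.card) = q * A.card + q * B.card + q * C.card := by ring
  rw [h6]
  omega

end Pool.Agent.MP210e22
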